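import Mathlib

set_option autoImplicit false

namespace Pool.Agent.Helper62.Mandel

open Set Metric Filter Topology

/-- The attractor of the iterated function system `z ↦ q z`, `z ↦ q z + 1` (for `|q| < 1`): the set
of all sums `∑ σ_k q^k` with digits `σ_k ∈ {0, 1}`. -/
def attractor (q : ℂ) : Set ℂ :=
  {z | ∃ σ : ℕ → ℂ, (∀ k, σ k = 0 ∨ σ k = 1) ∧ z = ∑' k, σ k * q ^ k}

/-- The Mandelbrot set for pairs of linear maps: all `q` in the open unit disc for which the
attractor is connected. -/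
def mandelbrot : Set ℂ := {q | ‖q‖ < 1 ∧ IsConnected (attractor q)}

/-- The power series with real coefficients `a` vanishes at `q`. -/
def Vanish (a : ℕ → ℝ) (q : ℂ) : Prop := HasSum (fun k => (a k : ℂ) * q ^ k) 0

/-- Prepend a term to a sequence. -/
def consSeq {α : Type} (c : α) (s : ℕ → α) : ℕ → α
  | 0 => c
  | k + 1 => s k

lemma hasSum_cons {q c S : ℂ} {s : ℕ → ℂ} (h : HasSum (fun k => s k * q ^ k) S) :
    HasSum (fun k => consSeq c s k * q ^ k) (c + q * S) := by
  rw [← hasSum_nat_add_iff' 1]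
  have e1 : (fun k => consSeq c s (k + 1) * q ^ (k + 1)) = fun k => q * (s k * q ^ k) := by
    ext k
    change s k * q ^ (k + 1) = _
    ring
  have e2 : c + q * S - ∑ i ∈ Finset.range 1, consSeq c s i * q ^ i = q * S := by
    rw [Finset.range_one, Finset.sum_singleton]
    change c + q * S - c * q ^ 0 = _
    ring
  rw [e1, e2]
  exact h.mul_left q

lemma summable_of_bdd {q : ℂ} (hq : ‖q‖ < 1) {σ : ℕ → ℂ} {C : ℝ} (hσ : ∀ k, ‖σ k‖ ≤ C) :
    Summable fun k => σ k * q ^ k := by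
  have h1 : Summable fun k : ℕ => C * ‖q‖ ^ k :=
    (summable_geometric_of_lt_one (norm_nonneg _) hq).mul_left C
  refine Summable.of_norm_bounded h1 fun k => ?_
  rw [norm_mul, norm_pow]
  exact mul_le_mul_of_nonneg_right (hσ k) (by positivity)

lemma digit_norm {σ : ℕ → ℂ} (hσ : ∀ k, σ k = 0 ∨ σ k = 1) (k : ℕ) : ‖σ k‖ ≤ 1 := by
  rcases hσ k with h | h <;> rw [h] <;> simp

lemma digit_hasSum {q : ℂ} (hq : ‖q‖ < 1) {σ : ℕ → ℂ} (hσ : ∀ k, σ k = 0 ∨ σ k = 1) :
    HasSum (fun k => σ k * q ^ k) (∑' k, σ k * q ^ k) :=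
  (summable_of_bdd hq (digit_norm hσ)).hasSum

/-- The digit map from the Cantor space. -/
noncomputable def phi (q : ℂ) (σ : ℕ → Bool) : ℂ := ∑' k, (if σ k then (1 : ℂ) else 0) * q ^ k

lemma attractor_eq_range (q : ℂ) : attractor q = Set.range (phi q) := by
  classical
  ext z
  constructor
  · rintro ⟨σ, hσ, rfl⟩
    refine ⟨fun k => decide (σ k = 1), ?_⟩
    unfold phi
    congr 1
    ext k
    rcases hσ k with h | h <;> simp [h]
  · rintro ⟨σ, rfl⟩
    refine ⟨fun k => if σ k then 1 else 0, fun k => ?_, rfl⟩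
    by_cases h : σ k = true <;> simp [h]

lemma continuous_phi {q : ℂ} (hq : ‖q‖ < 1) : Continuous (phi q) := by
  have h1 : Summable fun k : ℕ => ‖q‖ ^ k := summable_geometric_of_lt_one (norm_nonneg _) hq
  refine continuous_tsum (fun k => ?_) h1 (fun k σ => ?_)
  · have h2 : Continuous fun b : Bool => (if b then (1 : ℂ) else 0) * q ^ k :=
      continuous_of_discreteTopology
    exact h2.comp (continuous_apply k)
  · rw [norm_mul, norm_pow]
    by_cases h : σ k = true <;> simp [h]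

lemma isCompact_attractor {q : ℂ} (hq : ‖q‖ < 1) : IsCompact (attractor q) := by
  rw [attractor_eq_range]
  exact isCompact_range (continuous_phi hq)

lemma attractor_nonempty (q : ℂ) : (attractor q).Nonempty :=
  ⟨_, fun _ => 0, fun _ => Or.inl rfl, rfl⟩

/-- `A = q A ∪ (q A + 1)`. -/
lemma attractor_self {q : ℂ} (hq : ‖q‖ < 1) (z : ℂ) :
    z ∈ attractor q ↔ (∃ w ∈ attractor q, z = q * w) ∨ (∃ w ∈ attractor q, z = q * w + 1) := by
  have hshift : ∀ c : ℂ, ∀ σ : ℕ → ℂ, (∀ k, σ k = 0 ∨ σ k = 1) →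
      ∑' k, consSeq c σ k * q ^ k = c + q * ∑' k, σ k * q ^ k := by
    intro c σ hσ
    exact (hasSum_cons (digit_hasSum hq hσ)).tsum_eq
  have hsplit : ∀ σ : ℕ → ℂ, σ = consSeq (σ 0) (fun k => σ (k + 1)) := by
    intro σ
    ext k
    cases k <;> rfl
  constructor
  · rintro ⟨σ, hσ, rfl⟩
    rcases hσ 0 with h0 | h0
    · left
      refine ⟨_, ⟨fun k => σ (k + 1), fun k => hσ (k + 1), rfl⟩, ?_⟩
      conv_lhs => rw [hsplit σ]
      rw [hshift _ _ (fun k => hσ (k + 1)), h0, zero_add]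
    · right
      refine ⟨_, ⟨fun k => σ (k + 1), fun k => hσ (k + 1), rfl⟩, ?_⟩
      conv_lhs => rw [hsplit σ]
      rw [hshift _ _ (fun k => hσ (k + 1)), h0, add_comm]
  · have hcons : ∀ c : ℂ, (c = 0 ∨ c = 1) → ∀ σ : ℕ → ℂ, (∀ k, σ k = 0 ∨ σ k = 1) →
        c + q * ∑' k, σ k * q ^ k ∈ attractor q := by
      intro c hc σ hσ
      refine ⟨consSeq c σ, fun k => ?_, (hshift c σ hσ).symm⟩
      cases k with
      | zero => exact hc
      | succ k => exact hσ k
    rintro (⟨w, ⟨σ, hσ, rfl⟩, rfl⟩ | ⟨w, ⟨σ, hσ, rfl⟩, rfl⟩)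
    · have := hcons 0 (Or.inl rfl) σ hσ
      rwa [zero_add] at this
    · have := hcons 1 (Or.inr rfl) σ hσ
      rwa [add_comm] at this

/-- If the attractor is connected, then the two pieces meet. -/
lemma exists_series_of_connected {q : ℂ} (hq : ‖q‖ < 1) (hc : IsConnected (attractor q)) :
    ∃ a : ℕ → ℝ, a 0 = 1 ∧ (∀ k, a k = 0 ∨ a k = 1 ∨ a k = -1) ∧ Vanish a q := by
  have hcomp := isCompact_attractor hq
  have h1 : IsClosed ((fun w => q * w) '' attractor q) :=
    (hcomp.image (by fun_prop)).isClosed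
  have h2 : IsClosed ((fun w => q * w + 1) '' attractor q) :=
    (hcomp.image (by fun_prop)).isClosed
  have hpre := (isPreconnected_closed_iff.mp hc.isPreconnected) _ _ h1 h2
  have hcov : attractor q ⊆ (fun w => q * w) '' attractor q ∪ (fun w => q * w + 1) '' attractor q := by
    intro z hz
    rcases (attractor_self hq z).mp hz with ⟨w, hw, rfl⟩ | ⟨w, hw, rfl⟩
    · exact Or.inl ⟨w, hw, rfl⟩
    · exact Or.inr ⟨w, hw, rfl⟩
  obtain ⟨w0, hw0⟩ := attractor_nonempty q
  obtain ⟨z, -, ⟨w, ⟨σ, hσ, rfl⟩, hw⟩, ⟨w', ⟨τ, hτ, rfl⟩, hw'⟩⟩ := hpre hcov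
    ⟨q * w0, (attractor_self hq _).mpr (Or.inl ⟨w0, hw0, rfl⟩), ⟨w0, hw0, rfl⟩⟩
    ⟨q * w0 + 1, (attractor_self hq _).mpr (Or.inr ⟨w0, hw0, rfl⟩), ⟨w0, hw0, rfl⟩⟩
  simp only at hw hw'
  -- real digits
  have hre : ∀ σ : ℕ → ℂ, (∀ k, σ k = 0 ∨ σ k = 1) → ∀ k, ((σ k).re : ℂ) = σ k := by
    intro σ hσ k
    rcases hσ k with h | h <;> rw [h] <;> simp
  refine ⟨consSeq 1 (fun k => (τ k).re - (σ k).re), rfl, ?_, ?_⟩
  · intro k
    cases k with
    | zero => right; left; rfl
    | succ k =>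
      simp only [consSeq]
      rcases hσ k with h | h <;> rcases hτ k with h' | h' <;> rw [h, h'] <;> simp
  · unfold Vanish
    have h3 : HasSum (fun k => (τ k - σ k) * q ^ k)
        (∑' k, τ k * q ^ k - ∑' k, σ k * q ^ k) := by
      have := (digit_hasSum hq hτ).sub (digit_hasSum hq hσ)
      simpa only [sub_mul] using this
    have h4 := hasSum_cons (c := 1) h3
    convert h4 using 1
    · ext k
      cases k with
      | zero => simp [consSeq]
      | succ k =>
        simp only [consSeq, Complex.ofReal_sub, hre σ hσ, hre τ hτ]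
    · linear_combination hw - hw'

/-- A connected attractor from a common point of the two pieces. -/
lemma connected_of_common {q : ℂ} (hq : ‖q‖ < 1) {z0 w1 w2 : ℂ} (hw1 : w1 ∈ attractor q)
    (hw2 : w2 ∈ attractor q) (h1 : z0 = q * w1) (h2 : z0 = q * w2 + 1) :
    IsConnected (attractor q) := by
  refine ⟨attractor_nonempty q, ?_⟩
  rw [isPreconnected_closed_iff]
  intro t t' ht ht' hcov hne hne'
  by_contra hcon
  rw [Set.not_nonempty_iff_eq_empty] at hcon
  have hcomp := isCompact_attractor hq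
  have hA1 : IsCompact (attractor q ∩ t) := hcomp.inter_right ht
  have hA2 : IsCompact (attractor q ∩ t') := hcomp.inter_right ht'
  have hdisj : Disjoint (attractor q ∩ t) (attractor q ∩ t') := by
    rw [Set.disjoint_iff_inter_eq_empty]
    rw [← hcon]
    ext x
    simp only [Set.mem_inter_iff]
    tauto
  obtain ⟨δ, hδ, hsep⟩ := hdisj.exists_thickenings hA1 hA2.isClosed
  -- bound on the attractor
  obtain ⟨R, hR⟩ := hcomp.isBounded.exists_norm_le
  have hR0 : 0 ≤ R := (norm_nonneg _).trans (hR _ hw1)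
  -- small pieces
  obtain ⟨N, hN⟩ : ∃ N : ℕ, ‖q‖ ^ N * (2 * R) < δ := by
    have h3 : Tendsto (fun n : ℕ => ‖q‖ ^ n * (2 * R)) atTop (𝓝 (0 * (2 * R))) :=
      (tendsto_pow_atTop_nhds_zero_of_lt_one (norm_nonneg _) hq).mul_const _
    rw [zero_mul] at h3
    exact (h3.eventually (gt_mem_nhds hδ)).exists
  have key : ∀ m n : ℕ, n + m = N → ∀ p : ℂ,
      (∀ w ∈ attractor q, p + q ^ n * w ∈ attractor q) →
      (∀ w ∈ attractor q, p + q ^ n * w ∈ t) ∨ (∀ w ∈ attractor q, p + q ^ n * w ∈ t') := by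
    intro m
    induction m with
    | zero =>
      intro n hn p hp
      rw [add_zero] at hn
      subst hn
      obtain ⟨w0, hw0⟩ := attractor_nonempty q
      have hdist : ∀ w ∈ attractor q, dist (p + q ^ n * w) (p + q ^ n * w0) < δ := by
        intro w hw
        rw [dist_eq_norm]
        have : p + q ^ n * w - (p + q ^ n * w0) = q ^ n * (w - w0) := by ring
        rw [this, norm_mul, norm_pow]
        refine lt_of_le_of_lt (mul_le_mul_of_nonneg_left ?_ (by positivity)) hN
        calc ‖w - w0‖ ≤ ‖w‖ + ‖w0‖ := norm_sub_le _ _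
          _ ≤ 2 * R := by linarith [hR w hw, hR w0 hw0]
      rcases hcov (hp w0 hw0) with h0 | h0
      · left
        intro w hw
        rcases hcov (hp w hw) with h | h
        · exact h
        · exfalso
          have g1 : p + q ^ n * w ∈ Metric.thickening δ (attractor q ∩ t) :=
            Metric.mem_thickening_iff.mpr ⟨_, ⟨hp w0 hw0, h0⟩, hdist w hw⟩
          have g2 : p + q ^ n * w ∈ Metric.thickening δ (attractor q ∩ t') :=
            Metric.mem_thickening_iff.mpr ⟨_, ⟨hp w hw, h⟩, by simpa using hδ⟩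
          exact Set.disjoint_left.mp hsep g1 g2
      · right
        intro w hw
        rcases hcov (hp w hw) with h | h
        · exfalso
          have g1 : p + q ^ n * w ∈ Metric.thickening δ (attractor q ∩ t) :=
            Metric.mem_thickening_iff.mpr ⟨_, ⟨hp w hw, h⟩, by simpa using hδ⟩
          have g2 : p + q ^ n * w ∈ Metric.thickening δ (attractor q ∩ t') :=
            Metric.mem_thickening_iff.mpr ⟨_, ⟨hp w0 hw0, h0⟩, hdist w hw⟩
          exact Set.disjoint_left.mp hsep g1 g2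
        · exact h
    | succ m ih =>
      intro n hn p hp
      have e1 : ∀ w, p + q ^ (n + 1) * w = p + q ^ n * (q * w) := fun w => by ring
      have e2 : ∀ w, p + q ^ n + q ^ (n + 1) * w = p + q ^ n * (q * w + 1) := fun w => by ring
      have hp1 : ∀ w ∈ attractor q, p + q ^ (n + 1) * w ∈ attractor q := by
        intro w hw
        rw [e1]
        exact hp _ ((attractor_self hq _).mpr (Or.inl ⟨w, hw, rfl⟩))
      have hp2 : ∀ w ∈ attractor q, p + q ^ n + q ^ (n + 1) * w ∈ attractor q := by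
        intro w hw
        rw [e2]
        exact hp _ ((attractor_self hq _).mpr (Or.inr ⟨w, hw, rfl⟩))
      have hmeet : p + q ^ (n + 1) * w1 = p + q ^ n + q ^ (n + 1) * w2 := by
        rw [e1, e2, ← h1, ← h2]
      have hboth : ∀ x, x ∈ attractor q → x ∈ t → x ∈ t' → False := by
        intro x hx hxt hxt'
        have : x ∈ attractor q ∩ (t ∩ t') := ⟨hx, hxt, hxt'⟩
        rw [hcon] at this
        exact this
      have hfin : ∀ s : Set ℂ, (∀ w ∈ attractor q, p + q ^ (n + 1) * w ∈ s) →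
          (∀ w ∈ attractor q, p + q ^ n + q ^ (n + 1) * w ∈ s) →
          ∀ w ∈ attractor q, p + q ^ n * w ∈ s := by
        intro s hs1 hs2 w hw
        rcases (attractor_self hq w).mp hw with ⟨v, hv, rfl⟩ | ⟨v, hv, rfl⟩
        · rw [← e1]; exact hs1 v hv
        · rw [← e2]; exact hs2 v hv
      rcases ih (n + 1) (by omega) p hp1 with h3 | h3 <;>
        rcases ih (n + 1) (by omega) (p + q ^ n) hp2 with h4 | h4
      · exact Or.inl (hfin t h3 h4)
      · exact absurd (h4 w2 hw2) (fun h => hboth _ (hp1 w1 hw1) (h3 w1 hw1) (by rw [hmeet]; exact h))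
      · exact absurd (h4 w2 hw2) (fun h => hboth _ (hp1 w1 hw1) (by rw [hmeet]; exact h) (h3 w1 hw1))
      · exact Or.inr (hfin t' h3 h4)
  rcases key N 0 (by omega) 0 (fun w hw => by simpa using hw) with h | h
  · obtain ⟨x, hx, hxt'⟩ := hne'
    have h5 : x ∈ attractor q ∩ (t ∩ t') := ⟨hx, by simpa using h x hx, hxt'⟩
    rw [hcon] at h5
    exact h5
  · obtain ⟨x, hx, hxt⟩ := hne
    have h5 : x ∈ attractor q ∩ (t ∩ t') := ⟨hx, hxt, by simpa using h x hx⟩
    rw [hcon] at h5
    exact h5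

/-- A zero of a power series with coefficients in `{-1, 0, 1}` lies in the Mandelbrot set. -/
lemma connected_of_series {q : ℂ} (hq : ‖q‖ < 1) {a : ℕ → ℝ} (h0 : a 0 = 1)
    (ha : ∀ k, a k = 0 ∨ a k = 1 ∨ a k = -1) (hv : Vanish a q) : IsConnected (attractor q) := by
  classical
  -- digits
  let σ : ℕ → ℂ := fun k => if a (k + 1) = -1 then 1 else 0
  let τ : ℕ → ℂ := fun k => if a (k + 1) = 1 then 1 else 0
  have hσ : ∀ k, σ k = 0 ∨ σ k = 1 := by
    intro k
    by_cases h : a (k + 1) = -1 <;> simp [σ, h]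
  have hτ : ∀ k, τ k = 0 ∨ τ k = 1 := by
    intro k
    by_cases h : a (k + 1) = 1 <;> simp [τ, h]
  have hd : ∀ k, τ k - σ k = (a (k + 1) : ℂ) := by
    intro k
    simp only [σ, τ]
    rcases ha (k + 1) with h | h | h <;> rw [h] <;> norm_num
  have h3 : HasSum (fun k => (τ k - σ k) * q ^ k)
      (∑' k, τ k * q ^ k - ∑' k, σ k * q ^ k) := by
    have := (digit_hasSum hq hτ).sub (digit_hasSum hq hσ)
    simpa only [sub_mul] using this
  have h4 := hasSum_cons (c := 1) h3
  have h5 : HasSum (fun k => (a k : ℂ) * q ^ k)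
      (1 + q * (∑' k, τ k * q ^ k - ∑' k, σ k * q ^ k)) := by
    convert h4 using 1
    ext k
    cases k with
    | zero => simp [consSeq, h0]
    | succ k => simp only [consSeq, hd]
  have h6 := h5.unique hv
  exact connected_of_common hq ⟨σ, hσ, rfl⟩ ⟨τ, hτ, rfl⟩ rfl (by linear_combination -h6)

lemma mem_mandelbrot_iff {q : ℂ} : q ∈ mandelbrot ↔ ‖q‖ < 1 ∧
    ∃ a : ℕ → ℝ, a 0 = 1 ∧ (∀ k, a k = 0 ∨ a k = 1 ∨ a k = -1) ∧ Vanish a q := by
  constructor
  · rintro ⟨h1, h2⟩
    exact ⟨h1, exists_series_of_connected h1 h2⟩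
  · rintro ⟨h1, a, h0, ha, hv⟩
    exact ⟨h1, connected_of_series h1 h0 ha hv⟩

end Pool.Agent.Helper62.Mandel
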