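import Mathlib
import Pool.Agent.Helper62.Mandel.Defs

set_option autoImplicit false

namespace Pool.Agent.Helper62.Mandel

open Polynomial Polynomial.Chebyshev Set

/-- `W u γ k = T_k(u) - γ U_{k-1}(u)`. -/
def W (u γ : ℝ) : ℕ → ℝ
  | 0 => 1
  | 1 => u - γ
  | (k + 2) => 2 * u * W u γ (k + 1) - W u γ k

/-- The polynomial `T_k - γ U_{k-1}`. -/
noncomputable def P (γ : ℝ) (k : ℕ) : ℝ[X] := T ℝ (k : ℤ) - C γ * U ℝ ((k : ℤ) - 1)

lemma W_eq (u γ : ℝ) (k : ℕ) : W u γ k = (P γ k).eval u := by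
  induction k using Nat.twoStepInduction with
  | zero => simp [W, P]
  | one => simp [W, P]
  | more k ih1 ih2 =>
    rw [W, ih1, ih2]
    have e1 : T ℝ ((k + 2 : ℕ) : ℤ) = 2 * X * T ℝ ((k + 1 : ℕ) : ℤ) - T ℝ (k : ℤ) := by
      push_cast
      exact T_add_two ℝ k
    have e2 : U ℝ (((k + 2 : ℕ) : ℤ) - 1) = 2 * X * U ℝ (((k + 1 : ℕ) : ℤ) - 1) -
        U ℝ ((k : ℤ) - 1) := by
      have := U_add_two ℝ ((k : ℤ) - 1)
      push_cast
      rw [show (k : ℤ) + 2 - 1 = (k : ℤ) - 1 + 2 by ring, this,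
        show (k : ℤ) - 1 + 1 = (k : ℤ) + 1 - 1 by ring]
    simp only [P, e1, e2, eval_sub, eval_mul, eval_C, eval_X, eval_ofNat]
    ring

/-- `|U_{k-1}(x)| ≤ k` on `[-1, 1]`. -/
lemma abs_U_le (k : ℕ) {x : ℝ} (hx : |x| ≤ 1) : |(U ℝ ((k : ℤ) - 1)).eval x| ≤ k := by
  rcases Nat.eq_zero_or_pos k with rfl | hk
  · simp
  have hk' : (0 : ℝ) < k := by exact_mod_cast hk
  have h1 := abs_iterate_derivative_T_real_le (k : ℤ) 1 hx
  have h2 := iterate_derivative_T_eval_one_eq_div (𝔽 := ℝ) (k : ℤ) 1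
  simp only [Function.iterate_one, T_derivative_eq_U] at h1 h2
  rw [h2] at h1
  simp only [eval_mul, Int.cast_natCast, eval_natCast, Finset.range_one, Finset.prod_singleton,
    abs_mul] at h1
  norm_num at h1
  have h3 : (k : ℝ) * |(U ℝ ((k : ℤ) - 1)).eval x| ≤ k * k := by
    calc _ ≤ _ := h1
      _ = k * k := by ring
  exact le_of_mul_le_mul_left h3 hk'

lemma abs_W_le (u γ : ℝ) (hu : |u| ≤ 1) (k : ℕ) : |W u γ k| ≤ 1 + |γ| * k := by
  rw [W_eq]
  simp only [P, eval_sub, eval_mul, eval_C]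
  calc |(T ℝ (k : ℤ)).eval u - γ * (U ℝ ((k : ℤ) - 1)).eval u|
      ≤ |(T ℝ (k : ℤ)).eval u| + |γ * (U ℝ ((k : ℤ) - 1)).eval u| := abs_sub _ _
    _ ≤ 1 + |γ| * k := by
      rw [abs_mul]
      exact add_le_add (abs_eval_T_real_le_one _ hu)
        (mul_le_mul_of_nonneg_left (abs_U_le k hu) (abs_nonneg _))

/-- The bound for the second derivative of `T_k - γ U_{k-1}` on `[-1,1]`. -/
noncomputable def Mb (γ : ℝ) (k : ℕ) : ℝ :=
  (k : ℝ) ^ 2 * ((k : ℝ) ^ 2 - 1) / 3 +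
    |γ| * (k * ((k : ℝ) ^ 2 - 1) * ((k : ℝ) ^ 2 - 4) / 15)

lemma abs_P_deriv2_le (γ : ℝ) (k : ℕ) (hk : 1 ≤ k) {x : ℝ} (hx : |x| ≤ 1) :
    |(derivative (derivative (P γ k))).eval x| ≤ Mb γ k := by
  have hk' : (0 : ℝ) < k := by exact_mod_cast hk
  have hT2 : |(derivative (derivative (T ℝ (k : ℤ)))).eval x| ≤
      (k : ℝ) ^ 2 * ((k : ℝ) ^ 2 - 1) / 3 := by
    have h1 := abs_iterate_derivative_T_real_le (k : ℤ) 2 hx
    have h2 := iterate_derivative_T_eval_one_eq_div (𝔽 := ℝ) (k : ℤ) 2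
    simp only [Function.iterate_succ, Function.iterate_zero, Function.comp_apply, id_eq] at h1 h2
    rw [h2] at h1
    norm_num [Finset.prod_range_succ] at h1
    convert h1 using 1
  have hU2 : |(derivative (derivative (U ℝ ((k : ℤ) - 1)))).eval x| ≤
      k * ((k : ℝ) ^ 2 - 1) * ((k : ℝ) ^ 2 - 4) / 15 := by
    have h1 := abs_iterate_derivative_T_real_le (k : ℤ) 3 hx
    have h2 := iterate_derivative_T_eval_one_eq_div (𝔽 := ℝ) (k : ℤ) 3
    simp only [Function.iterate_succ, Function.iterate_zero, Function.comp_apply, id_eq] at h1 h2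
    rw [h2] at h1
    have e1 : derivative (derivative (derivative (T ℝ (k : ℤ)))) =
        C (k : ℝ) * derivative (derivative (U ℝ ((k : ℤ) - 1))) := by
      rw [T_derivative_eq_U]
      simp
    rw [e1] at h1
    simp only [eval_mul, eval_C, abs_mul] at h1
    norm_num [Finset.prod_range_succ] at h1
    have h3 : (k : ℝ) * |(derivative (derivative (U ℝ ((k : ℤ) - 1)))).eval x| ≤
        k * (k * ((k : ℝ) ^ 2 - 1) * ((k : ℝ) ^ 2 - 4) / 15) := by
      calc _ ≤ _ := h1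
        _ = _ := by ring
    exact le_of_mul_le_mul_left h3 hk'
  have e2 : derivative (derivative (P γ k)) = derivative (derivative (T ℝ (k : ℤ))) -
      C γ * derivative (derivative (U ℝ ((k : ℤ) - 1))) := by
    simp [P]
  rw [e2, eval_sub, eval_mul, eval_C]
  calc _ ≤ |(derivative (derivative (T ℝ (k : ℤ)))).eval x| +
        |γ * (derivative (derivative (U ℝ ((k : ℤ) - 1)))).eval x| := abs_sub _ _
    _ ≤ _ := by
      rw [abs_mul]
      exact add_le_add hT2 (mul_le_mul_of_nonneg_left hU2 (abs_nonneg _))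

/-- One-sided linear interpolation estimate for a polynomial. -/
lemma interp_le (p : ℝ[X]) {M a b t : ℝ} (hM0 : 0 ≤ M) (hab : a ≤ b) (ht0 : 0 ≤ t) (ht1 : t ≤ 1)
    (hM : ∀ x ∈ Icc a b, -M ≤ (derivative (derivative p)).eval x) :
    p.eval ((1 - t) * a + t * b) ≤ (1 - t) * p.eval a + t * p.eval b + M * (b - a) ^ 2 / 8 := by
  let q : ℝ[X] := p + C (M / 2) * X ^ 2
  have hconv : ConvexOn ℝ (Icc a b) (fun x => q.eval x) := by
    apply convexOn_of_deriv2_nonneg (convex_Icc a b) q.continuous.continuousOn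
      q.differentiable.differentiableOn
    · intro x _
      have : deriv (fun x => q.eval x) = fun x => (derivative q).eval x := by
        ext x; exact q.deriv
      rw [this]
      exact (derivative q).differentiable.differentiableAt.differentiableWithinAt
    · intro x hx
      have h1 : deriv (fun x => q.eval x) = fun x => (derivative q).eval x := by
        ext x; exact q.deriv
      have h2 : deriv (fun x => (derivative q).eval x) =
          fun x => (derivative (derivative q)).eval x := by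
        ext x; exact (derivative q).deriv
      simp only [Function.iterate_succ, Function.iterate_zero, Function.comp_apply, id_eq]
      rw [h1, h2]
      have h3 := hM x (interior_subset hx)
      have h4 : (derivative (derivative q)).eval x = (derivative (derivative p)).eval x + M := by
        simp [q]
        ring
      change 0 ≤ (derivative (derivative q)).eval x
      rw [h4]
      linarith
  have h := hconv.2 (left_mem_Icc.mpr hab) (right_mem_Icc.mpr hab) (sub_nonneg.mpr ht1) ht0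
    (by ring)
  simp only [smul_eq_mul, q, eval_add, eval_mul, eval_C, eval_pow, eval_X] at h
  have h5 : (1 - t) * a ^ 2 + t * b ^ 2 - ((1 - t) * a + t * b) ^ 2 = t * (1 - t) * (b - a) ^ 2 := by
    ring
  have h6 : t * (1 - t) ≤ 1 / 4 := by nlinarith [sq_nonneg (t - 1 / 2)]
  have h7 : t * (1 - t) * (b - a) ^ 2 ≤ 1 / 4 * (b - a) ^ 2 :=
    mul_le_mul_of_nonneg_right h6 (sq_nonneg _)
  have h8 : M / 2 * ((1 - t) * a ^ 2 + t * b ^ 2 - ((1 - t) * a + t * b) ^ 2) ≤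
      M / 2 * (1 / 4 * (b - a) ^ 2) := by
    rw [h5]
    exact mul_le_mul_of_nonneg_left h7 (by positivity)
  nlinarith

/-- Linear interpolation estimate for the absolute value of a polynomial. -/
lemma interp_abs_le (p : ℝ[X]) {M a b t : ℝ} (hab : a ≤ b) (ht0 : 0 ≤ t) (ht1 : t ≤ 1)
    (hM : ∀ x ∈ Icc a b, |(derivative (derivative p)).eval x| ≤ M) :
    |p.eval ((1 - t) * a + t * b)| ≤
      (1 - t) * |p.eval a| + t * |p.eval b| + M * (b - a) ^ 2 / 8 := by
  have hM0 : 0 ≤ M := (abs_nonneg _).trans (hM a (left_mem_Icc.mpr hab))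
  have h1 := interp_le p hM0 hab ht0 ht1 (fun x hx => (abs_le.mp (hM x hx)).1)
  have h2 := interp_le (-p) hM0 hab ht0 ht1 (fun x hx => by
    have := (abs_le.mp (hM x hx)).2
    simp only [derivative_neg, eval_neg]
    linarith)
  simp only [eval_neg] at h2
  have h3 := le_abs_self (p.eval a)
  have h4 := neg_abs_le (p.eval a)
  have h5 := le_abs_self (p.eval b)
  have h6 := neg_abs_le (p.eval b)
  have h7 : 0 ≤ 1 - t := by linarith
  rw [abs_le]
  constructor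
  · nlinarith [mul_le_mul_of_nonneg_left h4 h7, mul_le_mul_of_nonneg_left h6 ht0]
  · nlinarith [mul_le_mul_of_nonneg_left h3 h7, mul_le_mul_of_nonneg_left h5 ht0]

lemma W_interp {γ a b t : ℝ} (k : ℕ) (hk : 1 ≤ k) (ha : -1 ≤ a) (hab : a ≤ b) (hb : b ≤ 1)
    (ht0 : 0 ≤ t) (ht1 : t ≤ 1) :
    |W ((1 - t) * a + t * b) γ k| ≤
      (1 - t) * |W a γ k| + t * |W b γ k| + Mb γ k * (b - a) ^ 2 / 8 := by
  rw [W_eq, W_eq, W_eq]
  refine interp_abs_le (P γ k) hab ht0 ht1 fun x hx => ?_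
  exact abs_P_deriv2_le γ k hk (abs_le.mpr ⟨ha.trans hx.1, hx.2.trans hb⟩)

/-- The tail bound. -/
noncomputable def tailB (ρ γ : ℝ) (K : ℕ) : ℝ :=
  ρ ^ (K + 1) / (1 - ρ) * (1 + |γ| * (K + 1 + ρ / (1 - ρ)))

lemma hasSum_tail {ρ : ℝ} (h0 : 0 ≤ ρ) (h1 : ρ < 1) (γ : ℝ) (K : ℕ) :
    HasSum (fun j : ℕ => ρ ^ (K + j + 1) * (1 + |γ| * ((K + j + 1 : ℕ) : ℝ))) (tailB ρ γ K) := by
  have hρ : |ρ| < 1 := by rwa [abs_of_nonneg h0]
  have hg := hasSum_geometric_of_lt_one h0 h1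
  have hg2 := hasSum_coe_mul_geometric_of_norm_lt_one (r := ρ) (by simpa using hρ)
  have e : tailB ρ γ K = ρ ^ (K + 1) * ((1 + |γ| * (K + 1)) * (1 - ρ)⁻¹ + |γ| * (ρ / (1 - ρ) ^ 2)) := by
    have : 1 - ρ ≠ 0 := by linarith
    unfold tailB
    field_simp
    ring
  rw [e]
  have h2 := ((hg.mul_left (1 + |γ| * (K + 1))).add (hg2.mul_left |γ|)).mul_left (ρ ^ (K + 1))
  have e2 : (fun j : ℕ => ρ ^ (K + j + 1) * (1 + |γ| * ((K + j + 1 : ℕ) : ℝ))) =
      fun i : ℕ => ρ ^ (K + 1) * ((1 + |γ| * (K + 1)) * ρ ^ i + |γ| * (i * ρ ^ i)) := by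
    ext j
    push_cast
    ring
  rw [e2]
  exact h2

lemma summable_W {ρ u : ℝ} (h0 : 0 ≤ ρ) (h1 : ρ < 1) (γ : ℝ) (hu : |u| ≤ 1) :
    Summable fun k : ℕ => ρ ^ (k + 1) * |W u γ (k + 1)| := by
  have h2 := (hasSum_tail h0 h1 γ 0).summable
  refine Summable.of_nonneg_of_le (fun k => by positivity) (fun k => ?_) h2
  have h3 := abs_W_le u γ hu (k + 1)
  rw [zero_add]
  exact mul_le_mul_of_nonneg_left h3 (by positivity)

/-- The verification condition on one cell, in real form. -/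
theorem cell_real {ρ γ a b : ℝ} {K : ℕ} (h0 : 0 ≤ ρ) (h1 : ρ < 1) (ha : -1 ≤ a) (hb : b ≤ 1)
    (hA : ∑ k ∈ Finset.range K, ρ ^ (k + 1) * |W a γ (k + 1)| +
      (∑ k ∈ Finset.range K, ρ ^ (k + 1) * Mb γ (k + 1)) * ((b - a) ^ 2 / 8) + tailB ρ γ K < 1)
    (hB : ∑ k ∈ Finset.range K, ρ ^ (k + 1) * |W b γ (k + 1)| +
      (∑ k ∈ Finset.range K, ρ ^ (k + 1) * Mb γ (k + 1)) * ((b - a) ^ 2 / 8) + tailB ρ γ K < 1)
    {u : ℝ} (hau : a ≤ u) (hub : u ≤ b) :
    ∑' k : ℕ, ρ ^ (k + 1) * |W u γ (k + 1)| < 1 := by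
  have hab : a ≤ b := hau.trans hub
  obtain ⟨t, ht0, ht1, rfl⟩ : ∃ t : ℝ, 0 ≤ t ∧ t ≤ 1 ∧ u = (1 - t) * a + t * b := by
    rcases eq_or_lt_of_le hab with h | h
    · refine ⟨0, le_rfl, zero_le_one, ?_⟩
      have : u = a := le_antisymm (by rw [h]; exact hub) hau
      rw [this]; ring
    · have hpos : 0 < b - a := sub_pos.mpr h
      refine ⟨(u - a) / (b - a), div_nonneg (by linarith) hpos.le, ?_, ?_⟩
      · rw [div_le_one hpos]; linarith
      · field_simp
        ring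
  have ha1 : |(1 - t) * a + t * b| ≤ 1 := abs_le.mpr ⟨ha.trans hau, hub.trans hb⟩
  have hsum := summable_W h0 h1 γ ha1
  rw [← hsum.sum_add_tsum_nat_add K]
  have htail : ∑' j : ℕ, ρ ^ (j + K + 1) * |W ((1 - t) * a + t * b) γ (j + K + 1)| ≤
      tailB ρ γ K := by
    rw [← (hasSum_tail h0 h1 γ K).tsum_eq]
    refine Summable.tsum_le_tsum (fun j => ?_) ((summable_nat_add_iff K).mpr hsum)
      (hasSum_tail h0 h1 γ K).summable
    have h3 := abs_W_le ((1 - t) * a + t * b) γ ha1 (K + j + 1)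
    rw [show j + K + 1 = K + j + 1 by ring]
    exact mul_le_mul_of_nonneg_left h3 (by positivity)
  have hfin : ∑ k ∈ Finset.range K, ρ ^ (k + 1) * |W ((1 - t) * a + t * b) γ (k + 1)| ≤
      (1 - t) * ∑ k ∈ Finset.range K, ρ ^ (k + 1) * |W a γ (k + 1)| +
      t * ∑ k ∈ Finset.range K, ρ ^ (k + 1) * |W b γ (k + 1)| +
      (∑ k ∈ Finset.range K, ρ ^ (k + 1) * Mb γ (k + 1)) * ((b - a) ^ 2 / 8) := by
    rw [Finset.mul_sum, Finset.mul_sum, Finset.sum_mul, ← Finset.sum_add_distrib,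
      ← Finset.sum_add_distrib]
    refine Finset.sum_le_sum fun k _ => ?_
    have h4 := W_interp (γ := γ) (k + 1) (by omega) ha hab hb ht0 ht1
    have h5 : (0 : ℝ) ≤ ρ ^ (k + 1) := by positivity
    calc ρ ^ (k + 1) * |W ((1 - t) * a + t * b) γ (k + 1)| ≤ ρ ^ (k + 1) * _ :=
          mul_le_mul_of_nonneg_left h4 h5
      _ = _ := by ring
  set SA := ∑ k ∈ Finset.range K, ρ ^ (k + 1) * |W a γ (k + 1)|
  set SB := ∑ k ∈ Finset.range K, ρ ^ (k + 1) * |W b γ (k + 1)|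
  set M8 := (∑ k ∈ Finset.range K, ρ ^ (k + 1) * Mb γ (k + 1)) * ((b - a) ^ 2 / 8)
  have ht' : 0 ≤ 1 - t := by linarith
  have hm1 : SA ≤ max SA SB := le_max_left _ _
  have hm2 : SB ≤ max SA SB := le_max_right _ _
  have hm3 : max SA SB + M8 + tailB ρ γ K < 1 := by
    rcases max_choice SA SB with h | h <;> rw [h] <;> assumption
  have hm4 : (1 - t) * SA + t * SB ≤ max SA SB := by
    nlinarith [mul_le_mul_of_nonneg_left hm1 ht', mul_le_mul_of_nonneg_left hm2 ht0]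
  linarith

end Pool.Agent.Helper62.Mandel
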