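import Mathlib
import Pool.Agent.Helper62.Mandel.Cheb

set_option autoImplicit false

namespace Pool.Agent.Helper62.Mandel

open Set

/-- The real-linear functional `z ↦ Re z - s Im z`. -/
noncomputable def Lfun (s : ℝ) : ℂ →L[ℝ] ℝ := Complex.reCLM - s • Complex.imCLM

lemma Lfun_apply (s : ℝ) (z : ℂ) : Lfun s z = z.re - s * z.im := by
  simp [Lfun]

/-- The functional on powers of `q`, in terms of the Chebyshev recursion. -/
lemma Lfun_pow {q : ℂ} (hq : q.im ≠ 0) (γ : ℝ) (k : ℕ) :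
    Lfun (γ * ‖q‖ / q.im) (q ^ k) = ‖q‖ ^ k * W (q.re / ‖q‖) γ k := by
  have hq0 : q ≠ 0 := by
    rintro rfl
    simp at hq
  have hr : ‖q‖ ≠ 0 := norm_ne_zero_iff.mpr hq0
  have hsq : q.re ^ 2 + q.im ^ 2 = ‖q‖ ^ 2 := by
    rw [← Complex.normSq_eq_norm_sq, Complex.normSq_apply]
    ring
  have hquad : ∀ k : ℕ, q ^ (k + 2) = ((2 * q.re : ℝ) : ℂ) * q ^ (k + 1) -
      ((‖q‖ ^ 2 : ℝ) : ℂ) * q ^ k := by
    intro k
    have : q ^ 2 = ((2 * q.re : ℝ) : ℂ) * q - ((‖q‖ ^ 2 : ℝ) : ℂ) := by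
      rw [← hsq]
      apply Complex.ext
      · simp [pow_two]
        ring
      · simp [pow_two]
        ring
    calc q ^ (k + 2) = q ^ k * q ^ 2 := by ring
      _ = _ := by rw [this]; ring
  induction k using Nat.twoStepInduction with
  | zero => simp [Lfun_apply, W]
  | one =>
    rw [pow_one, pow_one, Lfun_apply, W]
    field_simp
  | more k ih1 ih2 =>
    rw [hquad k, map_sub]
    have e1 : ∀ (c : ℝ) (z : ℂ), Lfun (γ * ‖q‖ / q.im) ((c : ℂ) * z) =
        c * Lfun (γ * ‖q‖ / q.im) z := by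
      intro c z
      rw [Lfun_apply, Lfun_apply]
      simp
      ring
    rw [e1, e1, ih1, ih2, W]
    field_simp
    ring

/-- **Exclusion principle.** A nonreal zero `q` of a series `1 + ∑ c_k z^k` with `|c_k| ≤ 1` cannot
have modulus at most `ρ` if a dual functional of total mass `< 1` exists at `u = cos (arg q)`. -/
theorem exclusion {q : ℂ} {ρ γ : ℝ} (hq : q.im ≠ 0) (hqρ : ‖q‖ ≤ ρ) (hρ : ρ < 1)
    {c : ℕ → ℝ} (h0 : c 0 = 1) (hc : ∀ k, |c k| ≤ 1) (hv : Vanish c q)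
    (hlt : ∑' k : ℕ, ρ ^ (k + 1) * |W (q.re / ‖q‖) γ (k + 1)| < 1) : False := by
  have hq0 : q ≠ 0 := by
    rintro rfl
    simp at hq
  have hr : 0 < ‖q‖ := norm_pos_iff.mpr hq0
  set u := q.re / ‖q‖ with hu
  have hu1 : |u| ≤ 1 := by
    rw [hu, abs_div, abs_norm, div_le_one hr]
    exact Complex.abs_re_le_norm q
  set s := γ * ‖q‖ / q.im with hs
  have h1 : HasSum (fun k => c k * (‖q‖ ^ k * W u γ k)) 0 := by
    have := (Lfun s).hasSum hv
    rw [map_zero] at this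
    convert this using 1
    ext k
    rw [← Lfun_pow hq γ k, ← hs]
    rw [Lfun_apply, Lfun_apply]
    simp
    ring
  have h2 : HasSum (fun k => c (k + 1) * (‖q‖ ^ (k + 1) * W u γ (k + 1))) (-1) := by
    have := (hasSum_nat_add_iff' 1).mpr h1
    simpa [h0, W] using this
  have hsum := summable_W (hr.le.trans hqρ) hρ γ hu1
  have h3 : ∀ k : ℕ, ‖c (k + 1) * (‖q‖ ^ (k + 1) * W u γ (k + 1))‖ ≤
      ρ ^ (k + 1) * |W u γ (k + 1)| := by
    intro k
    rw [Real.norm_eq_abs, abs_mul, abs_mul, abs_pow, abs_norm]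
    calc |c (k + 1)| * (‖q‖ ^ (k + 1) * |W u γ (k + 1)|)
        ≤ 1 * (‖q‖ ^ (k + 1) * |W u γ (k + 1)|) :=
          mul_le_mul_of_nonneg_right (hc _) (by positivity)
      _ ≤ ρ ^ (k + 1) * |W u γ (k + 1)| := by
          rw [one_mul]
          exact mul_le_mul_of_nonneg_right (pow_le_pow_left₀ hr.le hqρ _) (abs_nonneg _)
  have h4 := tsum_of_norm_bounded hsum.hasSum h3
  rw [h2.tsum_eq] at h4
  norm_num at h4
  linarith

end Pool.Agent.Helper62.Mandel
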