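import Mathlib
import Pool.Agent.Helper62.Mandel.Excl

set_option autoImplicit false

namespace Pool.Agent.Helper62.Mandel

/-! ### The integer computation -/

/-- Force evaluation of a natural number in the kernel. -/
def forceNat {α : Type} (n : ℕ) (f : ℕ → α) : α :=
  match n with
  | 0 => f 0
  | m + 1 => f (m + 1)

@[simp] lemma forceNat_eq {α : Type} (n : ℕ) (f : ℕ → α) : forceNat n f = f n := by
  cases n <;> rfl

/-- The recurrence `X'' = a X' - b X` in sign-magnitude form, accumulating absolute values. -/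
def run (a b B : ℕ) : ℕ → Bool → ℕ → Bool → ℕ → ℕ → ℕ
  | 0, _, _, _, _, acc => acc
  | n + 1, s0, m0, s1, m1, acc =>
    forceNat (a * m1) fun p => forceNat (b * m0) fun q =>
      bif s0 == s1 then
        bif Nat.ble q p then
          forceNat (p - q) fun m2 => forceNat (acc * B + m2) fun acc' => run a b B n s1 m1 s1 m2 acc'
        else
          forceNat (q - p) fun m2 => forceNat (acc * B + m2) fun acc' => run a b B n s1 m1 (!s1) m2 acc'
      else
        forceNat (p + q) fun m2 => forceNat (acc * B + m2) fun acc' => run a b B n s1 m1 s1 m2 acc'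

/-- Accumulated second derivative bounds. -/
def runV (E R F aG : ℕ) : ℕ → ℕ → ℕ → ℕ → ℕ
  | 0, _, _, V => V
  | n + 1, k, Rk, V =>
    forceNat (Rk * R) fun Rk' =>
      forceNat (V * E + Rk' * (5 * k * k * (k * k - 1) * F + aG * k * (k * k - 1) * (k * k - 4)))
        fun V' => forceNat (k + 1) fun k' => runV E R F aG n k' Rk' V'

/-- A cell: modulus `R/E`, interval `[U1/F, U2/F]`, functional parameter `±G/F`, number of terms
`K`. -/
structure Cell where
  R : ℕ
  E : ℕ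
  F : ℕ
  U1 : ℕ
  U2 : ℕ
  neg : Bool
  G : ℕ
  K : ℕ

/-- The accumulated sum at a point `U/F`. -/
def Cell.A (c : Cell) (U : ℕ) : ℕ :=
  bif c.neg then
    run (2 * c.R * U) ((c.R * c.F) ^ 2) (c.E * c.F) (c.K - 1) false 1 false (c.R * (U + c.G))
      (c.R * (U + c.G))
  else bif Nat.ble c.G U then
    run (2 * c.R * U) ((c.R * c.F) ^ 2) (c.E * c.F) (c.K - 1) false 1 false (c.R * (U - c.G))
      (c.R * (U - c.G))
  else
    run (2 * c.R * U) ((c.R * c.F) ^ 2) (c.E * c.F) (c.K - 1) false 1 true (c.R * (c.G - U))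
      (c.R * (c.G - U))

/-- The check on one cell. -/
def Cell.ok (c : Cell) : Bool :=
  forceNat (c.E - c.R) fun D =>
  forceNat (runV c.E c.R c.F c.G c.K 1 1 0) fun V =>
  forceNat (V * c.F ^ c.K * (c.U2 - c.U1) ^ 2 * D ^ 2 +
    c.R ^ (c.K + 1) * c.F ^ c.K * 120 * c.F ^ 2 * (c.F * D + c.G * ((c.K + 1) * D + c.R)))
    fun rest =>
  forceNat ((c.E * c.F) ^ c.K * 120 * c.F ^ 3 * D ^ 2) fun rhs =>
    Nat.ble 1 c.K && (Nat.ble c.U1 c.U2 && (Nat.ble c.U2 c.F &&
    (Nat.ble (c.A c.U1 * 120 * c.F ^ 3 * D ^ 2 + rest + 1) rhs &&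
    Nat.ble (c.A c.U2 * 120 * c.F ^ 3 * D ^ 2 + rest + 1) rhs)))

/-! ### Correctness -/

/-- Signed value. -/
def sv (s : Bool) (m : ℕ) : ℝ := bif s then -(m : ℝ) else m

lemma abs_sv (s : Bool) (m : ℕ) : |sv s m| = m := by
  cases s <;> simp [sv]

lemma run_spec (a b B : ℕ) (x : ℕ → ℝ) (hx : ∀ k, x (k + 2) = a * x (k + 1) - b * x k)
    (n : ℕ) : ∀ (k : ℕ) (s0 : Bool) (m0 : ℕ) (s1 : Bool) (m1 acc : ℕ),
    sv s0 m0 = x k → sv s1 m1 = x (k + 1) →
    (run a b B n s0 m0 s1 m1 acc : ℝ) =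
      acc * B ^ n + ∑ j ∈ Finset.range n, |x (k + 2 + j)| * B ^ (n - 1 - j) := by
  induction n with
  | zero => intro k s0 m0 s1 m1 acc h0 h1; simp [run]
  | succ n ih =>
    intro k s0 m0 s1 m1 acc h0 h1
    have step : ∀ (s2 : Bool) (m2 : ℕ), sv s2 m2 = x (k + 2) →
        (run a b B n s1 m1 s2 m2 (acc * B + m2) : ℝ) =
        acc * B ^ (n + 1) + ∑ j ∈ Finset.range (n + 1), |x (k + 2 + j)| * B ^ (n + 1 - 1 - j) := by
      intro s2 m2 h2
      have h3 := ih (k + 1) s1 m1 s2 m2 (acc * B + m2) h1 (by rw [h2])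
      rw [h3, Finset.sum_range_succ']
      have h4 : (m2 : ℝ) = |x (k + 2)| := by rw [← h2, abs_sv]
      have h5 : ∑ j ∈ Finset.range n, |x (k + 1 + 2 + j)| * (B : ℝ) ^ (n - 1 - j) =
          ∑ j ∈ Finset.range n, |x (k + 2 + (j + 1))| * (B : ℝ) ^ (n + 1 - 1 - (j + 1)) := by
        refine Finset.sum_congr rfl fun j hj => ?_
        rw [show k + 1 + 2 + j = k + 2 + (j + 1) by ring,
          show n - 1 - j = n + 1 - 1 - (j + 1) by omega]
      rw [h5]
      push_cast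
      rw [h4]
      simp only [add_zero, Nat.add_sub_cancel, Nat.sub_zero]
      ring
    rw [run]
    simp only [forceNat_eq]
    have hx2 := hx k
    cases hs : (s0 == s1)
    · -- opposite signs
      have hne : s0 = !s1 := by
        cases s0 <;> cases s1 <;> simp_all
      simp only [cond_false]
      apply step
      rw [hx2, ← h1, ← h0, hne]
      cases s1 <;> simp [sv] <;> ring
    · have heq : s0 = s1 := by simpa using hs
      simp only [cond_true]
      cases hb : Nat.ble (b * m0) (a * m1)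
      · simp only [cond_false]
        have hle : a * m1 ≤ b * m0 := by
          by_contra hcon
          rw [Nat.ble_eq_true_of_le (by omega)] at hb
          exact absurd hb (by simp)
        apply step
        rw [hx2, ← h1, ← h0, heq]
        cases s1 <;> simp [sv, Nat.cast_sub hle]
        ring
      · simp only [cond_true]
        have hle : b * m0 ≤ a * m1 := Nat.le_of_ble_eq_true hb
        apply step
        rw [hx2, ← h1, ← h0, heq]
        cases s1 <;> simp [sv, Nat.cast_sub hle]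
        ring

/-- The natural number coefficient in `runV`. -/
def mc (F aG k : ℕ) : ℕ := 5 * k * k * (k * k - 1) * F + aG * k * (k * k - 1) * (k * k - 4)

lemma runV_spec (E R F aG : ℕ) (n : ℕ) : ∀ (k Rk V : ℕ),
    (runV E R F aG n k Rk V : ℝ) = V * E ^ n +
      ∑ j ∈ Finset.range n, (Rk : ℝ) * R ^ (j + 1) * mc F aG (k + j) * E ^ (n - 1 - j) := by
  induction n with
  | zero => intro k Rk V; simp [runV]
  | succ n ih =>
    intro k Rk V
    rw [runV]
    simp only [forceNat_eq]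
    rw [ih, Finset.sum_range_succ']
    have h5 : ∑ j ∈ Finset.range n, ((Rk * R : ℕ) : ℝ) * R ^ (j + 1) * mc F aG (k + 1 + j) *
        E ^ (n - 1 - j) = ∑ j ∈ Finset.range n, (Rk : ℝ) * R ^ (j + 1 + 1) *
        mc F aG (k + (j + 1)) * E ^ (n + 1 - 1 - (j + 1)) := by
      refine Finset.sum_congr rfl fun j hj => ?_
      rw [show k + 1 + j = k + (j + 1) by ring, show n - 1 - j = n + 1 - 1 - (j + 1) by omega]
      push_cast
      ring
    rw [h5]
    simp only [add_zero, Nat.add_sub_cancel, Nat.sub_zero, zero_add, pow_one]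
    have h6 : 5 * k * k * (k * k - 1) * F + aG * k * (k * k - 1) * (k * k - 4) = mc F aG k := rfl
    rw [h6]
    push_cast
    ring

lemma mc_eq (F G : ℕ) (γ : ℝ) (hF : 0 < F) (hγ : |γ| = G / F) (k : ℕ) (hk : 1 ≤ k) :
    (mc F G k : ℝ) = 15 * F * Mb γ k := by
  have hF' : (F : ℝ) ≠ 0 := by positivity
  unfold mc Mb
  rw [hγ]
  rcases Nat.lt_or_ge k 2 with h | h
  · have : k = 1 := by omega
    subst this
    norm_num
  · have h1 : 1 ≤ k * k := by nlinarith
    have h4 : 4 ≤ k * k := by nlinarith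
    push_cast [Nat.cast_sub h1, Nat.cast_sub h4]
    field_simp
    ring

/-- The real parameter of a cell. -/
noncomputable def Cell.gam (c : Cell) : ℝ := (bif c.neg then -(c.G : ℝ) else c.G) / c.F

lemma Cell.A_spec (c : Cell) (hE : 0 < c.E) (hF : 0 < c.F) (hK : 1 ≤ c.K) (U : ℕ) :
    (c.A U : ℝ) = ((c.E : ℝ) * c.F) ^ c.K *
      ∑ k ∈ Finset.range c.K, ((c.R : ℝ) / c.E) ^ (k + 1) * |W ((U : ℝ) / c.F) c.gam (k + 1)| := by
  have hE' : (c.E : ℝ) ≠ 0 := by positivity
  have hF' : (c.F : ℝ) ≠ 0 := by positivity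
  set B : ℝ := (c.E : ℝ) * c.F with hB
  have hB' : 0 < B := by positivity
  let x : ℕ → ℝ := fun k => B ^ k * (((c.R : ℝ) / c.E) ^ k * W ((U : ℝ) / c.F) c.gam k)
  have hx : ∀ k, x (k + 2) = ((2 * c.R * U : ℕ) : ℝ) * x (k + 1) -
      (((c.R * c.F) ^ 2 : ℕ) : ℝ) * x k := by
    intro k
    simp only [x, W, hB]
    push_cast
    have e1 : (c.R : ℝ) = c.E * ((c.R : ℝ) / c.E) := by field_simp
    have e2 : (U : ℝ) = c.F * ((U : ℝ) / c.F) := by field_simp
    set r : ℝ := (c.R : ℝ) / c.E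
    set v : ℝ := (U : ℝ) / c.F
    rw [e1, e2]
    ring
  have h0 : sv false 1 = x 0 := by simp [sv, x, W]
  obtain ⟨n, hn⟩ : ∃ n, c.K = n + 1 := ⟨c.K - 1, by omega⟩
  have key : ∀ (s1 : Bool) (m1 : ℕ), sv s1 m1 = x 1 →
      (run (2 * c.R * U) ((c.R * c.F) ^ 2) (c.E * c.F) (c.K - 1) false 1 s1 m1 m1 : ℝ) =
      B ^ c.K * ∑ k ∈ Finset.range c.K, ((c.R : ℝ) / c.E) ^ (k + 1) *
        |W ((U : ℝ) / c.F) c.gam (k + 1)| := by
    intro s1 m1 h1
    have h2 := run_spec (2 * c.R * U) ((c.R * c.F) ^ 2) (c.E * c.F) x hx (c.K - 1) 0 false 1 s1 m1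
      m1 h0 h1
    rw [h2, hn, Finset.mul_sum, Finset.sum_range_succ']
    have h3 : (m1 : ℝ) = |x 1| := by rw [← h1, abs_sv]
    rw [h3]
    have hxabs : ∀ k, |x k| = B ^ k * (((c.R : ℝ) / c.E) ^ k * |W ((U : ℝ) / c.F) c.gam k|) := by
      intro k
      simp only [x]
      rw [abs_mul, abs_mul, abs_of_nonneg (by positivity : (0 : ℝ) ≤ B ^ k),
        abs_of_nonneg (by positivity : (0 : ℝ) ≤ ((c.R : ℝ) / c.E) ^ k)]
    simp only [Nat.add_sub_cancel]
    rw [add_comm]
    congr 1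
    · refine Finset.sum_congr rfl fun j hj => ?_
      rw [Finset.mem_range] at hj
      rw [show 0 + 2 + j = j + 1 + 1 by ring, hxabs]
      have : ((c.E * c.F : ℕ) : ℝ) = B := by push_cast; rfl
      rw [this]
      have e1 : B ^ (n + 1) = B ^ (j + 1 + 1) * B ^ (n - 1 - j) := by
        rw [← pow_add]
        congr 1
        omega
      rw [e1]
      ring
    · rw [hxabs]
      have : ((c.E * c.F : ℕ) : ℝ) = B := by push_cast; rfl
      rw [this]
      simp only [zero_add, pow_one]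
      ring
  unfold Cell.A
  cases hneg : c.neg
  · simp only [cond_false]
    cases hb : Nat.ble c.G U
    · simp only [cond_false]
      have hle : U ≤ c.G := by
        by_contra hcon
        rw [Nat.ble_eq_true_of_le (by omega)] at hb
        exact absurd hb (by simp)
      apply key
      simp only [sv, x, W, Cell.gam, hneg, hB, cond_true, cond_false]
      push_cast [Nat.cast_sub hle]
      field_simp
      ring
    · simp only [cond_true]
      have hle : c.G ≤ U := Nat.le_of_ble_eq_true hb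
      apply key
      simp only [sv, x, W, Cell.gam, hneg, hB, cond_false]
      push_cast [Nat.cast_sub hle]
      field_simp
  · simp only [cond_true]
    apply key
    simp only [sv, x, W, Cell.gam, hneg, hB, cond_true, cond_false]
    push_cast
    field_simp
    ring

lemma Cell.abs_gam (c : Cell) : |c.gam| = c.G / c.F := by
  unfold Cell.gam
  rw [abs_div, Nat.abs_cast]
  congr 1
  cases c.neg <;> simp

/-- Correctness of the check. -/
theorem Cell.ok_spec (c : Cell) (h : c.ok = true) {u : ℝ} (h1 : (c.U1 : ℝ) / c.F ≤ u)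
    (h2 : u ≤ (c.U2 : ℝ) / c.F) :
    ((c.R : ℝ) / c.E < 1) ∧
    ∑' k : ℕ, ((c.R : ℝ) / c.E) ^ (k + 1) * |W u c.gam (k + 1)| < 1 := by
  unfold Cell.ok at h
  simp only [forceNat_eq, Bool.and_eq_true] at h
  obtain ⟨hK, hU12, hU2F, hA1, hA2⟩ := h
  replace hK := Nat.le_of_ble_eq_true hK
  replace hU12 := Nat.le_of_ble_eq_true hU12
  replace hU2F := Nat.le_of_ble_eq_true hU2F
  replace hA1 := Nat.le_of_ble_eq_true hA1
  replace hA2 := Nat.le_of_ble_eq_true hA2
  -- positivity of the parameters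
  have hpos : 0 < (c.E * c.F) ^ c.K * 120 * c.F ^ 3 * (c.E - c.R) ^ 2 :=
    lt_of_lt_of_le (Nat.succ_pos _) hA1
  have hD : 0 < c.E - c.R := by
    by_contra hcon
    have : c.E - c.R = 0 := by omega
    rw [this] at hpos
    simp at hpos
  have hF : 0 < c.F := by
    by_contra hcon
    have : c.F = 0 := by omega
    rw [this] at hpos
    simp at hpos
  have hRE : c.R < c.E := by omega
  have hE : 0 < c.E := by omega
  have hE' : (0 : ℝ) < c.E := by exact_mod_cast hE
  have hF' : (0 : ℝ) < c.F := by exact_mod_cast hF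
  have hRE' : (c.R : ℝ) < c.E := by exact_mod_cast hRE
  have hR' : (0 : ℝ) ≤ c.R := Nat.cast_nonneg _
  have hρ1 : (c.R : ℝ) / c.E < 1 := by rwa [div_lt_one hE']
  refine ⟨hρ1, ?_⟩
  set ρ : ℝ := (c.R : ℝ) / c.E with hρ
  have hρ0 : 0 ≤ ρ := by positivity
  have hD' : (0 : ℝ) < (c.E : ℝ) - c.R := by linarith
  -- the second derivative sum
  have hV : (runV c.E c.R c.F c.G c.K 1 1 0 : ℝ) = 15 * c.F * (c.E : ℝ) ^ c.K *
      ∑ k ∈ Finset.range c.K, ρ ^ (k + 1) * Mb c.gam (k + 1) := by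
    rw [runV_spec, Finset.mul_sum]
    simp only [Nat.cast_zero, zero_mul, zero_add, Nat.cast_one, one_mul]
    refine Finset.sum_congr rfl fun j hj => ?_
    rw [Finset.mem_range] at hj
    rw [mc_eq c.F c.G c.gam hF c.abs_gam (1 + j) (by omega), add_comm 1 j]
    have e1 : (c.E : ℝ) ^ c.K = (c.E : ℝ) ^ (j + 1) * (c.E : ℝ) ^ (c.K - 1 - j) := by
      rw [← pow_add]
      congr 1
      omega
    rw [e1, hρ, div_pow]
    field_simp
  have htail : tailB ρ c.gam c.K = (c.R : ℝ) ^ (c.K + 1) *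
      (c.F * (c.E - c.R) + c.G * ((c.K + 1) * (c.E - c.R) + c.R)) /
      (c.F * c.E ^ c.K * (c.E - c.R) ^ 2) := by
    unfold tailB
    rw [c.abs_gam, hρ]
    have h3 : (c.E : ℝ) - c.R ≠ 0 := hD'.ne'
    have h4 : 1 - (c.R : ℝ) / c.E = (c.E - c.R) / c.E := by field_simp
    rw [h4, div_pow]
    field_simp
    ring
  have key : ∀ U : ℕ, c.A U * 120 * c.F ^ 3 * (c.E - c.R) ^ 2 +
      (runV c.E c.R c.F c.G c.K 1 1 0 * c.F ^ c.K * (c.U2 - c.U1) ^ 2 * (c.E - c.R) ^ 2 +
      c.R ^ (c.K + 1) * c.F ^ c.K * 120 * c.F ^ 2 *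
        (c.F * (c.E - c.R) + c.G * ((c.K + 1) * (c.E - c.R) + c.R))) + 1 ≤
      (c.E * c.F) ^ c.K * 120 * c.F ^ 3 * (c.E - c.R) ^ 2 →
      ∑ k ∈ Finset.range c.K, ρ ^ (k + 1) * |W ((U : ℝ) / c.F) c.gam (k + 1)| +
      (∑ k ∈ Finset.range c.K, ρ ^ (k + 1) * Mb c.gam (k + 1)) *
        (((c.U2 : ℝ) / c.F - (c.U1 : ℝ) / c.F) ^ 2 / 8) + tailB ρ c.gam c.K < 1 := by
    intro U hU
    have hU' : ((c.A U * 120 * c.F ^ 3 * (c.E - c.R) ^ 2 +
      (runV c.E c.R c.F c.G c.K 1 1 0 * c.F ^ c.K * (c.U2 - c.U1) ^ 2 * (c.E - c.R) ^ 2 +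
      c.R ^ (c.K + 1) * c.F ^ c.K * 120 * c.F ^ 2 *
        (c.F * (c.E - c.R) + c.G * ((c.K + 1) * (c.E - c.R) + c.R))) : ℕ) : ℝ) <
      (((c.E * c.F) ^ c.K * 120 * c.F ^ 3 * (c.E - c.R) ^ 2 : ℕ) : ℝ) := by
      exact_mod_cast hU
    push_cast [Nat.cast_sub hRE.le, Nat.cast_sub hU12] at hU'
    rw [c.A_spec hE hF hK U, hV] at hU'
    rw [htail]
    set SA := ∑ k ∈ Finset.range c.K, ρ ^ (k + 1) * |W ((U : ℝ) / c.F) c.gam (k + 1)|
    set SM := ∑ k ∈ Finset.range c.K, ρ ^ (k + 1) * Mb c.gam (k + 1)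
    have hc : 0 < ((c.E : ℝ) * c.F) ^ c.K * 120 * c.F ^ 3 * (c.E - c.R) ^ 2 := by positivity
    rw [← mul_lt_mul_iff_right₀ hc, mul_one]
    refine lt_of_eq_of_lt ?_ hU'
    field_simp
    ring
  have hb : (c.U2 : ℝ) / c.F ≤ 1 := by
    rw [div_le_one hF']
    exact_mod_cast hU2F
  have ha : (-1 : ℝ) ≤ (c.U1 : ℝ) / c.F := by
    have : (0 : ℝ) ≤ (c.U1 : ℝ) / c.F := by positivity
    linarith
  exact cell_real hρ0 hρ1 ha hb (key c.U1 hA1) (key c.U2 hA2) h1 h2

end Pool.Agent.Helper62.Mandel
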