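import Mathlib
import Pool.Agent.Helper62.Mandel.Check

set_option autoImplicit false

namespace Pool.Agent.Helper62.Mandel

open Set

/-- No series `1 + ∑ c_k z^k` with real `|c_k| ≤ 1` vanishes at a nonreal `q` with `|q| ≤ ρ` and
`cos (arg q) ∈ [a, b]`. -/
def Excl (ρ a b : ℝ) : Prop :=
  ∀ q : ℂ, q.im ≠ 0 → ‖q‖ ≤ ρ → a ≤ q.re / ‖q‖ → q.re / ‖q‖ ≤ b →
    ∀ c : ℕ → ℝ, c 0 = 1 → (∀ k, |c k| ≤ 1) → ¬ Vanish c q

lemma Excl.trans {ρ a b c : ℝ} (h1 : Excl ρ a b) (h2 : Excl ρ b c) : Excl ρ a c := by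
  intro q hq hqρ ha hc
  rcases le_total (q.re / ‖q‖) b with h | h
  · exact h1 q hq hqρ ha h
  · exact h2 q hq hqρ h hc

lemma Excl.mono {ρ ρ' a b : ℝ} (h : Excl ρ a b) (hρ : ρ' ≤ ρ) : Excl ρ' a b :=
  fun q hq hqρ => h q hq (hqρ.trans hρ)

lemma Cell.excl (c : Cell) (h : c.ok = true) {ρ : ℝ} (hρ : ρ ≤ (c.R : ℝ) / c.E) :
    Excl ρ ((c.U1 : ℝ) / c.F) ((c.U2 : ℝ) / c.F) := by
  intro q hq hqρ ha hb s h0 hs hv
  obtain ⟨h1, h2⟩ := c.ok_spec h ha hb
  exact exclusion hq (hqρ.trans hρ) h1 h0 hs hv h2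

/-- Adjacent cells share an endpoint, and all moduli are at least `Rt/Et`. -/
def linked (Rt Et : ℕ) : List Cell → Bool
  | [] => true
  | [c] => Nat.ble (Rt * c.E) (c.R * Et) && Nat.ble 1 c.F && Nat.ble 1 c.E
  | c :: c' :: L => Nat.ble (Rt * c.E) (c.R * Et) && Nat.ble 1 c.F && Nat.ble 1 c.E &&
      Nat.beq (c.U2 * c'.F) (c'.U1 * c.F) && linked Rt Et (c' :: L)

theorem chain {Rt Et : ℕ} (hEt : 0 < Et) : ∀ (L : List Cell) (c : Cell),
    (∀ x ∈ c :: L, x.ok = true) → linked Rt Et (c :: L) = true →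
    Excl ((Rt : ℝ) / Et) ((c.U1 : ℝ) / c.F)
      ((((c :: L).getLast (List.cons_ne_nil _ _)).U2 : ℝ) /
        ((c :: L).getLast (List.cons_ne_nil _ _)).F) := by
  have hmod : ∀ c : Cell, Nat.ble (Rt * c.E) (c.R * Et) = true → Nat.ble 1 c.E = true →
      ((Rt : ℝ) / Et) ≤ (c.R : ℝ) / c.E := by
    intro c h1 h2
    have h1' := Nat.le_of_ble_eq_true h1
    have h2' := Nat.le_of_ble_eq_true h2
    have hE : (0 : ℝ) < c.E := by exact_mod_cast h2'
    have hEt' : (0 : ℝ) < Et := by exact_mod_cast hEt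
    rw [div_le_div_iff₀ hEt' hE]
    exact_mod_cast h1'
  intro L
  induction L with
  | nil =>
    intro c hok hl
    simp only [linked, Bool.and_eq_true] at hl
    simp only [List.getLast_singleton]
    exact c.excl (hok c (by simp)) (hmod c hl.1.1 hl.2)
  | cons c' L ih =>
    intro c hok hl
    simp only [linked, Bool.and_eq_true] at hl
    obtain ⟨⟨⟨⟨h1, h2⟩, h3⟩, h4⟩, h5⟩ := hl
    have h6 := c.excl (hok c (by simp)) (hmod c h1 h3)
    have h7 := ih c' (fun x hx => hok x (List.mem_cons_of_mem _ hx)) h5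
    have h8 : (c.U2 : ℝ) / c.F = (c'.U1 : ℝ) / c'.F := by
      have hF : (0 : ℝ) < c.F := by exact_mod_cast Nat.le_of_ble_eq_true h2
      have hF' : (0 : ℝ) < c'.F := by
        have : 1 ≤ c'.F := by
          cases L with
          | nil =>
            simp only [linked, Bool.and_eq_true] at h5
            exact Nat.le_of_ble_eq_true h5.1.2
          | cons c'' L =>
            simp only [linked, Bool.and_eq_true] at h5
            exact Nat.le_of_ble_eq_true h5.1.1.1.2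
        exact_mod_cast this
      rw [div_eq_div_iff hF.ne' hF'.ne']
      exact_mod_cast Nat.eq_of_beq_eq_true h4
    rw [h8] at h6
    rw [List.getLast_cons (List.cons_ne_nil _ _)]
    exact h6.trans h7

end Pool.Agent.Helper62.Mandel
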