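import Mathlib
import Pool.Agent.Helper62.Mandel.Chain

/-! Certificate data for the exclusion of all directions `u = |cos (arg q)|` outside a tiny
interval (for the modulus `rup`) and of all directions for the modulus `rlow`. -/

set_option autoImplicit false

namespace Pool.Agent.Helper62.Mandel

/-- Numerator of the upper modulus (denominator `10^30`). -/
def rupN : ℕ := 635606390391455492692046961204
/-- Numerator of the lower modulus (denominator `10^30`). -/
def rlowN : ℕ := 635606390391455492692046961203
/-- Common denominator. -/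
def den : ℕ := 1000000000000000000000000000000
/-- Left end of the critical interval (times `10^30`). -/
def uaN : ℕ := 595930248253011957307877128325
/-- Right end of the critical interval (times `10^30`). -/
def ubN : ℕ := 595930248253011957307877128526

def lc0 : Cell := ⟨636, 1000, 1000, 0, 59, false, 59, 5⟩
theorem lc0_ok : lc0.ok = true := by decide +kernel
def lc1 : Cell := ⟨636, 1000, 1000, 59, 109, false, 109, 6⟩
theorem lc1_ok : lc1.ok = true := by decide +kernel
def lc2 : Cell := ⟨636, 1000, 1000, 109, 159, false, 159, 8⟩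
theorem lc2_ok : lc2.ok = true := by decide +kernel
def lc3 : Cell := ⟨636, 1000, 1000, 159, 201, false, 192, 8⟩
theorem lc3_ok : lc3.ok = true := by decide +kernel
def lc4 : Cell := ⟨636, 1000, 1000, 201, 243, false, 228, 9⟩
theorem lc4_ok : lc4.ok = true := by decide +kernel
def lc5 : Cell := ⟨636, 1000, 1000, 243, 279, false, 262, 10⟩
theorem lc5_ok : lc5.ok = true := by decide +kernel
def lc6 : Cell := ⟨636, 1000, 1000, 279, 315, false, 293, 10⟩
theorem lc6_ok : lc6.ok = true := by decide +kernel
def lc7 : Cell := ⟨636, 1000, 1000, 315, 348, false, 340, 11⟩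
theorem lc7_ok : lc7.ok = true := by decide +kernel
def lc8 : Cell := ⟨636, 1000, 1000, 348, 377, false, 361, 11⟩
theorem lc8_ok : lc8.ok = true := by decide +kernel
def lc9 : Cell := ⟨636, 1000, 1000, 377, 408, false, 389, 13⟩
theorem lc9_ok : lc9.ok = true := by decide +kernel
def lc10 : Cell := ⟨636, 1000, 1000, 408, 439, false, 326, 13⟩
theorem lc10_ok : lc10.ok = true := by decide +kernel
def lc11 : Cell := ⟨636, 1000, 1000, 439, 469, false, 309, 12⟩
theorem lc11_ok : lc11.ok = true := by decide +kernel
def lc12 : Cell := ⟨636, 1000, 1000, 469, 498, false, 447, 13⟩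
theorem lc12_ok : lc12.ok = true := by decide +kernel
def lc13 : Cell := ⟨636, 1000, 1000, 498, 520, false, 520, 13⟩
theorem lc13_ok : lc13.ok = true := by decide +kernel
def lc14 : Cell := ⟨636, 1000, 1000, 520, 540, false, 540, 17⟩
theorem lc14_ok : lc14.ok = true := by decide +kernel
def lc15 : Cell := ⟨636, 1000, 10000, 5400, 5552, false, 5552, 21⟩
theorem lc15_ok : lc15.ok = true := by decide +kernel
def lc16 : Cell := ⟨6357, 10000, 10000, 5552, 5662, false, 5662, 21⟩
theorem lc16_ok : lc16.ok = true := by decide +kernel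
def lc17 : Cell := ⟨636, 1000, 10000, 5662, 5730, false, 5725, 25⟩
theorem lc17_ok : lc17.ok = true := by decide +kernel
def lc18 : Cell := ⟨6357, 10000, 10000, 5730, 5775, false, 4345, 25⟩
theorem lc18_ok : lc18.ok = true := by decide +kernel
def lc19 : Cell := ⟨63561, 100000, 10000, 5775, 5805, false, 4766, 28⟩
theorem lc19_ok : lc19.ok = true := by decide +kernel
def lc20 : Cell := ⟨63561, 100000, 10000, 5805, 5826, false, 2947, 27⟩
theorem lc20_ok : lc20.ok = true := by decide +kernel
def lc21 : Cell := ⟨63561, 100000, 10000, 5826, 5856, false, 2283, 25⟩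
theorem lc21_ok : lc21.ok = true := by decide +kernel
def lc22 : Cell := ⟨63561, 100000, 10000, 5856, 5894, false, 2613, 27⟩
theorem lc22_ok : lc22.ok = true := by decide +kernel
def lc23 : Cell := ⟨6357, 10000, 10000, 5894, 5922, false, 2933, 33⟩
theorem lc23_ok : lc23.ok = true := by decide +kernel
def lc24 : Cell := ⟨63561, 100000, 10000, 5922, 5944, false, 3162, 26⟩
theorem lc24_ok : lc24.ok = true := by decide +kernel
def lc25 : Cell := ⟨63561, 100000, 10000, 5944, 5955, false, 3289, 28⟩
theorem lc25_ok : lc25.ok = true := by decide +kernel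
def lc26 : Cell := ⟨63561, 100000, 100000, 59550, 59586, false, 33352, 37⟩
theorem lc26_ok : lc26.ok = true := by decide +kernel
def lc27 : Cell := ⟨635607, 1000000, 1000000, 595860, 595919, false, 334589, 37⟩
theorem lc27_ok : lc27.ok = true := by decide +kernel
def lc28 : Cell := ⟨6356064, 10000000, 10000000, 5959190, 5959285, false, 3347623, 39⟩
theorem lc28_ok : lc28.ok = true := by decide +kernel
def lc29 : Cell := ⟨6356064, 10000000, 100000000, 59592850, 59592998, false, 33478982, 45⟩
theorem lc29_ok : lc29.ok = true := by decide +kernel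
def lc30 : Cell := ⟨635606391, 1000000000, 100000000, 59592998, 59593020, false, 29647919, 50⟩
theorem lc30_ok : lc30.ok = true := by decide +kernel
def lc31 : Cell := ⟨6356063904, 10000000000, 1000000000, 595930200, 595930241, false, 296480809, 55⟩
theorem lc31_ok : lc31.ok = true := by decide +kernel
def lc32 : Cell := ⟨6356063904, 10000000000, 10000000000, 5959302410, 5959302471, false, 2964810499, 60⟩
theorem lc32_ok : lc32.ok = true := by decide +kernel
def lc33 : Cell := ⟨6356063904, 10000000000, 100000000000, 59593024710, 59593024808, false, 29648108862, 65⟩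
theorem lc33_ok : lc33.ok = true := by decide +kernel
def lc34 : Cell := ⟨635606390392, 1000000000000, 1000000000000, 595930248080, 595930248227, false, 296481094427, 70⟩
theorem lc34_ok : lc34.ok = true := by decide +kernel
def lc35 : Cell := ⟨6356063903915, 10000000000000, 1000000000000, 595930248227, 595930248249, false, 296481095296, 70⟩
theorem lc35_ok : lc35.ok = true := by decide +kernel
def lc36 : Cell := ⟨63560639039146, 100000000000000, 10000000000000, 5959302482490, 5959302482524, false, 2964810954306, 75⟩
theorem lc36_ok : lc36.ok = true := by decide +kernel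
def lc37 : Cell := ⟨635606390391456, 1000000000000000, 100000000000000, 59593024825240, 59593024825292, false, 25931948093652, 80⟩
theorem lc37_ok : lc37.ok = true := by decide +kernel
def lc38 : Cell := ⟨6356063903914555, 10000000000000000, 1000000000000000, 595930248252920, 595930248252998, false, 259319480941844, 85⟩
theorem lc38_ok : lc38.ok = true := by decide +kernel
def lc39 : Cell := ⟨6356063903914555, 10000000000000000, 10000000000000000, 5959302482529980, 5959302482530098, false, 2593194809426481, 90⟩
theorem lc39_ok : lc39.ok = true := by decide +kernel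
def lc40 : Cell := ⟨6356063903914555, 10000000000000000, 100000000000000000, 59593024825300980, 59593024825301163, false, 25931948094277284, 100⟩
theorem lc40_ok : lc40.ok = true := by decide +kernel
def lc41 : Cell := ⟨635606390391455493, 1000000000000000000, 100000000000000000, 59593024825301163, 59593024825301190, false, 25931948094279153, 100⟩
theorem lc41_ok : lc41.ok = true := by decide +kernel
def lc42 : Cell := ⟨6356063903914554927, 10000000000000000000, 1000000000000000000, 595930248253011900, 595930248253011948, false, 259319480942794496, 100⟩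
theorem lc42_ok : lc42.ok = true := by decide +kernel
def lc43 : Cell := ⟨6356063903914554927, 10000000000000000000, 10000000000000000000, 5959302482530119480, 5959302482530119559, false, 2593194809427961320, 105⟩
theorem lc43_ok : lc43.ok = true := by decide +kernel
def lc44 : Cell := ⟨635606390391455492693, 1000000000000000000000, 100000000000000000000, 59593024825301195590, 59593024825301195709, false, 25931948094279613195, 110⟩
theorem lc44_ok : lc44.ok = true := by decide +kernel
def lc45 : Cell := ⟨6356063903914554926921, 10000000000000000000000, 1000000000000000000000, 595930248253011957090, 595930248253011957275, false, 259319480942796131954, 115⟩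
theorem lc45_ok : lc45.ok = true := by decide +kernel
def lc46 : Cell := ⟨6356063903914554926921, 10000000000000000000000, 1000000000000000000000, 595930248253011957275, 595930248253011957302, false, 259319480942796131954, 120⟩
theorem lc46_ok : lc46.ok = true := by decide +kernel
def lc47 : Cell := ⟨63560639039145549269205, 100000000000000000000000, 10000000000000000000000, 5959302482530119573020, 5959302482530119573069, false, 2593194809427961319543, 125⟩
theorem lc47_ok : lc47.ok = true := by decide +kernel
def lc48 : Cell := ⟨63560639039145549269205, 100000000000000000000000, 100000000000000000000000, 59593024825301195730690, 59593024825301195730773, false, 25931948094279613195434, 130⟩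
theorem lc48_ok : lc48.ok = true := by decide +kernel
def lc49 : Cell := ⟨635606390391455492692047, 1000000000000000000000000, 1000000000000000000000000, 595930248253011957307730, 595930248253011957307855, false, 259319480942796131954335, 130⟩
theorem lc49_ok : lc49.ok = true := by decide +kernel
def lc50 : Cell := ⟨635606390391455492692047, 1000000000000000000000000, 10000000000000000000000000, 5959302482530119573078550, 5959302482530119573078738, false, 2593194809427961319543353, 135⟩
theorem lc50_ok : lc50.ok = true := by decide +kernel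
def lc51 : Cell := ⟨63560639039145549269204697, 100000000000000000000000000, 10000000000000000000000000, 5959302482530119573078738, 5959302482530119573078766, false, 2593194809427961319543353, 145⟩
theorem lc51_ok : lc51.ok = true := by decide +kernel
def lc52 : Cell := ⟨635606390391455492692046962, 1000000000000000000000000000, 100000000000000000000000000, 59593024825301195730787660, 59593024825301195730787704, false, 25931948094279613195433535, 145⟩
theorem lc52_ok : lc52.ok = true := by decide +kernel
def lc53 : Cell := ⟨6356063903914554926920469613, 10000000000000000000000000000, 1000000000000000000000000000, 595930248253011957307877040, 595930248253011957307877115, false, 259319480942796131954335348, 150⟩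
theorem lc53_ok : lc53.ok = true := by decide +kernel
def lc54 : Cell := ⟨63560639039145549269204696121, 100000000000000000000000000000, 10000000000000000000000000000, 5959302482530119573078771150, 5959302482530119573078771263, false, 2593194809427961319543353477, 150⟩
theorem lc54_ok : lc54.ok = true := by decide +kernel
def lc55 : Cell := ⟨63560639039145549269204696121, 100000000000000000000000000000, 100000000000000000000000000000, 59593024825301195730787712630, 59593024825301195730787712802, false, 25931948094279613195433534772, 160⟩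
theorem lc55_ok : lc55.ok = true := by decide +kernel
def lc56 : Cell := ⟨635606390391455492692046961204, 1000000000000000000000000000000, 1000000000000000000000000000000, 595930248253011957307877128020, 595930248253011957307877128325, false, 259319480942796131954335347723, 160⟩
theorem lc56_ok : lc56.ok = true := by decide +kernel
def lcTail : List Cell := [lc1, lc2, lc3, lc4, lc5, lc6, lc7, lc8, lc9, lc10, lc11, lc12, lc13, lc14, lc15, lc16, lc17, lc18, lc19, lc20, lc21, lc22, lc23, lc24, lc25, lc26, lc27, lc28, lc29, lc30, lc31, lc32, lc33, lc34, lc35, lc36, lc37, lc38, lc39, lc40, lc41, lc42, lc43, lc44, lc45, lc46, lc47, lc48, lc49, lc50, lc51, lc52, lc53, lc54, lc55, lc56]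
theorem lc_all : ∀ x ∈ lc0 :: lcTail, x.ok = true := (List.forall_mem_cons.mpr ⟨lc0_ok, (List.forall_mem_cons.mpr ⟨lc1_ok, (List.forall_mem_cons.mpr ⟨lc2_ok, (List.forall_mem_cons.mpr ⟨lc3_ok, (List.forall_mem_cons.mpr ⟨lc4_ok, (List.forall_mem_cons.mpr ⟨lc5_ok, (List.forall_mem_cons.mpr ⟨lc6_ok, (List.forall_mem_cons.mpr ⟨lc7_ok, (List.forall_mem_cons.mpr ⟨lc8_ok, (List.forall_mem_cons.mpr ⟨lc9_ok, (List.forall_mem_cons.mpr ⟨lc10_ok, (List.forall_mem_cons.mpr ⟨lc11_ok, (List.forall_mem_cons.mpr ⟨lc12_ok, (List.forall_mem_cons.mpr ⟨lc13_ok, (List.forall_mem_cons.mpr ⟨lc14_ok, (List.forall_mem_cons.mpr ⟨lc15_ok, (List.forall_mem_cons.mpr ⟨lc16_ok, (List.forall_mem_cons.mpr ⟨lc17_ok, (List.forall_mem_cons.mpr ⟨lc18_ok, (List.forall_mem_cons.mpr ⟨lc19_ok, (List.forall_mem_cons.mpr ⟨lc20_ok, (List.forall_mem_cons.mpr ⟨lc21_ok, (List.forall_mem_cons.mpr ⟨lc22_ok, (List.forall_mem_cons.mpr ⟨lc23_ok, (List.forall_mem_cons.mpr ⟨lc24_ok, (List.forall_mem_cons.mpr ⟨lc25_ok, (List.forall_mem_cons.mpr ⟨lc26_ok, (List.forall_mem_cons.mpr ⟨lc27_ok, (List.forall_mem_cons.mpr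 ⟨lc28_ok, (List.forall_mem_cons.mpr ⟨lc29_ok, (List.forall_mem_cons.mpr ⟨lc30_ok, (List.forall_mem_cons.mpr ⟨lc31_ok, (List.forall_mem_cons.mpr ⟨lc32_ok, (List.forall_mem_cons.mpr ⟨lc33_ok, (List.forall_mem_cons.mpr ⟨lc34_ok, (List.forall_mem_cons.mpr ⟨lc35_ok, (List.forall_mem_cons.mpr ⟨lc36_ok, (List.forall_mem_cons.mpr ⟨lc37_ok, (List.forall_mem_cons.mpr ⟨lc38_ok, (List.forall_mem_cons.mpr ⟨lc39_ok, (List.forall_mem_cons.mpr ⟨lc40_ok, (List.forall_mem_cons.mpr ⟨lc41_ok, (List.forall_mem_cons.mpr ⟨lc42_ok, (List.forall_mem_cons.mpr ⟨lc43_ok, (List.forall_mem_cons.mpr ⟨lc44_ok, (List.forall_mem_cons.mpr ⟨lc45_ok, (List.forall_mem_cons.mpr ⟨lc46_ok, (List.forall_mem_cons.mpr ⟨lc47_ok, (List.forall_mem_cons.mpr ⟨lc48_ok, (List.forall_mem_cons.mpr ⟨lc49_ok, (List.forall_mem_cons.mpr ⟨lc50_ok, (List.forall_mem_cons.mpr ⟨lc51_ok, (List.forall_mem_cons.mpr ⟨lc52_ok, (List.forall_mem_cons.mpr ⟨lc53_ok, (List.forall_mem_cons.mpr ⟨lc54_ok, (List.forall_mem_cons.mpr ⟨lc55_ok, (List.forall_mem_cons.mpr ⟨lc56_ok, (fun _ h => absurd h List.not_mem_nil)⟩)⟩)⟩)⟩)⟩)⟩)⟩)⟩)⟩)⟩)⟩)⟩)⟩)⟩)⟩)⟩)⟩)⟩)⟩)⟩)⟩)⟩)⟩)⟩)⟩)⟩)⟩)⟩)⟩)⟩)⟩)⟩)⟩)⟩)⟩)⟩)⟩)⟩)⟩)⟩)⟩)⟩)⟩)⟩)⟩)⟩)⟩)⟩)⟩)⟩)⟩)⟩)⟩)⟩)⟩)⟩)⟩)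
theorem lc_linked : linked rupN den (lc0 :: lcTail) = true := by decide +kernel
def rc0 : Cell := ⟨635606390391455492692046961204, 1000000000000000000000000000000, 1000000000000000000000000000000, 595930248253011957307877128526, 595930248253011957307877129600, false, 223137146544915848423498614245, 160⟩
theorem rc0_ok : rc0.ok = true := by decide +kernel
def rc1 : Cell := ⟨63560639039145549269204696121, 100000000000000000000000000000, 10000000000000000000000000000, 5959302482530119573078771296, 5959302482530119573078771321, false, 2231371465449158484234986142, 155⟩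
theorem rc1_ok : rc1.ok = true := by decide +kernel
def rc2 : Cell := ⟨63560639039145549269204696121, 100000000000000000000000000000, 10000000000000000000000000000, 5959302482530119573078771321, 5959302482530119573078771520, false, 2231371465449158484234986142, 155⟩
theorem rc2_ok : rc2.ok = true := by decide +kernel
def rc3 : Cell := ⟨6356063903914554926920469613, 10000000000000000000000000000, 1000000000000000000000000000, 595930248253011957307877152, 595930248253011957307877280, false, 223137146544915848423498614, 150⟩
theorem rc3_ok : rc3.ok = true := by decide +kernel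
def rc4 : Cell := ⟨635606390391455492692046962, 1000000000000000000000000000, 100000000000000000000000000, 59593024825301195730787728, 59593024825301195730787810, false, 22313714654491584842349861, 145⟩
theorem rc4_ok : rc4.ok = true := by decide +kernel
def rc5 : Cell := ⟨63560639039145549269204697, 100000000000000000000000000, 10000000000000000000000000, 5959302482530119573078781, 5959302482530119573078830, false, 2231371465449158484234986, 150⟩
theorem rc5_ok : rc5.ok = true := by decide +kernel
def rc6 : Cell := ⟨635606390391455492692047, 1000000000000000000000000, 1000000000000000000000000, 595930248253011957307883, 595930248253011957307911, false, 223137146544915848423499, 140⟩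
theorem rc6_ok : rc6.ok = true := by decide +kernel
def rc7 : Cell := ⟨635606390391455492692047, 1000000000000000000000000, 1000000000000000000000000, 595930248253011957307911, 595930248253011957308100, false, 223137146544915848423499, 135⟩
theorem rc7_ok : rc7.ok = true := by decide +kernel
def rc8 : Cell := ⟨635606390391455492692047, 1000000000000000000000000, 10000000000000000000000, 5959302482530119573081, 5959302482530119573093, false, 2231371465449158484235, 130⟩
theorem rc8_ok : rc8.ok = true := by decide +kernel
def rc9 : Cell := ⟨63560639039145549269205, 100000000000000000000000, 10000000000000000000000, 5959302482530119573093, 5959302482530119573170, false, 2231371465449158484235, 125⟩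
theorem rc9_ok : rc9.ok = true := by decide +kernel
def rc10 : Cell := ⟨6356063903914554926921, 10000000000000000000000, 1000000000000000000000, 595930248253011957317, 595930248253011957340, false, 223137146544915848423, 120⟩
theorem rc10_ok : rc10.ok = true := by decide +kernel
def rc11 : Cell := ⟨6356063903914554926921, 10000000000000000000000, 100000000000000000000, 59593024825301195734, 59593024825301195752, false, 22313714654491573824, 115⟩
theorem rc11_ok : rc11.ok = true := by decide +kernel
def rc12 : Cell := ⟨635606390391455492693, 1000000000000000000000, 100000000000000000000, 59593024825301195752, 59593024825301195870, false, 22313714654491535932, 115⟩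
theorem rc12_ok : rc12.ok = true := by decide +kernel
def rc13 : Cell := ⟨6356063903914554927, 10000000000000000000, 10000000000000000000, 5959302482530119587, 5959302482530119620, false, 2231371465449150880, 110⟩
theorem rc13_ok : rc13.ok = true := by decide +kernel
def rc14 : Cell := ⟨6356063903914554927, 10000000000000000000, 1000000000000000000, 595930248253011962, 595930248253011987, false, 207296466879675717, 105⟩
theorem rc14_ok : rc14.ok = true := by decide +kernel
def rc15 : Cell := ⟨635606390391455493, 1000000000000000000, 1000000000000000000, 595930248253011987, 595930248253012150, false, 207296466879676944, 100⟩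
theorem rc15_ok : rc15.ok = true := by decide +kernel
def rc16 : Cell := ⟨635606390391455493, 1000000000000000000, 100000000000000000, 59593024825301215, 59593024825301320, false, 20729646687968124, 95⟩
theorem rc16_ok : rc16.ok = true := by decide +kernel
def rc17 : Cell := ⟨6356063903914555, 10000000000000000, 10000000000000000, 5959302482530132, 5959302482530200, false, 2072964668797081, 90⟩
theorem rc17_ok : rc17.ok = true := by decide +kernel
def rc18 : Cell := ⟨6356063903914555, 10000000000000000, 100000000000000, 59593024825302, 59593024825306, false, 20729646687989, 85⟩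
theorem rc18_ok : rc18.ok = true := by decide +kernel
def rc19 : Cell := ⟨635606390391456, 1000000000000000, 100000000000000, 59593024825306, 59593024825330, false, 20729646688095, 85⟩
theorem rc19_ok : rc19.ok = true := by decide +kernel
def rc20 : Cell := ⟨63560639039146, 100000000000000, 10000000000000, 5959302482533, 5959302482549, false, 2072964668873, 80⟩
theorem rc20_ok : rc20.ok = true := by decide +kernel
def rc21 : Cell := ⟨6356063903915, 10000000000000, 10000000000000, 5959302482549, 5959302482650, false, 2072964669297, 85⟩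
theorem rc21_ok : rc21.ok = true := by decide +kernel
def rc22 : Cell := ⟨6356063903915, 10000000000000, 1000000000000, 595930248265, 595930248330, false, 207296467197, 70⟩
theorem rc22_ok : rc22.ok = true := by decide +kernel
def rc23 : Cell := ⟨635606390392, 1000000000000, 100000000000, 59593024833, 59593024870, false, 20729646892, 65⟩
theorem rc23_ok : rc23.ok = true := by decide +kernel
def rc24 : Cell := ⟨6356063904, 10000000000, 10000000000, 5959302487, 5959302511, false, 2072964787, 65⟩
theorem rc24_ok : rc24.ok = true := by decide +kernel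
def rc25 : Cell := ⟨6356063904, 10000000000, 10000000000, 5959302511, 5959302670, false, 2072965423, 60⟩
theorem rc25_ok : rc25.ok = true := by decide +kernel
def rc26 : Cell := ⟨6356063904, 10000000000, 1000000000, 595930267, 595930370, false, 207296963, 55⟩
theorem rc26_ok : rc26.ok = true := by decide +kernel
def rc27 : Cell := ⟨635606391, 1000000000, 100000000, 59593037, 59593100, false, 20729969, 50⟩
theorem rc27_ok : rc27.ok = true := by decide +kernel
def rc28 : Cell := ⟨6356064, 10000000, 1000000, 595931, 595935, false, 207316, 45⟩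
theorem rc28_ok : rc28.ok = true := by decide +kernel
def rc29 : Cell := ⟨6356064, 10000000, 1000000, 595935, 595958, false, 207422, 39⟩
theorem rc29_ok : rc29.ok = true := by decide +kernel
def rc30 : Cell := ⟨635607, 1000000, 1000000, 595958, 596110, false, 123084, 31⟩
theorem rc30_ok : rc30.ok = true := by decide +kernel
def rc31 : Cell := ⟨63561, 100000, 100000, 59611, 59710, false, 12540, 33⟩
theorem rc31_ok : rc31.ok = true := by decide +kernel
def rc32 : Cell := ⟨63561, 100000, 10000, 5971, 5998, false, 513, 21⟩
theorem rc32_ok : rc32.ok = true := by decide +kernel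
def rc33 : Cell := ⟨63561, 100000, 10000, 5998, 6059, false, 709, 20⟩
theorem rc33_ok : rc33.ok = true := by decide +kernel
def rc34 : Cell := ⟨636, 1000, 10000, 6059, 6138, false, 1047, 20⟩
theorem rc34_ok : rc34.ok = true := by decide +kernel
def rc35 : Cell := ⟨6357, 10000, 10000, 6138, 6245, false, 1521, 19⟩
theorem rc35_ok : rc35.ok = true := by decide +kernel
def rc36 : Cell := ⟨6357, 10000, 10000, 6245, 6351, false, 2118, 19⟩
theorem rc36_ok : rc36.ok = true := by decide +kernel
def rc37 : Cell := ⟨6357, 10000, 10000, 6351, 6447, false, 2669, 24⟩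
theorem rc37_ok : rc37.ok = true := by decide +kernel
def rc38 : Cell := ⟨6357, 10000, 10000, 6447, 6514, false, 3107, 23⟩
theorem rc38_ok : rc38.ok = true := by decide +kernel
def rc39 : Cell := ⟨63561, 100000, 10000, 6514, 6566, false, 1660, 22⟩
theorem rc39_ok : rc39.ok = true := by decide +kernel
def rc40 : Cell := ⟨63561, 100000, 10000, 6566, 6623, false, 1530, 24⟩
theorem rc40_ok : rc40.ok = true := by decide +kernel
def rc41 : Cell := ⟨63561, 100000, 10000, 6623, 6676, false, 1342, 21⟩
theorem rc41_ok : rc41.ok = true := by decide +kernel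
def rc42 : Cell := ⟨6357, 10000, 10000, 6676, 6758, true, 726, 17⟩
theorem rc42_ok : rc42.ok = true := by decide +kernel
def rc43 : Cell := ⟨636, 1000, 10000, 6758, 6890, true, 523, 14⟩
theorem rc43_ok : rc43.ok = true := by decide +kernel
def rc44 : Cell := ⟨6357, 10000, 10000, 6890, 7110, true, 147, 10⟩
theorem rc44_ok : rc44.ok = true := by decide +kernel
def rc45 : Cell := ⟨6357, 10000, 1000, 711, 739, false, 49, 10⟩
theorem rc45_ok : rc45.ok = true := by decide +kernel
def rc46 : Cell := ⟨636, 1000, 1000, 739, 767, false, 96, 11⟩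
theorem rc46_ok : rc46.ok = true := by decide +kernel
def rc47 : Cell := ⟨636, 1000, 1000, 767, 795, false, 140, 11⟩
theorem rc47_ok : rc47.ok = true := by decide +kernel
def rc48 : Cell := ⟨636, 1000, 1000, 795, 822, false, 190, 12⟩
theorem rc48_ok : rc48.ok = true := by decide +kernel
def rc49 : Cell := ⟨636, 1000, 1000, 822, 847, false, 238, 12⟩
theorem rc49_ok : rc49.ok = true := by decide +kernel
def rc50 : Cell := ⟨636, 1000, 1000, 847, 871, false, 275, 13⟩
theorem rc50_ok : rc50.ok = true := by decide +kernel
def rc51 : Cell := ⟨636, 1000, 10000, 8710, 8922, false, 3167, 14⟩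
theorem rc51_ok : rc51.ok = true := by decide +kernel
def rc52 : Cell := ⟨6357, 10000, 10000, 8922, 9111, false, 3484, 17⟩
theorem rc52_ok : rc52.ok = true := by decide +kernel
def rc53 : Cell := ⟨6357, 10000, 10000, 9111, 9300, false, 2563, 18⟩
theorem rc53_ok : rc53.ok = true := by decide +kernel
def rc54 : Cell := ⟨6357, 10000, 1000, 930, 952, false, 203, 15⟩
theorem rc54_ok : rc54.ok = true := by decide +kernel
def rc55 : Cell := ⟨636, 1000, 1000, 952, 974, false, 249, 14⟩
theorem rc55_ok : rc55.ok = true := by decide +kernel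
def rc56 : Cell := ⟨6357, 10000, 100000, 97400, 100000, false, 26857, 15⟩
theorem rc56_ok : rc56.ok = true := by decide +kernel
def rcTail : List Cell := [rc1, rc2, rc3, rc4, rc5, rc6, rc7, rc8, rc9, rc10, rc11, rc12, rc13, rc14, rc15, rc16, rc17, rc18, rc19, rc20, rc21, rc22, rc23, rc24, rc25, rc26, rc27, rc28, rc29, rc30, rc31, rc32, rc33, rc34, rc35, rc36, rc37, rc38, rc39, rc40, rc41, rc42, rc43, rc44, rc45, rc46, rc47, rc48, rc49, rc50, rc51, rc52, rc53, rc54, rc55, rc56]
theorem rc_all : ∀ x ∈ rc0 :: rcTail, x.ok = true := (List.forall_mem_cons.mpr ⟨rc0_ok, (List.forall_mem_cons.mpr ⟨rc1_ok, (List.forall_mem_cons.mpr ⟨rc2_ok, (List.forall_mem_cons.mpr ⟨rc3_ok, (List.forall_mem_cons.mpr ⟨rc4_ok, (List.forall_mem_cons.mpr ⟨rc5_ok, (List.forall_mem_cons.mpr ⟨rc6_ok, (List.forall_mem_cons.mpr ⟨rc7_ok, (List.forall_mem_cons.mpr ⟨rc8_ok, (List.forall_mem_cons.mpr ⟨rc9_ok, (List.forall_mem_cons.mpr ⟨rc10_ok, (List.forall_mem_cons.mpr ⟨rc11_ok, (List.forall_mem_cons.mpr ⟨rc12_ok, (List.forall_mem_cons.mpr ⟨rc13_ok, (List.forall_mem_cons.mpr ⟨rc14_ok,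 (List.forall_mem_cons.mpr ⟨rc15_ok, (List.forall_mem_cons.mpr ⟨rc16_ok, (List.forall_mem_cons.mpr ⟨rc17_ok, (List.forall_mem_cons.mpr ⟨rc18_ok, (List.forall_mem_cons.mpr ⟨rc19_ok, (List.forall_mem_cons.mpr ⟨rc20_ok, (List.forall_mem_cons.mpr ⟨rc21_ok, (List.forall_mem_cons.mpr ⟨rc22_ok, (List.forall_mem_cons.mpr ⟨rc23_ok, (List.forall_mem_cons.mpr ⟨rc24_ok, (List.forall_mem_cons.mpr ⟨rc25_ok, (List.forall_mem_cons.mpr ⟨rc26_ok, (List.forall_mem_cons.mpr ⟨rc27_ok, (List.forall_mem_cons.mpr ⟨rc28_ok, (List.forall_mem_cons.mpr ⟨rc29_ok, (List.forall_mem_cons.mpr ⟨rc30_ok, (List.forall_mem_cons.mpr ⟨rc31_ok, (List.forall_mem_cons.mpr ⟨rc32_ok, (List.forall_mem_cons.mpr ⟨rc33_ok, (List.forall_mem_cons.mpr ⟨rc34_ok, (List.forall_mem_cons.mpr ⟨rc35_ok, (List.forall_mem_cons.mpr ⟨rc36_ok, (List.forall_mem_cons.mpr ⟨rc37_ok, (List.forall_mem_cons.mpr ⟨rc38_ok, (List.forall_mem_cons.mpr ⟨rc39_ok, (List.forall_mem_cons.mpr ⟨rc40_ok, (List.forall_mem_cons.mpr ⟨rc41_ok, (List.forall_mem_cons.mpr ⟨rc42_ok, (List.forall_mem_cons.mpr ⟨rc43_ok, (List.forall_mem_cons.mpr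 ⟨rc44_ok, (List.forall_mem_cons.mpr ⟨rc45_ok, (List.forall_mem_cons.mpr ⟨rc46_ok, (List.forall_mem_cons.mpr ⟨rc47_ok, (List.forall_mem_cons.mpr ⟨rc48_ok, (List.forall_mem_cons.mpr ⟨rc49_ok, (List.forall_mem_cons.mpr ⟨rc50_ok, (List.forall_mem_cons.mpr ⟨rc51_ok, (List.forall_mem_cons.mpr ⟨rc52_ok, (List.forall_mem_cons.mpr ⟨rc53_ok, (List.forall_mem_cons.mpr ⟨rc54_ok, (List.forall_mem_cons.mpr ⟨rc55_ok, (List.forall_mem_cons.mpr ⟨rc56_ok, (fun _ h => absurd h List.not_mem_nil)⟩)⟩)⟩)⟩)⟩)⟩)⟩)⟩)⟩)⟩)⟩)⟩)⟩)⟩)⟩)⟩)⟩)⟩)⟩)⟩)⟩)⟩)⟩)⟩)⟩)⟩)⟩)⟩)⟩)⟩)⟩)⟩)⟩)⟩)⟩)⟩)⟩)⟩)⟩)⟩)⟩)⟩)⟩)⟩)⟩)⟩)⟩)⟩)⟩)⟩)⟩)⟩)⟩)⟩)⟩)⟩)⟩)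
theorem rc_linked : linked rupN den (rc0 :: rcTail) = true := by decide +kernel
def cc0 : Cell := ⟨635606390391455492692046961203, 1000000000000000000000000000000, 1000000000000000000000000000000, 595930248253011957307877128325, 595930248253011957307877128526, false, 236306498411595778337677100408, 165⟩
theorem cc0_ok : cc0.ok = true := by decide +kernel

lemma den_pos : 0 < den := by norm_num [den]

theorem excl_left : Excl ((rupN : ℝ) / den) 0 ((uaN : ℝ) / den) := by
  have h := chain den_pos lcTail lc0 lc_all lc_linked
  have e1 : ((lc0.U1 : ℝ) / lc0.F) = 0 := by norm_num [lc0]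
  have e2 : (((lc0 :: lcTail).getLast (List.cons_ne_nil _ _)).U2 : ℝ) /
      ((lc0 :: lcTail).getLast (List.cons_ne_nil _ _)).F = (uaN : ℝ) / den := by
    have : (lc0 :: lcTail).getLast (List.cons_ne_nil _ _) = lc56 := rfl
    rw [this]
    norm_num [lc56, uaN, den]
  rw [e1, e2] at h
  exact h

theorem excl_right : Excl ((rupN : ℝ) / den) ((ubN : ℝ) / den) 1 := by
  have h := chain den_pos rcTail rc0 rc_all rc_linked
  have e1 : ((rc0.U1 : ℝ) / rc0.F) = (ubN : ℝ) / den := by norm_num [rc0, ubN, den]
  have e2 : (((rc0 :: rcTail).getLast (List.cons_ne_nil _ _)).U2 : ℝ) /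
      ((rc0 :: rcTail).getLast (List.cons_ne_nil _ _)).F = 1 := by
    have : (rc0 :: rcTail).getLast (List.cons_ne_nil _ _) = rc56 := rfl
    rw [this]
    norm_num [rc56]
  rw [e1, e2] at h
  exact h

theorem excl_center : Excl ((rlowN : ℝ) / den) ((uaN : ℝ) / den) ((ubN : ℝ) / den) := by
  have h := cc0.excl cc0_ok (ρ := (rlowN : ℝ) / den) (by norm_num [cc0, rlowN, den])
  have e1 : ((cc0.U1 : ℝ) / cc0.F) = (uaN : ℝ) / den := by norm_num [cc0, uaN, den]
  have e2 : ((cc0.U2 : ℝ) / cc0.F) = (ubN : ℝ) / den := by norm_num [cc0, ubN, den]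
  rw [e1, e2] at h
  exact h

theorem excl_low : Excl ((rlowN : ℝ) / den) 0 1 := by
  have hle : (rlowN : ℝ) / den ≤ (rupN : ℝ) / den := by norm_num [rlowN, rupN, den]
  exact ((excl_left.mono hle).trans excl_center).trans (excl_right.mono hle)

end Pool.Agent.Helper62.Mandel
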