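import Mathlib
import Pool.Agent.Helper62.Mandel.Check

set_option autoImplicit false

namespace Pool.Agent.Helper62.Mandel

open Polynomial

/-- A polynomial with small value and large derivative at `x` has a root near `x`. -/
lemma exists_root_near (p : ℂ[X]) (x : ℂ) {ε : ℝ} (hε : 0 < ε)
    (hd : (derivative p).eval x ≠ 0)
    (h : (p.natDegree : ℝ) * ‖p.eval x‖ ≤ ε * ‖(derivative p).eval x‖) :
    ∃ z : ℂ, p.eval z = 0 ∧ ‖x - z‖ ≤ ε := by
  by_contra hcon
  push Not at hcon
  have hx : p.eval x ≠ 0 := by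
    intro h0
    have := hcon x h0
    simp at this
    linarith
  have hp : p ≠ 0 := by
    rintro rfl
    simp at hx
  have hsplit := (IsAlgClosed.splits p).eval_derivative_div_eval_of_ne_zero hx
  have hbound : ‖((p.roots.map fun z => 1 / (x - z)).sum)‖ ≤
      (p.roots.map fun z => ‖1 / (x - z)‖).sum := by
    have := Multiset.le_sum_of_subadditive (fun z : ℂ => ‖z‖) norm_zero.le norm_add_le
      (p.roots.map fun z => 1 / (x - z))
    simpa using this
  have hx' : 0 < ‖p.eval x‖ := norm_pos_iff.mpr hx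
  have hd' : 0 < ‖(derivative p).eval x‖ := norm_pos_iff.mpr hd
  have hne : p.roots ≠ 0 := by
    intro h0
    rw [h0] at hsplit
    simp at hsplit
    rcases hsplit with h1 | h1
    · exact hd h1
    · exact hx h1
  have hlt : (p.roots.map fun z => ‖1 / (x - z)‖).sum < (p.roots.map fun _ => 1 / ε).sum := by
    apply Multiset.sum_lt_sum_of_nonempty hne
    intro z hz
    have hz' : p.eval z = 0 := (mem_roots hp).mp hz
    rw [norm_div, norm_one]
    exact one_div_lt_one_div_of_lt hε (hcon z hz')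
  have hcard : (p.roots.map fun _ => 1 / ε).sum ≤ p.natDegree * (1 / ε) := by
    rw [Multiset.map_const', Multiset.sum_replicate, nsmul_eq_mul]
    apply mul_le_mul_of_nonneg_right _ (by positivity)
    exact_mod_cast p.card_roots'
  have h1 : ‖(derivative p).eval x‖ / ‖p.eval x‖ < p.natDegree * (1 / ε) := by
    rw [← norm_div, hsplit]
    exact hbound.trans_lt (hlt.trans_le hcard)
  rw [div_lt_iff₀ hx'] at h1
  have h2 : ε * ‖(derivative p).eval x‖ < ε * (p.natDegree * (1 / ε) * ‖p.eval x‖) :=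
    mul_lt_mul_of_pos_left h1 hε
  have h3 : ε * (p.natDegree * (1 / ε) * ‖p.eval x‖) = p.natDegree * ‖p.eval x‖ := by
    field_simp
  linarith

/-- The polynomial with the coefficients in the list (constant term first), `true` meaning `-1`
and `false` meaning `1`. -/
noncomputable def polyOf : List Bool → ℂ[X]
  | [] => 0
  | b :: l => C (bif b then -1 else 1) + X * polyOf l

/-- The coefficient sequence. -/
def coefOf : List Bool → ℕ → ℝ
  | [] => fun _ => 0
  | b :: l => fun k => match k with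
    | 0 => bif b then -1 else 1
    | k + 1 => coefOf l k

lemma coefOf_cases (l : List Bool) : ∀ k, coefOf l k = 0 ∨ coefOf l k = 1 ∨ coefOf l k = -1 := by
  induction l with
  | nil => intro k; left; rfl
  | cons b l ih =>
    intro k
    cases k with
    | zero => cases b <;> simp [coefOf]
    | succ k => exact ih k

lemma polyOf_vanish (l : List Bool) (z : ℂ) :
    HasSum (fun k => (coefOf l k : ℂ) * z ^ k) ((polyOf l).eval z) := by
  induction l with
  | nil => simp [coefOf, polyOf]
  | cons b l ih =>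
    have h := hasSum_cons (c := (bif b then -1 else 1)) ih
    convert h using 1
    · ext k
      cases k with
      | zero => cases b <;> simp [coefOf, consSeq]
      | succ k => rfl
    · simp [polyOf]

lemma natDegree_polyOf (l : List Bool) : (polyOf l).natDegree ≤ l.length := by
  induction l with
  | nil => simp [polyOf]
  | cons b l ih =>
    rw [polyOf]
    refine (natDegree_add_le _ _).trans ?_
    rw [natDegree_C]
    refine max_le (Nat.zero_le _) ((natDegree_mul_le).trans ?_)
    rw [natDegree_X, List.length_cons]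
    omega

/-- Force evaluation of an integer in the kernel. -/
def forceInt {α : Type} (x : ℤ) (f : ℤ → α) : α :=
  match x with
  | .ofNat n => forceNat n fun n => f (.ofNat n)
  | .negSucc n => forceNat n fun n => f (.negSucc n)

@[simp] lemma forceInt_eq {α : Type} (x : ℤ) (f : ℤ → α) : forceInt x f = f x := by
  cases x <;> simp [forceInt]

/-- Scaled Horner evaluation, at `(A + B i)/E`, of value and derivative of `polyOf l` (the list is
given in reversed order). The state is `(Vr, Vi, Dr, Di, Epow)`. -/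
def horner (A B E : ℤ) : List Bool → ℤ → ℤ → ℤ → ℤ → ℤ → (ℤ → ℤ → ℤ → ℤ → Bool) → Bool
  | [], Vr, Vi, Dr, Di, _, f => f Vr Vi Dr Di
  | b :: l, Vr, Vi, Dr, Di, Ep, f =>
    forceInt (Ep * E) fun Ep' =>
    forceInt ((bif b then -Ep' else Ep') + (A * Vr - B * Vi)) fun Vr' =>
    forceInt (A * Vi + B * Vr) fun Vi' =>
    forceInt (E * Vr + (A * Dr - B * Di)) fun Dr' =>
    forceInt (E * Vi + (A * Di + B * Dr)) fun Di' =>
    horner A B E l Vr' Vi' Dr' Di' Ep' f

/-- The specification of `horner`: the final state is the scaled value and derivative. -/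
lemma horner_spec (A B E : ℤ) (hE : E ≠ 0) (f : ℤ → ℤ → ℤ → ℤ → Bool) (q : ℂ)
    (hq : (E : ℂ) * q = A + B * Complex.I) : ∀ (r l : List Bool) (Vr Vi Dr Di Ep : ℤ),
    (Ep : ℂ) = E ^ l.length → (Vr : ℂ) + Vi * Complex.I = E ^ l.length * (polyOf l).eval q →
    (Dr : ℂ) + Di * Complex.I = E ^ l.length * (derivative (polyOf l)).eval q →
    horner A B E r Vr Vi Dr Di Ep f = true →
    ∃ Vr' Vi' Dr' Di' : ℤ, f Vr' Vi' Dr' Di' = true ∧
      (Vr' : ℂ) + Vi' * Complex.I = E ^ (r.reverse ++ l).length * (polyOf (r.reverse ++ l)).eval q ∧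
      (Dr' : ℂ) + Di' * Complex.I =
        E ^ (r.reverse ++ l).length * (derivative (polyOf (r.reverse ++ l))).eval q := by
  intro r
  induction r with
  | nil =>
    intro l Vr Vi Dr Di Ep hEp hV hD h
    exact ⟨Vr, Vi, Dr, Di, h, by simpa using hV, by simpa using hD⟩
  | cons b r ih =>
    intro l Vr Vi Dr Di Ep hEp hV hD h
    rw [horner] at h
    simp only [forceInt_eq] at h
    have e1 : (b :: r).reverse ++ l = r.reverse ++ (b :: l) := by simp
    rw [e1]
    refine ih (b :: l) _ _ _ _ _ ?_ ?_ ?_ h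
    · push_cast
      rw [hEp, List.length_cons, pow_succ]
    · rw [List.length_cons, polyOf]
      have e2 : (E : ℂ) ^ (l.length + 1) * (C (bif b then -1 else 1) + X * polyOf l).eval q =
          (bif b then -1 else 1) * (E ^ l.length * E) + (E * q) * (E ^ l.length *
            (polyOf l).eval q) := by
        cases b <;> simp <;> ring
      rw [e2, hq, ← hV, ← hEp]
      cases b
      · simp only [cond_false]
        push_cast
        linear_combination (-(B : ℂ) * Vi) * Complex.I_sq
      · simp only [cond_true]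
        push_cast
        linear_combination (-(B : ℂ) * Vi) * Complex.I_sq
    · rw [List.length_cons, polyOf]
      have e2 : (E : ℂ) ^ (l.length + 1) *
          (derivative (C (bif b then -1 else 1) + X * polyOf l)).eval q =
          E * (E ^ l.length * (polyOf l).eval q) + (E * q) * (E ^ l.length *
            (derivative (polyOf l)).eval q) := by
        simp
        ring
      rw [e2, hq, ← hV, ← hD]
      push_cast
      linear_combination (-(B : ℂ) * Di) * Complex.I_sq

/-- Final test: `n² |V|² · M² ≤ |D|²` and `D ≠ 0`, where `M = 1/ε`. -/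
def finalTest (n M : ℕ) (Vr Vi Dr Di : ℤ) : Bool :=
  Nat.ble ((n * M) ^ 2 * (Vr.natAbs ^ 2 + Vi.natAbs ^ 2)) (Dr.natAbs ^ 2 + Di.natAbs ^ 2) &&
    Nat.ble 1 (Dr.natAbs ^ 2 + Di.natAbs ^ 2)

theorem root_of_horner (A B E : ℤ) (hE : 0 < E) (l : List Bool) (M : ℕ) (hM : 0 < M)
    (h : horner A B E l.reverse 0 0 0 0 1 (finalTest l.length M) = true) :
    ∃ z : ℂ, (polyOf l).eval z = 0 ∧ ‖((A : ℂ) + B * Complex.I) / E - z‖ ≤ 1 / M := by
  set q : ℂ := ((A : ℂ) + B * Complex.I) / E with hqdef
  have hE' : (E : ℂ) ≠ 0 := by exact_mod_cast hE.ne'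
  have hq : (E : ℂ) * q = A + B * Complex.I := by
    rw [hqdef]
    field_simp
  obtain ⟨Vr, Vi, Dr, Di, hf, hV, hD⟩ := horner_spec A B E hE.ne' _ q hq l.reverse [] 0 0 0 0 1
    (by simp) (by simp [polyOf]) (by simp [polyOf]) h
  simp only [List.reverse_reverse, List.append_nil] at hV hD
  simp only [finalTest, Bool.and_eq_true] at hf
  have hf1 := Nat.le_of_ble_eq_true hf.1
  have hf2 := Nat.le_of_ble_eq_true hf.2
  have hnorm : ∀ a b : ℤ, ‖(a : ℂ) + b * Complex.I‖ ^ 2 = ((a.natAbs ^ 2 + b.natAbs ^ 2 : ℕ) : ℝ) := by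
    intro a b
    rw [← Complex.normSq_eq_norm_sq, Complex.normSq_apply]
    have ha : ((a.natAbs : ℕ) : ℝ) ^ 2 = (a : ℝ) ^ 2 := by
      rw [← Int.cast_natCast, Int.natCast_natAbs, Int.cast_abs, sq_abs]
    have hb : ((b.natAbs : ℕ) : ℝ) ^ 2 = (b : ℝ) ^ 2 := by
      rw [← Int.cast_natCast, Int.natCast_natAbs, Int.cast_abs, sq_abs]
    push_cast
    rw [ha, hb]
    simp
    ring
  have hEn : 0 < ‖(E : ℂ) ^ l.length‖ := norm_pos_iff.mpr (pow_ne_zero _ hE')
  have hM' : (0 : ℝ) < M := by exact_mod_cast hM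
  apply exists_root_near (polyOf l) q (by positivity)
  · intro h0
    rw [h0, mul_zero] at hD
    have := hnorm Dr Di
    rw [hD, norm_zero] at this
    have h3 : (0 : ℝ) = ((Dr.natAbs ^ 2 + Di.natAbs ^ 2 : ℕ) : ℝ) := by
      rw [← this]; norm_num
    have h4 : (Dr.natAbs ^ 2 + Di.natAbs ^ 2 : ℕ) = 0 := by exact_mod_cast h3.symm
    omega
  · have hVn := hnorm Vr Vi
    have hDn := hnorm Dr Di
    rw [hV, norm_mul] at hVn
    rw [hD, norm_mul] at hDn
    have h5 : ((l.length * M : ℕ) : ℝ) ^ 2 * ((Vr.natAbs ^ 2 + Vi.natAbs ^ 2 : ℕ) : ℝ) ≤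
        ((Dr.natAbs ^ 2 + Di.natAbs ^ 2 : ℕ) : ℝ) := by exact_mod_cast hf1
    rw [← hVn, ← hDn, ← mul_pow] at h5
    have h6 := le_of_sq_le_sq h5 (by positivity)
    have h7 : (l.length : ℝ) * M * ‖(polyOf l).eval q‖ ≤ ‖(derivative (polyOf l)).eval q‖ := by
      have : ‖(E : ℂ) ^ l.length‖ * ((l.length : ℝ) * M * ‖(polyOf l).eval q‖) ≤
          ‖(E : ℂ) ^ l.length‖ * ‖(derivative (polyOf l)).eval q‖ := by
        push_cast at h6
        linarith
      exact le_of_mul_le_mul_left this hEn
    have h8 : ((polyOf l).natDegree : ℝ) ≤ l.length := by exact_mod_cast natDegree_polyOf l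
    rw [one_div, inv_mul_eq_div, le_div_iff₀ hM']
    calc ((polyOf l).natDegree : ℝ) * ‖(polyOf l).eval q‖ * M
        ≤ (l.length : ℝ) * ‖(polyOf l).eval q‖ * M := by gcongr
      _ = (l.length : ℝ) * M * ‖(polyOf l).eval q‖ := by ring
      _ ≤ _ := h7

end Pool.Agent.Helper62.Mandel
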