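import Mathlib
import Pool.Agent.Helper62.Mandel.Root

/-! Certificate for the existence of a zero close to `q0`. -/

set_option autoImplicit false

namespace Pool.Agent.Helper62.Mandel

/-- Signs of the first 200 coefficients of the extremal series (`true` means `-1`). -/
def signs : List Bool :=
  [false, true, false, false, false, true, true, true, true, false,
   false, false, true, true, true, false, false, false, false, true,
   true, true, false, false, false, true, true, true, true, false,
   false, false, true, true, true, true, false, false, false, true,
   true, true, false, false, false, false, true, true, true, false,
   false, false, true, true, true, true, false, false, false, true,
   true, true, true, false, false, false, true, true, true, false,
   false, false, false, true, true, true, false, false, false, true,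
   true, true, true, false, false, false, true, true, true, false,
   false, false, false, true, true, true, false, false, false, false,
   true, true, true, false, false, false, true, true, true, true,
   false, false, false, true, true, true, false, false, false, false,
   true, true, true, false, false, false, false, true, true, true,
   false, false, false, true, true, true, true, false, false, false,
   true, true, true, false, false, false, false, true, true, true,
   false, false, false, false, true, true, true, false, false, false,
   true, true, true, true, false, false, false, true, true, true,
   false, false, false, false, true, true, true, false, false, false,
   true, true, true, true, false, false, false, true, true, true,
   true, false, false, false, true, true, true, false, false, false]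

/-- `10^40` times the real part of the approximate minimiser. -/
def q0re : ℤ := 3787770740171809057512705537849996244376
/-- `10^40` times the imaginary part of the approximate minimiser. -/
def q0im : ℤ := 5104149407153344515486688916434272410818

theorem horner_ok : horner q0re q0im (10 ^ 40) signs.reverse 0 0 0 0 1
    (finalTest signs.length (10 ^ 36)) = true := by
  decide +kernel

end Pool.Agent.Helper62.Mandel
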