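import Mathlib
import Pool.Agent.Helper62.Mandel.Cert
import Pool.Agent.Helper62.Mandel.RootCert

set_option autoImplicit false

namespace Pool.Agent.Helper62.Mandel

open Set Filter Topology

/-- `q` is a zero of a series `1 + ∑ c_k z^k` with real coefficients in `[-1, 1]`. -/
def RealClass (q : ℂ) : Prop := ∃ c : ℕ → ℝ, c 0 = 1 ∧ (∀ k, |c k| ≤ 1) ∧ Vanish c q

lemma realClass_of_mandelbrot {q : ℂ} (h : q ∈ mandelbrot) : RealClass q := by
  obtain ⟨-, a, h0, ha, hv⟩ := mem_mandelbrot_iff.mp h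
  refine ⟨a, h0, fun k => ?_, hv⟩
  rcases ha k with h | h | h <;> rw [h] <;> simp

lemma Vanish.neg {c : ℕ → ℝ} {q : ℂ} (h : Vanish c q) : Vanish (fun k => (-1) ^ k * c k) (-q) := by
  unfold Vanish at *
  convert h using 1
  ext k
  push_cast
  rw [neg_pow q k]
  have : ((-1 : ℂ) ^ k) * (-1) ^ k = 1 := by rw [← mul_pow]; simp
  linear_combination (c k : ℂ) * q ^ k * this

lemma RealClass.neg {q : ℂ} (h : RealClass q) : RealClass (-q) := by
  obtain ⟨c, h0, hc, hv⟩ := h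
  refine ⟨fun k => (-1) ^ k * c k, by simp [h0], fun k => ?_, hv.neg⟩
  rw [abs_mul, abs_pow, abs_neg, abs_one, one_pow, one_mul]
  exact hc k

/-- The lower modulus. -/
noncomputable def rlow : ℝ := (rlowN : ℝ) / den
/-- The upper modulus. -/
noncomputable def rup : ℝ := (rupN : ℝ) / den

lemma excl_abs {ρ a b : ℝ} (h : Excl ρ a b) {q : ℂ} (hq : q.im ≠ 0) (hR : RealClass q)
    (hρ : ‖q‖ ≤ ρ) (ha : a ≤ |q.re| / ‖q‖) (hb : |q.re| / ‖q‖ ≤ b) : False := by
  rcases le_total 0 q.re with h0 | h0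
  · rw [abs_of_nonneg h0] at ha hb
    obtain ⟨c, h1, h2, h3⟩ := hR
    exact h q hq hρ ha hb c h1 h2 h3
  · rw [abs_of_nonpos h0] at ha hb
    obtain ⟨c, h1, h2, h3⟩ := hR.neg
    exact h (-q) (by simpa using hq) (by simpa using hρ) (by simpa using ha) (by simpa using hb)
      c h1 h2 h3

lemma abs_re_div_norm (q : ℂ) (hq : q.im ≠ 0) : 0 ≤ |q.re| / ‖q‖ ∧ |q.re| / ‖q‖ ≤ 1 := by
  have hq0 : q ≠ 0 := by
    rintro rfl
    simp at hq
  refine ⟨by positivity, ?_⟩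
  rw [div_le_one (norm_pos_iff.mpr hq0)]
  exact Complex.abs_re_le_norm q

theorem lower_bound {q : ℂ} (hq : q.im ≠ 0) (hR : RealClass q) : rlow < ‖q‖ := by
  by_contra hcon
  push Not at hcon
  obtain ⟨h1, h2⟩ := abs_re_div_norm q hq
  exact excl_abs excl_low hq hR hcon h1 h2

theorem localization {q : ℂ} (hq : q.im ≠ 0) (hR : RealClass q) (hup : ‖q‖ ≤ rup) :
    (uaN : ℝ) / den < |q.re| / ‖q‖ ∧ |q.re| / ‖q‖ < (ubN : ℝ) / den := by
  obtain ⟨h1, h2⟩ := abs_re_div_norm q hq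
  constructor
  · by_contra hcon
    push Not at hcon
    exact excl_abs excl_left hq hR hup h1 hcon
  · by_contra hcon
    push Not at hcon
    exact excl_abs excl_right hq hR hup hcon h2

/-- Real part of the approximate minimiser. -/
noncomputable def x0 : ℝ := (q0re : ℝ) / 10 ^ 40
/-- Imaginary part of the approximate minimiser. -/
noncomputable def y0 : ℝ := (q0im : ℝ) / 10 ^ 40

lemma localization_coords {q : ℂ} (hq : q.im ≠ 0) (hR : RealClass q) (hup : ‖q‖ ≤ rup) :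
    |(|q.re| - x0)| < 1 / 10 ^ 28 ∧ |(|q.im| - y0)| < 1 / 10 ^ 28 := by
  obtain ⟨h1, h2⟩ := localization hq hR hup
  have h3 := lower_bound hq hR
  have hq0 : q ≠ 0 := by
    rintro rfl
    simp at hq
  have hr : 0 < ‖q‖ := norm_pos_iff.mpr hq0
  rw [lt_div_iff₀ hr] at h1
  rw [div_lt_iff₀ hr] at h2
  set r := ‖q‖
  have hsq : |q.re| ^ 2 + |q.im| ^ 2 = r ^ 2 := by
    rw [← Complex.normSq_eq_norm_sq, Complex.normSq_apply, sq_abs, sq_abs]
    ring
  have hua : (0 : ℝ) < (uaN : ℝ) / den := by norm_num [uaN, den]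
  have hub : (0 : ℝ) < (ubN : ℝ) / den := by norm_num [ubN, den]
  have hrl : (0 : ℝ) < rlow := by norm_num [rlow, rlowN, den]
  have h4 : (uaN : ℝ) / den * rlow < |q.re| :=
    lt_of_le_of_lt (mul_le_mul_of_nonneg_left h3.le hua.le) h1
  have h5 : |q.re| < (ubN : ℝ) / den * rup :=
    lt_of_lt_of_le h2 (mul_le_mul_of_nonneg_left hup hub.le)
  have h6 : ((uaN : ℝ) / den * rlow) ^ 2 < |q.re| ^ 2 :=
    pow_lt_pow_left₀ h4 (by positivity) two_ne_zero
  have h7 : |q.re| ^ 2 < ((ubN : ℝ) / den * rup) ^ 2 :=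
    pow_lt_pow_left₀ h5 (abs_nonneg _) two_ne_zero
  have h8 : rlow ^ 2 < r ^ 2 := pow_lt_pow_left₀ h3 hrl.le two_ne_zero
  have h9 : r ^ 2 ≤ rup ^ 2 := pow_le_pow_left₀ hr.le hup 2
  constructor
  · rw [abs_lt]
    constructor
    · have : x0 - 1 / 10 ^ 28 ≤ (uaN : ℝ) / den * rlow := by
        norm_num [x0, q0re, uaN, den, rlow, rlowN]
      linarith
    · have : (ubN : ℝ) / den * rup ≤ x0 + 1 / 10 ^ 28 := by
        norm_num [x0, q0re, ubN, den, rup, rupN]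
      linarith
  · rw [abs_lt]
    constructor
    · have h10 : (y0 - 1 / 10 ^ 28) ^ 2 ≤ rlow ^ 2 - ((ubN : ℝ) / den * rup) ^ 2 := by
        norm_num [y0, q0im, ubN, den, rup, rupN, rlow, rlowN]
      have h11 : (y0 - 1 / 10 ^ 28) ^ 2 < |q.im| ^ 2 := by linarith
      have h12 := lt_of_pow_lt_pow_left₀ 2 (abs_nonneg _) h11
      linarith
    · have h10 : rup ^ 2 - ((uaN : ℝ) / den * rlow) ^ 2 ≤ (y0 + 1 / 10 ^ 28) ^ 2 := by
        norm_num [y0, q0im, uaN, den, rup, rupN, rlow, rlowN]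
      have h11 : |q.im| ^ 2 < (y0 + 1 / 10 ^ 28) ^ 2 := by linarith
      have h12 := lt_of_pow_lt_pow_left₀ 2 (by norm_num [y0, q0im]) h11
      linarith

/-- There is a nonreal point of `M` of modulus less than `rup`. -/
theorem exists_point : ∃ q ∈ mandelbrot, q.im ≠ 0 ∧ ‖q‖ < rup := by
  obtain ⟨z, hz, hdist⟩ := root_of_horner q0re q0im (10 ^ 40) (by norm_num) signs (10 ^ 36)
    (by norm_num) horner_ok
  set w : ℂ := ((q0re : ℂ) + q0im * Complex.I) / ((10 ^ 40 : ℤ) : ℂ) with hw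
  have hwxy : w = ((x0 : ℝ) : ℂ) + ((y0 : ℝ) : ℂ) * Complex.I := by
    rw [hw, x0, y0]
    push_cast
    ring
  have hwre : w.re = x0 := by
    rw [hwxy]; simp
  have hwim : w.im = y0 := by
    rw [hwxy]; simp
  have hwnorm : ‖w‖ ≤ rup - 2 / 10 ^ 36 := by
    have h1 : ‖w‖ ^ 2 = x0 ^ 2 + y0 ^ 2 := by
      rw [← Complex.normSq_eq_norm_sq, Complex.normSq_apply, hwre, hwim]
      ring
    have h2 : x0 ^ 2 + y0 ^ 2 ≤ (rup - 2 / 10 ^ 36) ^ 2 := by
      norm_num [x0, y0, q0re, q0im, rup, rupN, den]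
    rw [← h1] at h2
    exact le_of_sq_le_sq h2 (by norm_num [rup, rupN, den])
  have hM : (1 : ℝ) / ((10 ^ 36 : ℕ) : ℝ) = 1 / 10 ^ 36 := by norm_num
  rw [hM] at hdist
  have hznorm : ‖z‖ < rup := by
    have : ‖z‖ ≤ ‖w‖ + ‖w - z‖ := by
      calc ‖z‖ = ‖w - (w - z)‖ := by congr 1; ring
        _ ≤ _ := norm_sub_le _ _
    have h3 : (0 : ℝ) < 1 / 10 ^ 36 := by positivity
    have h4 : (2 : ℝ) / 10 ^ 36 = 1 / 10 ^ 36 + 1 / 10 ^ 36 := by ring
    rw [h4] at hwnorm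
    linarith
  have hzim : z.im ≠ 0 := by
    have h5 : |(w - z).im| ≤ 1 / 10 ^ 36 := (Complex.abs_im_le_norm _).trans hdist
    rw [Complex.sub_im, hwim] at h5
    intro h0
    rw [h0, sub_zero] at h5
    have : (1 : ℝ) / 10 ^ 36 < |y0| := by
      rw [abs_of_pos (by norm_num [y0, q0im])]
      norm_num [y0, q0im]
    linarith
  have hrup : rup < 1 := by norm_num [rup, rupN, den]
  refine ⟨z, mem_mandelbrot_iff.mpr ⟨hznorm.trans hrup, coefOf signs, ?_, coefOf_cases signs, ?_⟩,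
    hzim, hznorm⟩
  · simp [signs, coefOf]
  · have := polyOf_vanish signs z
    rwa [hz] at this

end Pool.Agent.Helper62.Mandel
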