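import Mathlib
import Pool.Agent.Helper62.Mandel.Main

set_option autoImplicit false

namespace Pool.Agent.Helper62.Mandel

open Polynomial Polynomial.Chebyshev Set

/-- The dual identity in terms of the Chebyshev type polynomials. -/
lemma hasSum_W_eq {q : ℂ} (hq : q.im ≠ 0) (γ : ℝ) {c : ℕ → ℝ} (h0 : c 0 = 1)
    (hv : Vanish c q) :
    HasSum (fun k => c (k + 1) * (‖q‖ ^ (k + 1) * W (q.re / ‖q‖) γ (k + 1))) (-1) := by
  have h1 : HasSum (fun k => c k * (‖q‖ ^ k * W (q.re / ‖q‖) γ k)) 0 := by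
    have := (Lfun (γ * ‖q‖ / q.im)).hasSum hv
    rw [map_zero] at this
    convert this using 1
    ext k
    rw [← Lfun_pow hq γ k]
    rw [Lfun_apply, Lfun_apply]
    simp
    ring
  have := (hasSum_nat_add_iff' 1).mpr h1
  simpa [h0, W] using this

/-- If the dual mass is at most `1 + ε` then every coefficient is close to its dual sign. -/
lemma tight {q : ℂ} (hq : q.im ≠ 0) (hq1 : ‖q‖ < 1) {γ ε : ℝ} {c : ℕ → ℝ} (h0 : c 0 = 1)
    (hc : ∀ k, |c k| ≤ 1) (hv : Vanish c q)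
    (hM : ∑' k : ℕ, ‖q‖ ^ (k + 1) * |W (q.re / ‖q‖) γ (k + 1)| ≤ 1 + ε) (k : ℕ) :
    ‖q‖ ^ (k + 1) * (|W (q.re / ‖q‖) γ (k + 1)| + c (k + 1) * W (q.re / ‖q‖) γ (k + 1)) ≤ ε := by
  have hq0 : q ≠ 0 := by
    rintro rfl
    simp at hq
  have hr : 0 < ‖q‖ := norm_pos_iff.mpr hq0
  have hu1 : |q.re / ‖q‖| ≤ 1 := by
    rw [abs_div, abs_norm, div_le_one hr]
    exact Complex.abs_re_le_norm q
  have hs := (summable_W hr.le hq1 γ hu1).hasSum
  have h2 := hs.add (hasSum_W_eq hq γ h0 hv)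
  have h3 := le_hasSum h2 k (fun j _ => by
    have h4 : -(|W (q.re / ‖q‖) γ (j + 1)|) ≤ c (j + 1) * W (q.re / ‖q‖) γ (j + 1) := by
      have : |c (j + 1) * W (q.re / ‖q‖) γ (j + 1)| ≤ |W (q.re / ‖q‖) γ (j + 1)| := by
        rw [abs_mul]
        exact mul_le_of_le_one_left (abs_nonneg _) (hc _)
      linarith [neg_abs_le (c (j + 1) * W (q.re / ‖q‖) γ (j + 1))]
    have h5 : 0 ≤ ‖q‖ ^ (j + 1) := by positivity
    have h6 : 0 ≤ ‖q‖ ^ (j + 1) * (|W (q.re / ‖q‖) γ (j + 1)| +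
        c (j + 1) * W (q.re / ‖q‖) γ (j + 1)) := mul_nonneg h5 (by linarith)
    linarith)
  calc _ = ‖q‖ ^ (k + 1) * |W (q.re / ‖q‖) γ (k + 1)| +
        c (k + 1) * (‖q‖ ^ (k + 1) * W (q.re / ‖q‖) γ (k + 1)) := by ring
    _ ≤ _ := h3
    _ ≤ ε := by linarith

lemma hasSum_succ {r : ℝ} (h0 : 0 ≤ r) (h1 : r < 1) :
    HasSum (fun k : ℕ => ((k : ℝ) + 1) * r ^ k) (1 / (1 - r) ^ 2) := by
  have h := hasSum_choose_mul_geometric_of_norm_lt_one 1 (r := r) (by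
    rwa [Real.norm_of_nonneg h0])
  have e : (fun n : ℕ => (((n + 1).choose 1 : ℕ) : ℝ) * r ^ n) =
      fun k : ℕ => ((k : ℝ) + 1) * r ^ k := by
    ext k
    rw [Nat.choose_one_right]
    push_cast
    ring
  rw [e] at h
  exact h

lemma hasSum_succ_sq {r : ℝ} (h0 : 0 ≤ r) (h1 : r < 1) :
    HasSum (fun k : ℕ => ((k : ℝ) + 1) ^ 2 * r ^ k) (2 / (1 - r) ^ 3 - 1 / (1 - r) ^ 2) := by
  have h := hasSum_choose_mul_geometric_of_norm_lt_one 2 (r := r) (by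
    rwa [Real.norm_of_nonneg h0])
  have h2 := (h.mul_left 2).sub (hasSum_succ h0 h1)
  have e : (fun k : ℕ => 2 * ((((k + 2).choose 2 : ℕ) : ℝ) * r ^ k) - ((k : ℝ) + 1) * r ^ k) =
      fun k : ℕ => ((k : ℝ) + 1) ^ 2 * r ^ k := by
    ext k
    have h3 : (((k + 2).choose 2 : ℕ) : ℝ) = ((k : ℝ) + 2) * ((k : ℝ) + 1) / 2 := by
      rw [Nat.cast_choose_two]
      push_cast
      ring
    rw [h3]
    ring
  rw [e] at h2
  have e3 : 2 / (1 - r) ^ 3 - 1 / (1 - r) ^ 2 =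
      2 * (1 / (1 - r) ^ (2 + 1)) - 1 / (1 - r) ^ 2 := by ring
  rw [e3]
  exact h2

lemma pow_sub_pow_le {a b : ℝ} (h0 : 0 ≤ a) (hab : a ≤ b) (n : ℕ) :
    b ^ (n + 1) - a ^ (n + 1) ≤ (b - a) * (((n : ℝ) + 1) * b ^ n) := by
  induction n with
  | zero => simp
  | succ n ih =>
    have hb : 0 ≤ b := h0.trans hab
    have e1 : b ^ (n + 1 + 1) - a ^ (n + 1 + 1) =
        b * (b ^ (n + 1) - a ^ (n + 1)) + (b - a) * a ^ (n + 1) := by ring
    rw [e1]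
    have h1 : a ^ (n + 1) ≤ b ^ (n + 1) := pow_le_pow_left₀ h0 hab _
    have h2 : 0 ≤ b - a := by linarith
    push_cast
    calc b * (b ^ (n + 1) - a ^ (n + 1)) + (b - a) * a ^ (n + 1)
        ≤ b * ((b - a) * (((n : ℝ) + 1) * b ^ n)) + (b - a) * b ^ (n + 1) :=
          add_le_add (mul_le_mul_of_nonneg_left ih hb) (mul_le_mul_of_nonneg_left h1 h2)
      _ = _ := by ring

/-- Comparison of the dual masses for two moduli. -/
lemma Wsum_le {u γ r1 r2 : ℝ} (hu : |u| ≤ 1) (hγ : |γ| ≤ 1 / 4) (h1 : 0 ≤ r1) (h12 : r1 ≤ r2)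
    (h2 : r2 ≤ 16 / 25) :
    ∑' k : ℕ, r2 ^ (k + 1) * |W u γ (k + 1)| ≤
      ∑' k : ℕ, r1 ^ (k + 1) * |W u γ (k + 1)| + (r2 - r1) * 20 := by
  have h20 : 0 ≤ r2 := h1.trans h12
  have h21 : r2 < 1 := by linarith
  have hs2 := (summable_W h20 h21 γ hu).hasSum
  have hs1 := (summable_W h1 (h12.trans_lt h21) γ hu).hasSum
  have hb := (((hasSum_succ h20 h21).add ((hasSum_succ_sq h20 h21).mul_left (1 / 4))).mul_left
    (r2 - r1))
  have hle := hasSum_le (fun k => ?_) (hs2.sub hs1) hb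
  · have h3 : 1 / (1 - r2) ^ 2 + 1 / 4 * (2 / (1 - r2) ^ 3 - 1 / (1 - r2) ^ 2) ≤ 20 := by
      have h4 : 9 / 25 ≤ 1 - r2 := by linarith
      have h5 : 1 / (1 - r2) ≤ 25 / 9 := by
        rw [div_le_div_iff₀ (by linarith) (by norm_num)]
        linarith
      have h6 : 0 ≤ 1 / (1 - r2) := by
        apply div_nonneg <;> linarith
      have e1 : 1 / (1 - r2) ^ 2 = (1 / (1 - r2)) ^ 2 := by rw [one_div_pow]
      have e2 : 2 / (1 - r2) ^ 3 = 2 * (1 / (1 - r2)) ^ 3 := by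
        rw [one_div_pow]; ring
      rw [e1, e2]
      set x := 1 / (1 - r2)
      have h7 : x ^ 2 ≤ (25 / 9) ^ 2 := pow_le_pow_left₀ h6 h5 2
      have h8 : x ^ 3 ≤ (25 / 9) ^ 3 := pow_le_pow_left₀ h6 h5 3
      nlinarith
    have h9 : (r2 - r1) * (1 / (1 - r2) ^ 2 + 1 / 4 * (2 / (1 - r2) ^ 3 - 1 / (1 - r2) ^ 2)) ≤
        (r2 - r1) * 20 := mul_le_mul_of_nonneg_left h3 (by linarith)
    linarith
  · have h3 := pow_sub_pow_le h1 h12 k
    have h4 := abs_W_le u γ hu (k + 1)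
    have h5 : |γ| * ((k + 1 : ℕ) : ℝ) ≤ 1 / 4 * ((k : ℝ) + 1) := by
      push_cast
      exact mul_le_mul_of_nonneg_right hγ (by positivity)
    have h6 : |W u γ (k + 1)| ≤ 1 + 1 / 4 * ((k : ℝ) + 1) := h4.trans (by linarith)
    have h7 : 0 ≤ r2 ^ (k + 1) - r1 ^ (k + 1) :=
      sub_nonneg.mpr (pow_le_pow_left₀ h1 h12 _)
    calc r2 ^ (k + 1) * |W u γ (k + 1)| - r1 ^ (k + 1) * |W u γ (k + 1)|
        = (r2 ^ (k + 1) - r1 ^ (k + 1)) * |W u γ (k + 1)| := by ring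
      _ ≤ ((r2 - r1) * (((k : ℝ) + 1) * r2 ^ k)) * (1 + 1 / 4 * ((k : ℝ) + 1)) := by
          refine mul_le_mul h3 h6 (abs_nonneg _) (h7.trans h3)
      _ = _ := by ring

/-- First derivative bound. -/
lemma abs_P_deriv_le (γ : ℝ) (k : ℕ) (hk : 1 ≤ k) {x : ℝ} (hx : |x| ≤ 1) :
    |(derivative (P γ k)).eval x| ≤ (k : ℝ) ^ 2 + |γ| * (k * ((k : ℝ) ^ 2 - 1) / 3) := by
  have hk' : (0 : ℝ) < k := by exact_mod_cast hk
  have hT1 : |(derivative (T ℝ (k : ℤ))).eval x| ≤ (k : ℝ) ^ 2 := by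
    have h1 := abs_iterate_derivative_T_real_le (k : ℤ) 1 hx
    have h2 := iterate_derivative_T_eval_one_eq_div (𝔽 := ℝ) (k : ℤ) 1
    simp only [Function.iterate_one] at h1 h2
    rw [h2] at h1
    norm_num at h1
    exact h1
  have hU1 : |(derivative (U ℝ ((k : ℤ) - 1))).eval x| ≤ k * ((k : ℝ) ^ 2 - 1) / 3 := by
    have h1 := abs_iterate_derivative_T_real_le (k : ℤ) 2 hx
    have h2 := iterate_derivative_T_eval_one_eq_div (𝔽 := ℝ) (k : ℤ) 2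
    simp only [Function.iterate_succ, Function.iterate_zero, Function.comp_apply, id_eq] at h1 h2
    rw [h2] at h1
    have e1 : derivative (derivative (T ℝ (k : ℤ))) =
        C (k : ℝ) * derivative (U ℝ ((k : ℤ) - 1)) := by
      rw [T_derivative_eq_U]
      simp
    rw [e1] at h1
    simp only [eval_mul, eval_C, abs_mul] at h1
    norm_num [Finset.prod_range_succ] at h1
    have h3 : (k : ℝ) * |(derivative (U ℝ ((k : ℤ) - 1))).eval x| ≤
        k * (k * ((k : ℝ) ^ 2 - 1) / 3) := by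
      calc _ ≤ _ := h1
        _ = _ := by ring
    exact le_of_mul_le_mul_left h3 hk'
  have e2 : derivative (P γ k) = derivative (T ℝ (k : ℤ)) -
      C γ * derivative (U ℝ ((k : ℤ) - 1)) := by
    simp [P]
  rw [e2, eval_sub, eval_mul, eval_C]
  calc _ ≤ |(derivative (T ℝ (k : ℤ))).eval x| +
        |γ * (derivative (U ℝ ((k : ℤ) - 1))).eval x| := abs_sub _ _
    _ ≤ _ := by
      rw [abs_mul]
      exact add_le_add hT1 (mul_le_mul_of_nonneg_left hU1 (abs_nonneg _))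

/-- Lipschitz bound for `W`. -/
lemma W_lip {γ u v : ℝ} (k : ℕ) (hk : 1 ≤ k) (hγ : |γ| ≤ 1 / 4) (hu : |u| ≤ 1) (hv : |v| ≤ 1) :
    |W u γ k - W v γ k| ≤ (k : ℝ) ^ 3 * 2 * |u - v| := by
  rw [W_eq, W_eq]
  have hbound : ∀ x ∈ Icc (-1 : ℝ) 1, ‖deriv (fun x => (P γ k).eval x) x‖ ≤ (k : ℝ) ^ 3 * 2 := by
    intro x hx
    rw [(P γ k).deriv, Real.norm_eq_abs]
    have h1 := abs_P_deriv_le γ k hk (abs_le.mpr hx)
    have hk' : (1 : ℝ) ≤ k := by exact_mod_cast hk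
    have h2 : |γ| * (k * ((k : ℝ) ^ 2 - 1) / 3) ≤ 1 / 4 * (k * ((k : ℝ) ^ 2 - 1) / 3) := by
      apply mul_le_mul_of_nonneg_right hγ
      have : 0 ≤ (k : ℝ) ^ 2 - 1 := by nlinarith
      positivity
    have h3 : (k : ℝ) ^ 2 ≤ (k : ℝ) ^ 3 := by
      have : (k : ℝ) ^ 3 = (k : ℝ) ^ 2 * k := by ring
      rw [this]
      nlinarith [sq_nonneg (k : ℝ)]
    nlinarith
  have h := (convex_Icc (-1 : ℝ) 1).norm_image_sub_le_of_norm_deriv_le
    (f := fun x => (P γ k).eval x) (fun x _ => (P γ k).differentiable.differentiableAt) hbound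
    (abs_le.mp hv) (abs_le.mp hu)
  simpa [Real.norm_eq_abs] using h

end Pool.Agent.Helper62.Mandel
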