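import Mathlib
import Pool.Agent.Helper62.Mandel.Ident

set_option autoImplicit false

namespace Pool.Agent.Helper62.Mandel

open Set

/-- Check of the signs (and a lower bound `1/100` for the absolute values) of the dual
polynomials. -/
def checkW (U2 F2 F : ℤ) : List Bool → ℤ → ℤ → ℤ → Bool
  | [], _, _, _ => true
  | b :: l, x0, x1, Fp =>
    forceInt (U2 * x1 - F2 * x0) fun x2 => forceInt (Fp * F) fun Fp' =>
      (bif b then decide (Fp ≤ 100 * x1) else decide (Fp ≤ 100 * (-x1))) &&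
        checkW U2 F2 F l x1 x2 Fp'

lemma checkW_spec {U F : ℤ} (hF : 0 < F) (γ : ℝ) : ∀ (l : List Bool) (k : ℕ) (x0 x1 Fp : ℤ),
    (x0 : ℝ) = F ^ k * W ((U : ℝ) / F) γ k → (x1 : ℝ) = F ^ (k + 1) * W ((U : ℝ) / F) γ (k + 1) →
    (Fp : ℝ) = F ^ (k + 1) → checkW (2 * U) (F ^ 2) F l x0 x1 Fp = true →
    ∀ j < l.length, coefOf l j * W ((U : ℝ) / F) γ (k + 1 + j) ≤ -(1 / 100) := by
  intro l
  induction l with
  | nil => intro k x0 x1 Fp _ _ _ _ j hj; simp at hj
  | cons b l ih =>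
    intro k x0 x1 Fp h0 h1 hFp h j hj
    rw [checkW] at h
    simp only [forceInt_eq, Bool.and_eq_true] at h
    obtain ⟨h2, h3⟩ := h
    have hF' : (0 : ℝ) < F := by exact_mod_cast hF
    have hFne : (F : ℝ) ≠ 0 := hF'.ne'
    cases j with
    | zero =>
      have hpos : (0 : ℝ) < F ^ (k + 1) := by positivity
      cases b
      · simp only [cond_false, decide_eq_true_eq] at h2
        have h4 : (Fp : ℝ) ≤ 100 * (-x1) := by exact_mod_cast h2
        rw [hFp, h1] at h4
        simp only [coefOf, cond_false, one_mul, add_zero]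
        have h5 : (F : ℝ) ^ (k + 1) * (1 + 100 * W ((U : ℝ) / F) γ (k + 1)) ≤ 0 := by linarith
        have h6 : 1 + 100 * W ((U : ℝ) / F) γ (k + 1) ≤ 0 := by
          by_contra hcon
          push Not at hcon
          have := mul_pos hpos hcon
          linarith
        linarith
      · simp only [cond_true, decide_eq_true_eq] at h2
        have h4 : (Fp : ℝ) ≤ 100 * x1 := by exact_mod_cast h2
        rw [hFp, h1] at h4
        simp only [coefOf, cond_true, add_zero]
        have h5 : (F : ℝ) ^ (k + 1) * (1 - 100 * W ((U : ℝ) / F) γ (k + 1)) ≤ 0 := by linarith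
        have h6 : 1 - 100 * W ((U : ℝ) / F) γ (k + 1) ≤ 0 := by
          by_contra hcon
          push Not at hcon
          have := mul_pos hpos hcon
          linarith
        linarith
    | succ j =>
      have h4 := ih (k + 1) x1 (2 * U * x1 - F ^ 2 * x0) (Fp * F) h1 ?_ ?_ h3 j (by
        simpa using hj)
      · rw [show k + 1 + (j + 1) = k + 1 + 1 + j by ring]
        exact h4
      · push_cast
        rw [h0, h1, W]
        field_simp
        ring
      · push_cast
        rw [hFp]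
        ring

theorem signs_ok : checkW (2 * (uaN : ℤ)) ((den : ℤ) ^ 2) den ((signs.drop 1).take 130) 1
    ((uaN : ℤ) - cc0.G) den = true := by
  decide +kernel

/-- The dual parameter of the central cell. -/
noncomputable def gc : ℝ := cc0.gam

lemma gc_eq : gc = (cc0.G : ℝ) / cc0.F := by
  simp [gc, Cell.gam, cc0]

lemma abs_gc_le : |gc| ≤ 1 / 4 := by
  rw [gc_eq, abs_of_nonneg (by positivity)]
  norm_num [cc0]

lemma coefOf_take (l : List Bool) : ∀ (n j : ℕ), j < n → coefOf (l.take n) j = coefOf l j := by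
  induction l with
  | nil => intro n j _; simp
  | cons b l ih =>
    intro n j hj
    cases n with
    | zero => omega
    | succ n =>
      cases j with
      | zero => simp [coefOf]
      | succ j =>
        simp only [List.take_succ_cons, coefOf]
        exact ih n j (by omega)

lemma signs_W (k : ℕ) (h1 : 1 ≤ k) (h2 : k ≤ 130) :
    coefOf signs k * W ((uaN : ℝ) / den) gc k ≤ -(1 / 100) := by
  have h := checkW_spec (U := uaN) (F := den) (by norm_num [den]) gc _ 0 1
    ((uaN : ℤ) - cc0.G) den (by simp [W]) ?_ (by simp) signs_ok (k - 1) (by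
      have : ((signs.drop 1).take 130).length = 130 := by decide +kernel
      rw [this]; omega)
  · rw [coefOf_take _ _ _ (by omega)] at h
    have e1 : coefOf (signs.drop 1) (k - 1) = coefOf signs k := by
      obtain ⟨j, rfl⟩ : ∃ j, k = j + 1 := ⟨k - 1, by omega⟩
      rfl
    rw [e1, show 0 + 1 + (k - 1) = k by omega] at h
    simpa using h
  · rw [gc_eq]
    simp only [W, zero_add, pow_one]
    norm_num [uaN, den, cc0]

lemma abs_coefOf_signs (k : ℕ) (h1 : 1 ≤ k) (h2 : k ≤ 130) :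
    coefOf signs k = 1 ∨ coefOf signs k = -1 := by
  rcases coefOf_cases signs k with h | h
  · have := signs_W k h1 h2
    rw [h] at this
    norm_num at this
  · exact h

/-- The dual mass at the critical directions. -/
lemma mass_le {q : ℂ} (hq : q.im ≠ 0) (hR : RealClass q) (hre : 0 ≤ q.re) (hup : ‖q‖ ≤ rup) :
    ∑' k : ℕ, ‖q‖ ^ (k + 1) * |W (q.re / ‖q‖) gc (k + 1)| ≤ 1 + 20 / 10 ^ 30 := by
  obtain ⟨h1, h2⟩ := localization hq hR hup
  rw [abs_of_nonneg hre] at h1 h2
  have h3 := lower_bound hq hR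
  have e1 : ((cc0.U1 : ℝ) / cc0.F) = (uaN : ℝ) / den := by norm_num [cc0, uaN, den]
  have e2 : ((cc0.U2 : ℝ) / cc0.F) = (ubN : ℝ) / den := by norm_num [cc0, ubN, den]
  have e3 : ((cc0.R : ℝ) / cc0.E) = rlow := by norm_num [cc0, rlow, rlowN, den]
  obtain ⟨-, h4⟩ := cc0.ok_spec cc0_ok (u := q.re / ‖q‖) (by rw [e1]; exact h1.le)
    (by rw [e2]; exact h2.le)
  rw [e3] at h4
  have hq0 : q ≠ 0 := by
    rintro rfl
    simp at hq
  have hr : 0 < ‖q‖ := norm_pos_iff.mpr hq0
  have hu1 : |q.re / ‖q‖| ≤ 1 := by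
    rw [abs_div, abs_norm, div_le_one hr]
    exact Complex.abs_re_le_norm q
  have h5 := Wsum_le (γ := gc) hu1 abs_gc_le (r1 := rlow) (r2 := ‖q‖)
    (by norm_num [rlow, rlowN, den]) h3.le (hup.trans (by norm_num [rup, rupN, den]))
  have h6 : ‖q‖ - rlow ≤ 1 / 10 ^ 30 := by
    have : rup - rlow = 1 / 10 ^ 30 := by norm_num [rup, rupN, rlow, rlowN, den]
    linarith
  change _ < 1 at h4
  have h7 : cc0.gam = gc := rfl
  rw [h7] at h4
  have h8 : (20 : ℝ) / 10 ^ 30 = 1 / 10 ^ 30 * 20 := by norm_num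
  rw [h8]
  linarith

/-- The first 130 coefficients are close to those of the extremal series. -/
theorem ident {q : ℂ} (hq : q.im ≠ 0) (hre : 0 ≤ q.re) (hup : ‖q‖ ≤ rup) {c : ℕ → ℝ}
    (h0 : c 0 = 1) (hc : ∀ k, |c k| ≤ 1) (hv : Vanish c q) (k : ℕ) (h1 : 1 ≤ k) (h2 : k ≤ 130) :
    ‖q‖ ^ k * |c k - coefOf signs k| ≤ 4 / 10 ^ 27 := by
  have hR : RealClass q := ⟨c, h0, hc, hv⟩
  have hq0 : q ≠ 0 := by
    rintro rfl
    simp at hq
  have hr : 0 < ‖q‖ := norm_pos_iff.mpr hq0
  have hu1 : |q.re / ‖q‖| ≤ 1 := by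
    rw [abs_div, abs_norm, div_le_one hr]
    exact Complex.abs_re_le_norm q
  have hrup1 : rup < 1 := by norm_num [rup, rupN, den]
  have ht := tight hq (hup.trans_lt hrup1) h0 hc hv (mass_le hq hR hre hup) (k - 1)
  rw [show k - 1 + 1 = k by omega] at ht
  obtain ⟨hl1, hl2⟩ := localization hq hR hup
  rw [abs_of_nonneg hre] at hl1 hl2
  set u := q.re / ‖q‖ with hu
  have hv1 : |(uaN : ℝ) / den| ≤ 1 := by
    rw [abs_of_nonneg (by positivity)]
    norm_num [uaN, den]
  have hlip := W_lip (γ := gc) k h1 abs_gc_le hu1 hv1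
  have hk : (k : ℝ) ≤ 130 := by exact_mod_cast h2
  have hdist : |u - (uaN : ℝ) / den| ≤ 201 / 10 ^ 30 := by
    rw [abs_of_pos (by linarith)]
    have : (ubN : ℝ) / den - (uaN : ℝ) / den = 201 / 10 ^ 30 := by norm_num [uaN, ubN, den]
    linarith
  have hk3 : (k : ℝ) ^ 3 * 2 * |u - (uaN : ℝ) / den| ≤ 1 / 200 := by
    calc (k : ℝ) ^ 3 * 2 * |u - (uaN : ℝ) / den| ≤ 130 ^ 3 * 2 * (201 / 10 ^ 30) := by gcongr
      _ ≤ 1 / 200 := by norm_num
  have hs := signs_W k h1 h2
  set a := coefOf signs k with ha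
  set w := W u gc k with hw
  set w0 := W ((uaN : ℝ) / den) gc k with hw0
  have hww : |w - w0| ≤ 1 / 200 := hlip.trans hk3
  obtain ⟨hww1, hww2⟩ := abs_le.mp hww
  obtain ⟨hc1, hc2⟩ := abs_le.mp (hc k)
  have hrk : 0 < ‖q‖ ^ k := by positivity
  have key : |c k - a| * (1 / 200) ≤ |w| + c k * w := by
    rcases abs_coefOf_signs k h1 h2 with h | h
    · rw [← ha] at h
      rw [h] at hs ⊢
      have hwneg : w ≤ -(1 / 200) := by linarith
      rw [abs_of_nonpos (by linarith), abs_of_nonpos (by linarith : w ≤ 0)]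
      nlinarith
    · rw [← ha] at h
      rw [h] at hs ⊢
      have hwpos : 1 / 200 ≤ w := by linarith
      rw [abs_of_nonneg (by linarith), abs_of_nonneg (by linarith : 0 ≤ w)]
      nlinarith
  have h9 : ‖q‖ ^ k * (|c k - a| * (1 / 200)) ≤ 20 / 10 ^ 30 :=
    (mul_le_mul_of_nonneg_left key hrk.le).trans ht
  have h10 : (4 : ℝ) / 10 ^ 27 = 20 / 10 ^ 30 * 200 := by norm_num
  rw [h10]
  linarith

/-- If the coefficients are `±1` then the first 130 are exactly those of the list. -/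
theorem ident_exact {q : ℂ} (hq : q.im ≠ 0) (hre : 0 ≤ q.re) (hup : ‖q‖ ≤ rup) {c : ℕ → ℝ}
    (h0 : c 0 = 1) (hc : ∀ k, |c k| ≤ 1) (hv : Vanish c q) (k : ℕ) (h2 : k ≤ 130)
    (hck : |c k| = 1) : c k = coefOf signs k := by
  rcases Nat.eq_zero_or_pos k with rfl | h1
  · rw [h0]; simp [signs, coefOf]
  have h3 := ident hq hre hup h0 hc hv k h1 h2
  have hlow : rlow < ‖q‖ := lower_bound hq ⟨c, h0, hc, hv⟩
  have hrl : (0 : ℝ) < rlow := by norm_num [rlow, rlowN, den]
  have h4 : rlow ^ 130 ≤ ‖q‖ ^ k := by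
    calc rlow ^ 130 ≤ rlow ^ k := pow_le_pow_of_le_one hrl.le (by norm_num [rlow, rlowN, den]) h2
      _ ≤ _ := pow_le_pow_left₀ hrl.le hlow.le _
  have h5 : (1 : ℝ) / 10 ^ 26 ≤ rlow ^ 130 := by
    have : (6356 / 10000 : ℝ) ≤ rlow := by norm_num [rlow, rlowN, den]
    calc (1 : ℝ) / 10 ^ 26 ≤ (6356 / 10000 : ℝ) ^ 130 := by norm_num
      _ ≤ _ := pow_le_pow_left₀ (by norm_num) this _
  have h6 : (1 : ℝ) / 10 ^ 26 * |c k - coefOf signs k| ≤ 4 / 10 ^ 27 :=
    (mul_le_mul_of_nonneg_right (h5.trans h4) (abs_nonneg _)).trans h3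
  have h7 : |c k - coefOf signs k| ≤ 2 / 5 := by
    have : (4 : ℝ) / 10 ^ 27 = 1 / 10 ^ 26 * (2 / 5) := by norm_num
    rw [this] at h6
    exact le_of_mul_le_mul_left h6 (by norm_num)
  have h8 : c k = 1 ∨ c k = -1 := by
    rcases abs_choice (c k) with h | h
    · left; rw [← h, hck]
    · right; rw [h] at hck; linarith
  rcases abs_coefOf_signs k h1 h2 with h | h
  · rcases h8 with h' | h'
    · rw [h, h']
    · rw [h, h'] at h7
      norm_num at h7
  · rcases h8 with h' | h'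
    · rw [h, h'] at h7
      norm_num at h7
    · rw [h, h']

end Pool.Agent.Helper62.Mandel
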