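import Mathlib
import Pool.Agent.Helper62.Mandel.Defs

set_option autoImplicit false

namespace Pool.Agent.Helper62.Mandel

open Set Filter Topology

set_option maxHeartbeats 1000000 in
/-- First order perturbation: near `0`, `F` takes real values of the sign of `-Re α` at points with
negative real part. -/
lemma first_order {F : ℂ → ℂ} {α : ℂ} {C δ : ℝ} (hδ : 0 < δ)
    (hcont : ContinuousOn F (Metric.ball 0 δ))
    (hF : ∀ w : ℂ, ‖w‖ < δ → ‖F w - α * w‖ ≤ C * ‖w‖ ^ 2) (hα : α.re ≠ 0)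
    {η : ℝ} (hη : 0 < η) :
    ∃ w : ℂ, ‖w‖ < η ∧ ‖w‖ < δ ∧ w.re < 0 ∧ (F w).im = 0 ∧ (F w).re * α.re < 0 ∧ ‖F w‖ < η := by
  have hC : 0 ≤ C := by
    have h1 := hF ((δ / 2 : ℝ) : ℂ) (by
      rw [Complex.norm_real, Real.norm_of_nonneg (by positivity)]; linarith)
    have h2 := (norm_nonneg _).trans h1
    have h3 : 0 < ‖((δ / 2 : ℝ) : ℂ)‖ ^ 2 := by
      rw [Complex.norm_real, Real.norm_of_nonneg (by positivity)]; positivity
    exact nonneg_of_mul_nonneg_left h2 h3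
  set a := α.re with ha
  set b := α.im with hb
  set B : ℝ := |b / a| + 2 with hB
  have hB2 : 2 ≤ B := by
    have := abs_nonneg (b / a)
    linarith
  -- a small parameter
  obtain ⟨t, ht0, ht1, ht2, ht3, ht4⟩ : ∃ t : ℝ, 0 < t ∧ t * B < δ ∧ t * B < η ∧
      C * B ^ 2 * t * (B * |a|) < a ^ 2 / 2 ∧ (‖α‖ + C * B * δ) * (t * B) < η := by
    have h1 : Tendsto (fun t : ℝ => t * B) (𝓝 0) (𝓝 (0 * B)) := tendsto_id.mul_const B
    have h2 : Tendsto (fun t : ℝ => C * B ^ 2 * t * (B * |a|)) (𝓝 0)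
        (𝓝 (C * B ^ 2 * 0 * (B * |a|))) := (tendsto_id.const_mul _).mul_const _
    have h3 : Tendsto (fun t : ℝ => (‖α‖ + C * B * δ) * (t * B)) (𝓝 0)
        (𝓝 ((‖α‖ + C * B * δ) * (0 * B))) := h1.const_mul _
    rw [zero_mul] at h1 h3
    rw [mul_zero, zero_mul] at h2
    rw [mul_zero] at h3
    have ha2 : 0 < a ^ 2 / 2 := by positivity
    have hev : ∀ᶠ t in 𝓝 (0 : ℝ), t * B < δ ∧ t * B < η ∧
        C * B ^ 2 * t * (B * |a|) < a ^ 2 / 2 ∧ (‖α‖ + C * B * δ) * (t * B) < η :=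
      (h1.eventually (gt_mem_nhds hδ)).and ((h1.eventually (gt_mem_nhds hη)).and
        ((h2.eventually (gt_mem_nhds ha2)).and (h3.eventually (gt_mem_nhds hη))))
    obtain ⟨t, ht, h0⟩ := ((hev.filter_mono nhdsWithin_le_nhds).and
      (self_mem_nhdsWithin (s := Ioi (0 : ℝ)))).exists
    exact ⟨t, h0, ht⟩
  let W : ℝ → ℂ := fun κ => (t : ℂ) * (-1 + κ * Complex.I)
  have hWnorm : ∀ κ ∈ Icc (b / a - 1) (b / a + 1), ‖W κ‖ ≤ t * B := by
    intro κ hκ
    have h1 : |κ| ≤ |b / a| + 1 := by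
      rw [abs_le]
      have h2 := neg_abs_le (b / a)
      have h3 := le_abs_self (b / a)
      constructor
      · linarith [hκ.1]
      · linarith [hκ.2]
    calc ‖W κ‖ = t * ‖(-1 + κ * Complex.I : ℂ)‖ := by
          simp only [W, norm_mul, Complex.norm_real, Real.norm_of_nonneg ht0.le]
      _ ≤ t * (1 + |κ|) := by
          refine mul_le_mul_of_nonneg_left ((norm_add_le _ _).trans ?_) ht0.le
          simp
      _ ≤ t * B := mul_le_mul_of_nonneg_left (by rw [hB]; linarith) ht0.le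
  have hre : ∀ κ : ℝ, (α * W κ).re = t * (-a - b * κ) := by
    intro κ
    simp [W, ← ha, ← hb]
    ring
  have him : ∀ κ : ℝ, (α * W κ).im = t * (-b + a * κ) := by
    intro κ
    simp [W, ← ha, ← hb]
    ring
  have herr : ∀ κ ∈ Icc (b / a - 1) (b / a + 1), ‖F (W κ) - α * W κ‖ ≤ C * B ^ 2 * t * t := by
    intro κ hκ
    have h1 := hWnorm κ hκ
    refine (hF _ (h1.trans_lt ht1)).trans ?_
    calc C * ‖W κ‖ ^ 2 ≤ C * (t * B) ^ 2 :=
          mul_le_mul_of_nonneg_left (pow_le_pow_left₀ (norm_nonneg _) h1 2) hC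
      _ = C * B ^ 2 * t * t := by ring
  have herr_im : ∀ κ ∈ Icc (b / a - 1) (b / a + 1),
      |(F (W κ)).im - t * (-b + a * κ)| ≤ C * B ^ 2 * t * t := by
    intro κ hκ
    rw [← him κ, ← Complex.sub_im]
    exact (Complex.abs_im_le_norm _).trans (herr κ hκ)
  have herr_re : ∀ κ ∈ Icc (b / a - 1) (b / a + 1),
      |(F (W κ)).re - t * (-a - b * κ)| ≤ C * B ^ 2 * t * t := by
    intro κ hκ
    rw [← hre κ, ← Complex.sub_re]
    exact (Complex.abs_re_le_norm _).trans (herr κ hκ)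
  have hcontg : ContinuousOn (fun κ : ℝ => (F (W κ)).im) (Icc (b / a - 1) (b / a + 1)) := by
    refine Complex.continuous_im.comp_continuousOn (hcont.comp (by fun_prop) ?_)
    intro κ hκ
    rw [mem_ball_zero_iff]
    exact (hWnorm κ hκ).trans_lt ht1
  have hapos : 0 < |a| := abs_pos.mpr hα
  -- smallness of the error relative to |a|
  have hsmall : C * B ^ 2 * t < |a| / 2 := by
    have h1 : C * B ^ 2 * t * (B * |a|) < |a| / 2 * |a| := by
      calc _ < a ^ 2 / 2 := ht3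
        _ = |a| / 2 * |a| := by rw [← sq_abs a]; ring
    have h2 : C * B ^ 2 * t * B < |a| / 2 := by
      have h3 : (C * B ^ 2 * t * B) * |a| < |a| / 2 * |a| := by linarith
      exact lt_of_mul_lt_mul_right h3 hapos.le
    have h3 : 0 ≤ C * B ^ 2 * t := by positivity
    nlinarith
  have hl : b / a - 1 ∈ Icc (b / a - 1) (b / a + 1) := ⟨le_rfl, by linarith⟩
  have hr : b / a + 1 ∈ Icc (b / a - 1) (b / a + 1) := ⟨by linarith, le_rfl⟩
  have hab : a * (b / a) = b := mul_div_cancel₀ b hα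
  have hv1 := abs_le.mp (herr_im _ hl)
  have hv2 := abs_le.mp (herr_im _ hr)
  have hev1 : t * (-b + a * (b / a - 1)) = -(t * a) := by
    have : a * (b / a - 1) = b - a := by rw [mul_sub, hab, mul_one]
    rw [this]; ring
  have hev2 : t * (-b + a * (b / a + 1)) = t * a := by
    have : a * (b / a + 1) = b + a := by rw [mul_add, hab, mul_one]
    rw [this]; ring
  rw [hev1] at hv1
  rw [hev2] at hv2
  obtain ⟨κ, hκ, hκ0⟩ : ∃ κ ∈ Icc (b / a - 1) (b / a + 1), (F (W κ)).im = 0 := by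
    rcases lt_or_gt_of_ne hα with hneg | hpos
    · -- a < 0
      rw [abs_of_neg hneg] at hsmall
      have h1 : (F (W (b / a + 1))).im ≤ 0 := by nlinarith [hv2.2]
      have h2 : 0 ≤ (F (W (b / a - 1))).im := by nlinarith [hv1.1]
      exact intermediate_value_Icc' (by linarith) hcontg ⟨h1, h2⟩
    · rw [abs_of_pos hpos] at hsmall
      have h1 : 0 ≤ (F (W (b / a + 1))).im := by nlinarith [hv2.1]
      have h2 : (F (W (b / a - 1))).im ≤ 0 := by nlinarith [hv1.2]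
      exact intermediate_value_Icc (by linarith) hcontg ⟨h2, h1⟩
  refine ⟨W κ, (hWnorm κ hκ).trans_lt ht2, (hWnorm κ hκ).trans_lt ht1, ?_, hκ0, ?_, ?_⟩
  · simp [W]
    exact ht0
  · -- sign of the real part
    have h1 := herr_im κ hκ
    have h2 := herr_re κ hκ
    rw [hκ0] at h1
    set e1 := (F (W κ)).re - t * (-a - b * κ) with he1
    set e2 := 0 - t * (-b + a * κ) with he2
    have h3 : (F (W κ)).re = t * (-a - b * κ) + e1 := by rw [he1]; ring
    have h4 : (F (W κ)).re * a = -t * (a ^ 2 + b ^ 2) + (b * e2 + a * e1) := by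
      rw [h3, he2]; ring
    have h5 : |b| = (B - 2) * |a| := by
      have h6 : |b / a| * |a| = |b| := by rw [← abs_mul]; congr 1; field_simp
      rw [← h6, hB]; ring
    set E := C * B ^ 2 * t * t with hE
    have hE0 : 0 ≤ E := by positivity
    have h7 : b * e2 ≤ |b| * E := by
      calc b * e2 ≤ |b * e2| := le_abs_self _
        _ = |b| * |e2| := abs_mul _ _
        _ ≤ _ := mul_le_mul_of_nonneg_left h1 (abs_nonneg _)
    have h8 : a * e1 ≤ |a| * E := by
      calc a * e1 ≤ |a * e1| := le_abs_self _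
        _ = |a| * |e1| := abs_mul _ _
        _ ≤ _ := mul_le_mul_of_nonneg_left h2 (abs_nonneg _)
    have h9 : |b| * E + |a| * E ≤ B * |a| * E := by
      rw [h5]
      have : 0 ≤ |a| * E := by positivity
      linarith
    have h10 : B * |a| * E = t * (C * B ^ 2 * t * (B * |a|)) := by rw [hE]; ring
    have h11 : t * (C * B ^ 2 * t * (B * |a|)) < t * (a ^ 2 / 2) :=
      mul_lt_mul_of_pos_left ht3 ht0
    have h12 : 0 < t * a ^ 2 := by positivity
    have h13 : 0 ≤ t * b ^ 2 := by positivity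
    rw [h4]
    linarith
  · -- norm
    have h1 := herr κ hκ
    have h2 := hWnorm κ hκ
    calc ‖F (W κ)‖ = ‖(F (W κ) - α * W κ) + α * W κ‖ := by congr 1; ring
      _ ≤ ‖F (W κ) - α * W κ‖ + ‖α * W κ‖ := norm_add_le _ _
      _ ≤ C * B ^ 2 * t * t + ‖α‖ * (t * B) := by
          rw [norm_mul]
          exact add_le_add h1 (mul_le_mul_of_nonneg_left h2 (norm_nonneg _))
      _ ≤ (‖α‖ + C * B * δ) * (t * B) := by
          have h3 : C * B ^ 2 * t * t = C * B * (t * B) * t := by ring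
          have h4 : t ≤ t * B := by nlinarith
          have h5 : C * B * (t * B) * t ≤ C * B * δ * (t * B) := by
            apply mul_le_mul _ h4 ht0.le (by positivity)
            exact mul_le_mul_of_nonneg_left ht1.le (by positivity)
          nlinarith
      _ < η := ht4

lemma same_sign {x y : ℝ} (h : |y - x| < |x|) : 0 < x * y := by
  rcases lt_or_ge x 0 with hx | hx
  · rw [abs_of_neg hx] at h
    have := (abs_lt.mp h).2
    exact mul_pos_of_neg_of_neg hx (by linarith)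
  · rw [abs_of_nonneg hx] at h
    have h5 := (abs_lt.mp h).1
    have h6 : 0 < x := lt_of_le_of_lt (abs_nonneg _) h
    exact mul_pos h6 (by linarith)

set_option maxHeartbeats 1000000 in
/-- Second order perturbation: if `α` is purely imaginary and `Re (β / α) < 0`, then near `0`,
`F` takes real values of each sign at points with negative real part. -/
lemma second_order {F : ℂ → ℂ} {α β : ℂ} {C δ : ℝ} (hδ : 0 < δ)
    (hcont : ContinuousOn F (Metric.ball 0 δ))
    (hF : ∀ w : ℂ, ‖w‖ < δ → ‖F w - α * w - β / 2 * w ^ 2‖ ≤ C * ‖w‖ ^ 3)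
    (hα : α.re = 0) (hα0 : α.im ≠ 0) {κ0 : ℝ} (hκ0 : 0 < κ0) (hβ : β.im = -2 * κ0 * α.im)
    {η : ℝ} (hη : 0 < η) {σ : ℝ} (hσ : σ ≠ 0) :
    ∃ w : ℂ, ‖w‖ < η ∧ ‖w‖ < δ ∧ w.re < 0 ∧ (F w).im = 0 ∧ 0 < σ * (F w).re ∧ ‖F w‖ < η := by
  have hC : 0 ≤ C := by
    have h1 := hF ((δ / 2 : ℝ) : ℂ) (by
      rw [Complex.norm_real, Real.norm_of_nonneg (by positivity)]; linarith)
    have h2 := (norm_nonneg _).trans h1
    have h3 : 0 < ‖((δ / 2 : ℝ) : ℂ)‖ ^ 3 := by
      rw [Complex.norm_real, Real.norm_of_nonneg (by positivity)]; positivity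
    exact nonneg_of_mul_nonneg_left h2 h3
  set a := α.im with ha
  set K : ℝ := 2 * κ0 with hK
  have hKpos : 0 < K := by positivity
  have hapos : 0 < |a| := abs_pos.mpr hα0
  -- error bounds as functions of `t`
  have hev : ∀ᶠ t in 𝓝 (0 : ℝ), K * |t| < 1 ∧ 2 * |t| < δ ∧ 2 * |t| < η ∧
      |κ0 * a| * K ^ 2 * |t| ^ 2 + K * |t| * |β.re| + 8 * C * |t| < |a| * κ0 / 2 ∧
      |a| * 0 + ‖β‖ * 2 * |t| + 8 * C * |t| ^ 2 < |a| ∧
      (‖α‖ * 2 * |t| + ‖β‖ / 2 * (2 * |t|) ^ 2 + C * (2 * |t|) ^ 3) < η := by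
    have c1 : Continuous fun t : ℝ => K * |t| := by fun_prop
    have c2 : Continuous fun t : ℝ => 2 * |t| := by fun_prop
    have c3 : Continuous fun t : ℝ => |κ0 * a| * K ^ 2 * |t| ^ 2 + K * |t| * |β.re| + 8 * C * |t| := by
      fun_prop
    have c4 : Continuous fun t : ℝ => |a| * 0 + ‖β‖ * 2 * |t| + 8 * C * |t| ^ 2 := by fun_prop
    have c5 : Continuous fun t : ℝ => (‖α‖ * 2 * |t| + ‖β‖ / 2 * (2 * |t|) ^ 2 +
        C * (2 * |t|) ^ 3) := by fun_prop
    refine (c1.tendsto 0 |>.eventually (gt_mem_nhds ?_)).and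
      ((c2.tendsto 0 |>.eventually (gt_mem_nhds ?_)).and
      ((c2.tendsto 0 |>.eventually (gt_mem_nhds ?_)).and
      ((c3.tendsto 0 |>.eventually (gt_mem_nhds ?_)).and
      ((c4.tendsto 0 |>.eventually (gt_mem_nhds ?_)).and
      (c5.tendsto 0 |>.eventually (gt_mem_nhds ?_))))))
    · simp
    · simpa using hδ
    · simpa using hη
    · simp; positivity
    · simpa using hα0
    · simpa using hη
  -- choose the sign of `t`
  obtain ⟨t, htsign, ht1, ht2, ht3, ht4, ht5, ht6⟩ : ∃ t : ℝ, 0 < σ * (-a * t) ∧ K * |t| < 1 ∧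
      2 * |t| < δ ∧ 2 * |t| < η ∧
      |κ0 * a| * K ^ 2 * |t| ^ 2 + K * |t| * |β.re| + 8 * C * |t| < |a| * κ0 / 2 ∧
      |a| * 0 + ‖β‖ * 2 * |t| + 8 * C * |t| ^ 2 < |a| ∧
      (‖α‖ * 2 * |t| + ‖β‖ / 2 * (2 * |t|) ^ 2 + C * (2 * |t|) ^ 3) < η := by
    obtain ⟨s, hs, h0⟩ := ((hev.filter_mono nhdsWithin_le_nhds).and
      (self_mem_nhdsWithin (s := Ioi (0 : ℝ)))).exists
    have h0' : 0 < s := h0
    have hσa : σ * a ≠ 0 := mul_ne_zero hσ hα0
    rcases lt_or_gt_of_ne hσa with h | h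
    · exact ⟨s, by nlinarith, hs⟩
    · refine ⟨-s, by nlinarith, ?_⟩
      rw [abs_neg]
      exact hs
  have ht0 : t ≠ 0 := by
    rintro rfl
    simp at htsign
  have htpos : 0 < |t| := abs_pos.mpr ht0
  let W : ℝ → ℂ := fun κ => ((-κ * t ^ 2 : ℝ) : ℂ) + (t : ℂ) * Complex.I
  have hWre : ∀ κ, (W κ).re = -κ * t ^ 2 := by
    intro κ
    simp only [W, Complex.add_re, Complex.ofReal_re, Complex.mul_re, Complex.I_re, Complex.I_im,
      Complex.ofReal_im]
    ring
  have hWim : ∀ κ, (W κ).im = t := by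
    intro κ
    simp only [W, Complex.add_im, Complex.ofReal_im, Complex.mul_im, Complex.I_re, Complex.I_im,
      Complex.ofReal_re]
    ring
  have hWnorm : ∀ κ ∈ Icc (κ0 / 2) K, ‖W κ‖ ≤ 2 * |t| := by
    intro κ hκ
    have hκpos : 0 < κ := by linarith [hκ.1]
    calc ‖W κ‖ ≤ |(W κ).re| + |(W κ).im| := Complex.norm_le_abs_re_add_abs_im _
      _ = κ * |t| * |t| + |t| := by
          rw [hWre, hWim, abs_mul, abs_neg, abs_of_pos hκpos, abs_pow]; ring
      _ ≤ 1 * |t| + |t| := by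
          have : κ * |t| ≤ 1 := by
            have : κ * |t| ≤ K * |t| := mul_le_mul_of_nonneg_right hκ.2 htpos.le
            linarith
          nlinarith
      _ = 2 * |t| := by ring
  have herr : ∀ κ ∈ Icc (κ0 / 2) K, ‖F (W κ) - α * W κ - β / 2 * W κ ^ 2‖ ≤ 8 * C * |t| ^ 3 := by
    intro κ hκ
    have h1 := hWnorm κ hκ
    refine (hF _ (h1.trans_lt ht2)).trans ?_
    calc C * ‖W κ‖ ^ 3 ≤ C * (2 * |t|) ^ 3 :=
          mul_le_mul_of_nonneg_left (pow_le_pow_left₀ (norm_nonneg _) h1 3) hC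
      _ = 8 * C * |t| ^ 3 := by ring
  -- the imaginary part
  have him : ∀ κ ∈ Icc (κ0 / 2) K, |(F (W κ)).im - a * (κ0 - κ) * t ^ 2| ≤ |a| * κ0 / 2 * t ^ 2 := by
    intro κ hκ
    have hκpos : 0 < κ := by linarith [hκ.1]
    have h1 : |(F (W κ)).im - (α * W κ + β / 2 * W κ ^ 2).im| ≤ 8 * C * |t| ^ 3 := by
      rw [← Complex.sub_im]
      refine (Complex.abs_im_le_norm _).trans ?_
      have := herr κ hκ
      rwa [show F (W κ) - α * W κ - β / 2 * W κ ^ 2 = F (W κ) - (α * W κ + β / 2 * W κ ^ 2) by ring]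
        at this
    have h2 : (α * W κ + β / 2 * W κ ^ 2).im = a * (κ0 - κ) * t ^ 2 +
        (-(κ0 * a) * κ ^ 2 * t ^ 4 - κ * t ^ 3 * β.re) := by
      have e1 : (β / 2 * W κ ^ 2).im = (β.re * (2 * (W κ).re * (W κ).im) +
          β.im * ((W κ).re ^ 2 - (W κ).im ^ 2)) / 2 := by
        rw [show β / 2 * W κ ^ 2 = ((1 / 2 : ℝ) : ℂ) * (β * W κ ^ 2) by push_cast; ring,
          Complex.im_ofReal_mul, pow_two, Complex.mul_im, Complex.mul_re, Complex.mul_im]
        ring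
      rw [Complex.add_im, e1, Complex.mul_im, hWre, hWim, hα, hβ, ← ha]
      ring
    rw [h2] at h1
    have h3 : |-(κ0 * a) * κ ^ 2 * t ^ 4 - κ * t ^ 3 * β.re| ≤
        |κ0 * a| * K ^ 2 * |t| ^ 4 + K * |t| ^ 3 * |β.re| := by
      refine (abs_sub _ _).trans (add_le_add ?_ ?_)
      · rw [abs_mul, abs_mul, abs_neg, abs_pow, abs_pow, abs_of_pos hκpos]
        have : κ ^ 2 ≤ K ^ 2 := pow_le_pow_left₀ hκpos.le hκ.2 2
        gcongr
      · rw [abs_mul, abs_mul, abs_pow, abs_of_pos hκpos]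
        have := hκ.2
        gcongr
    have h4 : |(F (W κ)).im - a * (κ0 - κ) * t ^ 2| ≤ 8 * C * |t| ^ 3 +
        (|κ0 * a| * K ^ 2 * |t| ^ 4 + K * |t| ^ 3 * |β.re|) := by
      calc |(F (W κ)).im - a * (κ0 - κ) * t ^ 2|
          = |((F (W κ)).im - (a * (κ0 - κ) * t ^ 2 +
            (-(κ0 * a) * κ ^ 2 * t ^ 4 - κ * t ^ 3 * β.re))) +
            (-(κ0 * a) * κ ^ 2 * t ^ 4 - κ * t ^ 3 * β.re)| := by congr 1; ring
        _ ≤ _ := (abs_add_le _ _).trans (add_le_add h1 h3)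
    refine h4.trans ?_
    have h5 : 8 * C * |t| ^ 3 + (|κ0 * a| * K ^ 2 * |t| ^ 4 + K * |t| ^ 3 * |β.re|) =
        (|κ0 * a| * K ^ 2 * |t| ^ 2 + K * |t| * |β.re| + 8 * C * |t|) * t ^ 2 := by
      rw [← sq_abs t]; ring
    rw [h5]
    exact mul_le_mul_of_nonneg_right ht4.le (sq_nonneg _)
  have hcontg : ContinuousOn (fun κ : ℝ => (F (W κ)).im) (Icc (κ0 / 2) K) := by
    refine Complex.continuous_im.comp_continuousOn (hcont.comp (by fun_prop) ?_)
    intro κ hκ
    rw [mem_ball_zero_iff]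
    exact (hWnorm κ hκ).trans_lt ht2
  have hle : κ0 / 2 ≤ K := by rw [hK]; linarith
  have hv1 := abs_le.mp (him _ (left_mem_Icc.mpr hle))
  have hv2 := abs_le.mp (him _ (right_mem_Icc.mpr hle))
  have ht2pos : 0 < t ^ 2 := by positivity
  obtain ⟨κ, hκ, hκim⟩ : ∃ κ ∈ Icc (κ0 / 2) K, (F (W κ)).im = 0 := by
    rcases lt_or_gt_of_ne hα0 with hneg | hpos
    · rw [abs_of_neg hneg] at hv1 hv2
      have h1 : 0 ≤ (F (W K)).im := by
        have : a * (κ0 - K) * t ^ 2 = -a * κ0 * t ^ 2 := by rw [hK]; ring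
        nlinarith [mul_pos (mul_pos (neg_pos.mpr hneg) hκ0) ht2pos]
      have h2 : (F (W (κ0 / 2))).im ≤ 0 := by nlinarith
      exact intermediate_value_Icc hle hcontg ⟨h2, h1⟩
    · rw [abs_of_pos hpos] at hv1 hv2
      have h1 : (F (W K)).im ≤ 0 := by
        have : a * (κ0 - K) * t ^ 2 = -(a * κ0 * t ^ 2) := by rw [hK]; ring
        nlinarith [mul_pos (mul_pos hpos hκ0) ht2pos]
      have h2 : 0 ≤ (F (W (κ0 / 2))).im := by nlinarith
      exact intermediate_value_Icc' hle hcontg ⟨h1, h2⟩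
  have hκpos : 0 < κ := by linarith [hκ.1]
  have hWn := hWnorm κ hκ
  refine ⟨W κ, hWn.trans_lt ht3, hWn.trans_lt ht2, ?_, hκim, ?_, ?_⟩
  · rw [hWre]
    nlinarith [mul_pos hκpos ht2pos]
  · -- real part
    have h1 : |(F (W κ)).re - (-a * t)| ≤ ‖β‖ * 2 * |t| ^ 2 + 8 * C * |t| ^ 3 := by
      have e1 : (α * W κ).re = -a * t := by
        rw [Complex.mul_re, hα, hWim, ← ha]; ring
      rw [← e1, ← Complex.sub_re]
      refine (Complex.abs_re_le_norm _).trans ?_
      calc ‖F (W κ) - α * W κ‖ = ‖(F (W κ) - α * W κ - β / 2 * W κ ^ 2) + β / 2 * W κ ^ 2‖ := by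
            congr 1; ring
        _ ≤ 8 * C * |t| ^ 3 + ‖β‖ / 2 * (2 * |t|) ^ 2 := by
            refine (norm_add_le _ _).trans (add_le_add (herr κ hκ) ?_)
            rw [norm_mul, norm_div, norm_pow]
            have : ‖(2 : ℂ)‖ = 2 := by simp
            rw [this]
            gcongr
        _ = _ := by ring
    have h2 : ‖β‖ * 2 * |t| ^ 2 + 8 * C * |t| ^ 3 < |a| * |t| := by
      have : ‖β‖ * 2 * |t| ^ 2 + 8 * C * |t| ^ 3 =
        (|a| * 0 + ‖β‖ * 2 * |t| + 8 * C * |t| ^ 2) * |t| := by ring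
      rw [this]
      exact mul_lt_mul_of_pos_right ht5 htpos
    have h3 : |(F (W κ)).re - (-a * t)| < |(-a * t)| := by
      rw [abs_mul, abs_neg]
      exact h1.trans_lt h2
    -- so `Re F` has the sign of `-a t`
    have h4 : 0 < (-a * t) * (F (W κ)).re := same_sign h3
    have h5 : 0 < (σ * (-a * t)) * ((-a * t) * (F (W κ)).re) := mul_pos htsign h4
    have h6 : (σ * (-a * t)) * ((-a * t) * (F (W κ)).re) = (-a * t) ^ 2 * (σ * (F (W κ)).re) := by
      ring
    rw [h6] at h5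
    exact pos_of_mul_pos_right h5 (sq_nonneg _)
  · calc ‖F (W κ)‖ = ‖(F (W κ) - α * W κ - β / 2 * W κ ^ 2) + (α * W κ + β / 2 * W κ ^ 2)‖ := by
          congr 1; ring
      _ ≤ 8 * C * |t| ^ 3 + (‖α‖ * (2 * |t|) + ‖β‖ / 2 * (2 * |t|) ^ 2) := by
          refine (norm_add_le _ _).trans (add_le_add (herr κ hκ) ((norm_add_le _ _).trans
            (add_le_add ?_ ?_)))
          · rw [norm_mul]
            exact mul_le_mul_of_nonneg_left hWn (norm_nonneg _)
          · rw [norm_mul, norm_div, norm_pow]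
            have : ‖(2 : ℂ)‖ = 2 := by simp
            rw [this]
            gcongr
      _ = (‖α‖ * 2 * |t| + ‖β‖ / 2 * (2 * |t|) ^ 2 + C * (2 * |t|) ^ 3) := by ring
      _ < η := ht6

end Pool.Agent.Helper62.Mandel
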