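import Mathlib
import Pool.Agent.Helper62.Mandel.Pert

set_option autoImplicit false

namespace Pool.Agent.Helper62.Mandel

open Set Filter Topology

/-- Data of a series with bounded real coefficients and its first two logarithmic moments. -/
structure Moments (c : ℕ → ℝ) (q S1 S2 : ℂ) : Prop where
  norm_lt : ‖q‖ < 1
  ne_zero : q ≠ 0
  bdd : ∀ k, |c k| ≤ 1
  h0 : HasSum (fun j : ℕ => (c j : ℂ) * q ^ j) 0
  h1 : HasSum (fun j : ℕ => (j : ℂ) * (c j : ℂ) * q ^ j) S1
  h2 : HasSum (fun j : ℕ => (j : ℂ) ^ 2 * (c j : ℂ) * q ^ j) S2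

lemma hasSum_congr' {E : Type} [AddCommMonoid E] [TopologicalSpace E] {f g : ℕ → E} {a b : E}
    (hf : HasSum f a) (h : ∀ j, g j = f j) (hab : b = a) : HasSum g b := by
  rw [hab, show g = f from funext h]
  exact hf

lemma exists_delta {r : ℝ} (hr : r < 1) : ∃ δ : ℝ, 0 < δ ∧ r * Real.exp δ < 1 := by
  have h : Tendsto (fun δ : ℝ => r * Real.exp δ) (𝓝 0) (𝓝 (r * Real.exp 0)) :=
    (Real.continuous_exp.tendsto 0).const_mul r
  rw [Real.exp_zero, mul_one] at h
  obtain ⟨δ, h1, h2⟩ := (((h.eventually (gt_mem_nhds hr)).filter_mono nhdsWithin_le_nhds).and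
    (self_mem_nhdsWithin (s := Ioi (0 : ℝ)))).exists
  exact ⟨δ, h2, h1⟩

/-- The function `w ↦ f(q e^w) / (q e^w)^k`, as a sum of exponentials. -/
noncomputable def Fk (c : ℕ → ℝ) (q : ℂ) (k : ℕ) (w : ℂ) : ℂ :=
  (∑' j : ℕ, (c j : ℂ) * q ^ j * Complex.exp (((j : ℂ) - k) * w)) / q ^ k

lemma norm_jk (j k : ℕ) : ‖((j : ℂ) - k)‖ ≤ (j + k : ℝ) := by
  refine (norm_sub_le _ _).trans ?_
  simp

lemma term_bound {c : ℕ → ℝ} {q : ℂ} (hc : ∀ k, |c k| ≤ 1) (k j : ℕ) {w : ℂ} {δ : ℝ}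
    (hw : ‖w‖ ≤ δ) :
    ‖(c j : ℂ) * q ^ j * Complex.exp (((j : ℂ) - k) * w)‖ ≤
      Real.exp (k * δ) * (‖q‖ * Real.exp δ) ^ j := by
  have hδ : 0 ≤ δ := (norm_nonneg _).trans hw
  rw [norm_mul, norm_mul, norm_pow, Complex.norm_real, Real.norm_eq_abs]
  have h1 : ‖Complex.exp (((j : ℂ) - k) * w)‖ ≤ Real.exp ((j + k) * δ) := by
    rw [Complex.norm_exp]
    apply Real.exp_le_exp.mpr
    calc (((j : ℂ) - k) * w).re ≤ ‖((j : ℂ) - k) * w‖ := Complex.re_le_norm _
      _ = ‖((j : ℂ) - k)‖ * ‖w‖ := norm_mul _ _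
      _ ≤ (j + k) * δ := mul_le_mul (norm_jk j k) hw (norm_nonneg _) (by positivity)
  have h2 : Real.exp ((j + k) * δ) = Real.exp (k * δ) * (Real.exp δ) ^ j := by
    rw [← Real.exp_nat_mul, ← Real.exp_add]
    congr 1
    ring
  rw [h2] at h1
  calc |c j| * ‖q‖ ^ j * ‖Complex.exp (((j : ℂ) - k) * w)‖
      ≤ 1 * ‖q‖ ^ j * (Real.exp (k * δ) * (Real.exp δ) ^ j) := by
        have := hc j
        gcongr
    _ = _ := by rw [mul_pow]; ring

lemma Fk_summable {c : ℕ → ℝ} {q : ℂ} (hc : ∀ k, |c k| ≤ 1) (k : ℕ) {w : ℂ} {δ : ℝ}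
    (hw : ‖w‖ ≤ δ) (hδ : ‖q‖ * Real.exp δ < 1) :
    Summable fun j : ℕ => (c j : ℂ) * q ^ j * Complex.exp (((j : ℂ) - k) * w) := by
  refine Summable.of_norm_bounded ?_ (fun j => term_bound hc k j hw)
  exact (summable_geometric_of_lt_one (by positivity) hδ).mul_left _

lemma Fk_continuousOn {c : ℕ → ℝ} {q : ℂ} (hc : ∀ k, |c k| ≤ 1) (k : ℕ) {δ : ℝ}
    (hδ : ‖q‖ * Real.exp δ < 1) : ContinuousOn (Fk c q k) (Metric.ball 0 δ) := by
  unfold Fk
  refine ContinuousOn.div_const ?_ _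
  refine continuousOn_tsum (fun j => by fun_prop)
    ((summable_geometric_of_lt_one (by positivity) hδ).mul_left (Real.exp (k * δ)))
    (fun j w hw => term_bound hc k j ?_)
  rw [mem_ball_zero_iff] at hw
  exact hw.le

/-- Second order expansion of `Fk`. -/
lemma Fk_expansion {c : ℕ → ℝ} {q S1 S2 : ℂ} (h : Moments c q S1 S2) (k : ℕ) {δ : ℝ}
    (hδ0 : 0 < δ) (hδ : ‖q‖ * Real.exp δ < 1) :
    ∃ C : ℝ, ∀ w : ℂ, ‖w‖ < δ →
      ‖Fk c q k w - S1 / q ^ k * w - ((S2 - 2 * k * S1) / q ^ k) / 2 * w ^ 2‖ ≤ C * ‖w‖ ^ 3 := by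
  have hqk : q ^ k ≠ 0 := pow_ne_zero _ h.ne_zero
  have hqk' : 0 < ‖q ^ k‖ := norm_pos_iff.mpr hqk
  -- summable bound
  have hsum : Summable fun j : ℕ => ((j : ℝ) + k) ^ 3 * (Real.exp (k * δ) *
      (‖q‖ * Real.exp δ) ^ j) := by
    have hr : ‖‖q‖ * Real.exp δ‖ < 1 := by
      rwa [Real.norm_of_nonneg (by positivity)]
    have h3 := summable_pow_mul_geometric_of_norm_lt_one 3 hr
    have h2 := summable_pow_mul_geometric_of_norm_lt_one 2 hr
    have h1 := summable_pow_mul_geometric_of_norm_lt_one 1 hr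
    have h0 := summable_pow_mul_geometric_of_norm_lt_one 0 hr
    have := (((h3.add (h2.mul_left (3 * (k : ℝ)))).add (h1.mul_left (3 * (k : ℝ) ^ 2))).add
      (h0.mul_left ((k : ℝ) ^ 3))).mul_left (Real.exp (k * δ))
    refine this.congr fun j => ?_
    ring
  refine ⟨(∑' j : ℕ, ((j : ℝ) + k) ^ 3 * (Real.exp (k * δ) * (‖q‖ * Real.exp δ) ^ j)) / ‖q ^ k‖,
    fun w hw => ?_⟩
  have hG := (Fk_summable h.bdd k hw.le hδ).hasSum
  have e0 := h.h0
  have e1 : HasSum (fun j : ℕ => ((j : ℂ) - k) * w * ((c j : ℂ) * q ^ j)) (S1 * w) := by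
    have := (h.h1.sub (h.h0.mul_left (k : ℂ))).mul_right w
    exact hasSum_congr' this (fun j => by ring) (by ring)
  have e2 : HasSum (fun j : ℕ => (((j : ℂ) - k) * w) ^ 2 / 2 * ((c j : ℂ) * q ^ j))
      ((S2 - 2 * k * S1) / 2 * w ^ 2) := by
    have := ((h.h2.sub (h.h1.mul_left (2 * k : ℂ))).add (h.h0.mul_left ((k : ℂ) ^ 2))).mul_right
      (w ^ 2 / 2)
    exact hasSum_congr' this (fun j => by ring) (by ring)
  have hrem := ((hG.sub e0).sub e1).sub e2
  have hbound : ∀ j : ℕ, ‖(c j : ℂ) * q ^ j * Complex.exp (((j : ℂ) - k) * w) -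
      (c j : ℂ) * q ^ j - ((j : ℂ) - k) * w * ((c j : ℂ) * q ^ j) -
      (((j : ℂ) - k) * w) ^ 2 / 2 * ((c j : ℂ) * q ^ j)‖ ≤
      ((j : ℝ) + k) ^ 3 * (Real.exp (k * δ) * (‖q‖ * Real.exp δ) ^ j) * ‖w‖ ^ 3 := by
    intro j
    set x : ℂ := ((j : ℂ) - k) * w with hx
    have hxn : ‖x‖ ≤ (j + k) * ‖w‖ := by
      rw [hx, norm_mul]
      exact mul_le_mul_of_nonneg_right (norm_jk j k) (norm_nonneg _)
    have h3 := Complex.norm_exp_sub_sum_le_norm_mul_exp x 3
    simp only [Finset.sum_range_succ, Finset.sum_range_zero, zero_add, pow_zero, pow_one,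
      Nat.factorial, Nat.cast_one, div_one] at h3
    norm_num at h3
    have h4 : (c j : ℂ) * q ^ j * Complex.exp x - (c j : ℂ) * q ^ j - x * ((c j : ℂ) * q ^ j) -
        x ^ 2 / 2 * ((c j : ℂ) * q ^ j) =
        (c j : ℂ) * q ^ j * (Complex.exp x - (1 + x + x ^ 2 / 2)) := by ring
    rw [h4, norm_mul, norm_mul, norm_pow, Complex.norm_real, Real.norm_eq_abs]
    have h5 : ‖x‖ ^ 3 ≤ ((j + k) * ‖w‖) ^ 3 := pow_le_pow_left₀ (norm_nonneg _) hxn 3
    have h6 : Real.exp ‖x‖ ≤ Real.exp (k * δ) * (Real.exp δ) ^ j := by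
      rw [← Real.exp_nat_mul, ← Real.exp_add]
      apply Real.exp_le_exp.mpr
      calc ‖x‖ ≤ (j + k) * ‖w‖ := hxn
        _ ≤ (j + k) * δ := mul_le_mul_of_nonneg_left hw.le (by positivity)
        _ = _ := by ring
    calc |c j| * ‖q‖ ^ j * ‖Complex.exp x - (1 + x + x ^ 2 / 2)‖
        ≤ 1 * ‖q‖ ^ j * (((j + k) * ‖w‖) ^ 3 * (Real.exp (k * δ) * (Real.exp δ) ^ j)) := by
          have h7 := h.bdd j
          have h8 : ‖Complex.exp x - (1 + x + x ^ 2 / 2)‖ ≤
              ((j + k) * ‖w‖) ^ 3 * (Real.exp (k * δ) * (Real.exp δ) ^ j) :=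
            h3.trans (mul_le_mul h5 h6 (Real.exp_pos _).le (by positivity))
          gcongr
      _ = _ := by rw [mul_pow, mul_pow]; ring
  have hn := tsum_of_norm_bounded (hsum.hasSum.mul_right (‖w‖ ^ 3)) hbound
  rw [hrem.tsum_eq] at hn
  have e3 : Fk c q k w - S1 / q ^ k * w - ((S2 - 2 * k * S1) / q ^ k) / 2 * w ^ 2 =
      ((∑' j : ℕ, (c j : ℂ) * q ^ j * Complex.exp (((j : ℂ) - k) * w)) - 0 - S1 * w -
        (S2 - 2 * k * S1) / 2 * w ^ 2) / q ^ k := by
    unfold Fk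
    set X := ∑' j : ℕ, (c j : ℂ) * q ^ j * Complex.exp (((j : ℂ) - k) * w)
    field_simp
    ring
  rw [e3, norm_div]
  calc _ ≤ _ := div_le_div_of_nonneg_right hn hqk'.le
    _ = _ := by ring

/-- If `Fk` takes a real value `-s` at `w`, then changing the `k`-th coefficient by `s` moves the
zero to `q e^w`. -/
lemma vanish_update {c : ℕ → ℝ} {q S1 S2 : ℂ} (h : Moments c q S1 S2) {k : ℕ} {w : ℂ} {δ : ℝ}
    (hw : ‖w‖ ≤ δ) (hδ : ‖q‖ * Real.exp δ < 1) (him : (Fk c q k w).im = 0) :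
    Vanish (Function.update c k (c k - (Fk c q k w).re)) (q * Complex.exp w) := by
  have hqk : q ^ k ≠ 0 := pow_ne_zero _ h.ne_zero
  have hG := (Fk_summable h.bdd k hw hδ).hasSum
  have hGval : ∑' j : ℕ, (c j : ℂ) * q ^ j * Complex.exp (((j : ℂ) - k) * w) =
      Fk c q k w * q ^ k := by
    unfold Fk
    rw [div_mul_cancel₀ _ hqk]
  rw [hGval] at hG
  have hre : Fk c q k w = ((Fk c q k w).re : ℂ) := by
    apply Complex.ext
    · simp
    · simp [him]
  -- multiply by e^{k w}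
  have h1 := hG.mul_right (Complex.exp (k * w))
  have h2 : HasSum (fun j : ℕ => (c j : ℂ) * (q * Complex.exp w) ^ j)
      ((Fk c q k w).re * (q * Complex.exp w) ^ k) := by
    refine hasSum_congr' h1 (fun j => ?_) ?_
    · rw [mul_pow, ← Complex.exp_nat_mul, mul_assoc _ (Complex.exp _) (Complex.exp _),
        ← Complex.exp_add, mul_assoc]
      congr 3
      ring
    · rw [mul_pow, ← Complex.exp_nat_mul, ← hre]
      ring
  have h3 : HasSum (fun j : ℕ => ((Function.update (0 : ℕ → ℝ) k (-(Fk c q k w).re)) j : ℂ) *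
      (q * Complex.exp w) ^ j) (-(Fk c q k w).re * (q * Complex.exp w) ^ k) := by
    have := hasSum_ite_eq k (-((Fk c q k w).re : ℂ) * (q * Complex.exp w) ^ k)
    refine hasSum_congr' this (fun j => ?_) rfl
    by_cases hj : j = k
    · subst hj; simp
    · simp [hj]
  unfold Vanish
  refine hasSum_congr' (h2.add h3) (fun j => ?_) (by ring)
  by_cases hj : j = k
  · subst hj
    simp
    ring
  · simp [Function.update_of_ne hj]

/-- `q` has minimal modulus among the nonreal zeros of the real class. -/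
def IsMin (q : ℂ) : Prop := ∀ q' : ℂ, q'.im ≠ 0 →
  (∃ c : ℕ → ℝ, c 0 = 1 ∧ (∀ k, |c k| ≤ 1) ∧ Vanish c q') → ‖q‖ ≤ ‖q'‖

/-- Contradiction from an allowed perturbation. -/
lemma no_perturbation {c : ℕ → ℝ} {q S1 S2 : ℂ} (h : Moments c q S1 S2) (hc0 : c 0 = 1)
    (hq : q.im ≠ 0) (hmin : IsMin q) {k : ℕ} (hk : 1 ≤ k) {δ : ℝ}
    (hδ : ‖q‖ * Real.exp δ < 1) {w : ℂ} (hw : ‖w‖ < δ) (him : (Fk c q k w).im = 0)
    (hre : w.re < 0) (hw2 : (q * Complex.exp w).im ≠ 0)
    (hc : |c k - (Fk c q k w).re| ≤ 1) : False := by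
  have h1 := vanish_update h hw.le hδ him
  have h2 := hmin (q * Complex.exp w) hw2
    ⟨Function.update c k (c k - (Fk c q k w).re), ?_, fun j => ?_, h1⟩
  · rw [norm_mul, Complex.norm_exp] at h2
    have h3 : Real.exp w.re < 1 := by
      rw [Real.exp_lt_one_iff]
      exact hre
    have h4 : 0 < ‖q‖ := norm_pos_iff.mpr h.ne_zero
    nlinarith
  · rw [Function.update_of_ne (by omega)]
    exact hc0
  · by_cases hj : j = k
    · subst hj
      simpa using hc
    · rw [Function.update_of_ne hj]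
      exact h.bdd j

/-- For small `w` the point `q e^w` stays nonreal. -/
lemma exists_eta {q : ℂ} (hq : q.im ≠ 0) :
    ∃ η : ℝ, 0 < η ∧ ∀ w : ℂ, ‖w‖ < η → (q * Complex.exp w).im ≠ 0 := by
  have hcont : Continuous fun w : ℂ => (q * Complex.exp w).im := by fun_prop
  have h0 : (fun w : ℂ => (q * Complex.exp w).im) 0 ≠ 0 := by simpa using hq
  have := hcont.tendsto 0 |>.eventually_ne h0
  rw [Metric.eventually_nhds_iff] at this
  obtain ⟨η, hη, h⟩ := this
  exact ⟨η, hη, fun w hw => h (by simpa using hw)⟩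

/-- **Bang-bang principle.** At a nonreal zero of minimal modulus, the `k`-th coefficient is the
sign of `Re (S₁ / q^k)`, where `S₁ = ∑ j c_j q^j`. -/
theorem bang {c : ℕ → ℝ} {q S1 S2 : ℂ} (h : Moments c q S1 S2) (hc0 : c 0 = 1)
    (hq : q.im ≠ 0) (hmin : IsMin q) (hS1 : S1 ≠ 0) {k : ℕ} (hk : 1 ≤ k)
    (hor : (S1 / q ^ k).re ≠ 0 ∨ (S2 / S1).re < 2 * k) :
    0 < c k * (S1 / q ^ k).re ∧ |c k| = 1 := by
  obtain ⟨δ, hδ0, hδ⟩ := exists_delta h.norm_lt
  obtain ⟨η, hη0, hη⟩ := exists_eta hq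
  obtain ⟨C, hC⟩ := Fk_expansion h k hδ0 hδ
  have hcont := Fk_continuousOn (q := q) h.bdd k hδ
  have hbk := abs_le.mp (h.bdd k)
  have hqk : q ^ k ≠ 0 := pow_ne_zero _ h.ne_zero
  by_cases hα : (S1 / q ^ k).re = 0
  · -- second order
    exfalso
    have hlt : (S2 / S1).re < 2 * k := by
      rcases hor with h1 | h1
      · exact absurd hα h1
      · exact h1
    set α := S1 / q ^ k with hαdef
    have hα0 : α ≠ 0 := div_ne_zero hS1 hqk
    have hαim : α.im ≠ 0 := by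
      intro h0
      exact hα0 (Complex.ext hα h0)
    set κ0 : ℝ := (2 * k - (S2 / S1).re) / 2 with hκ0
    have hκ0pos : 0 < κ0 := by rw [hκ0]; linarith
    have hβ : ((S2 - 2 * k * S1) / q ^ k).im = -2 * κ0 * α.im := by
      have e1 : (S2 - 2 * k * S1) / q ^ k = (S2 / S1 - 2 * k) * α := by
        rw [hαdef]; field_simp
      rw [e1, Complex.mul_im, hα, mul_zero, add_zero, hκ0]
      simp
      ring
    have key : ∀ σ : ℝ, σ ≠ 0 → (∀ s : ℝ, 0 < σ * s → |s| < 1 → |c k - s| ≤ 1) → False := by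
      intro σ hσ hall
      obtain ⟨w, hw1, hw2, hw3, hw4, hw5, hw6⟩ := second_order hδ0 hcont hC hα hαim hκ0pos hβ
        (η := min η 1) (lt_min hη0 one_pos) hσ
      refine no_perturbation h hc0 hq hmin hk hδ hw2 hw4 hw3 (hη w (hw1.trans_le (min_le_left _ _)))
        (hall _ hw5 ?_)
      exact (Complex.abs_re_le_norm _).trans_lt (hw6.trans_le (min_le_right _ _))
    rcases le_or_gt (c k) 0 with hck | hck
    · exact key (-1) (by norm_num) (fun s hs hs1 => by
        rw [abs_lt] at hs1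
        rw [abs_le]
        constructor <;> linarith)
    · exact key 1 (by norm_num) (fun s hs hs1 => by
        rw [abs_lt] at hs1
        rw [abs_le]
        constructor <;> linarith)
  · -- first order
    have hF1 : ∃ C' : ℝ, ∀ w : ℂ, ‖w‖ < δ → ‖Fk c q k w - S1 / q ^ k * w‖ ≤ C' * ‖w‖ ^ 2 := by
      refine ⟨|C| * δ + ‖((S2 - 2 * k * S1) / q ^ k) / 2‖, fun w hw => ?_⟩
      have h1 := hC w hw
      calc ‖Fk c q k w - S1 / q ^ k * w‖
          = ‖(Fk c q k w - S1 / q ^ k * w - ((S2 - 2 * k * S1) / q ^ k) / 2 * w ^ 2) +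
            ((S2 - 2 * k * S1) / q ^ k) / 2 * w ^ 2‖ := by congr 1; ring
        _ ≤ C * ‖w‖ ^ 3 + ‖((S2 - 2 * k * S1) / q ^ k) / 2‖ * ‖w‖ ^ 2 := by
            refine (norm_add_le _ _).trans (add_le_add h1 ?_)
            rw [norm_mul, norm_pow]
        _ ≤ |C| * δ * ‖w‖ ^ 2 + ‖((S2 - 2 * k * S1) / q ^ k) / 2‖ * ‖w‖ ^ 2 := by
            refine add_le_add ?_ le_rfl
            calc C * ‖w‖ ^ 3 ≤ |C| * ‖w‖ ^ 3 :=
                  mul_le_mul_of_nonneg_right (le_abs_self _) (by positivity)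
              _ = |C| * ‖w‖ * ‖w‖ ^ 2 := by ring
              _ ≤ |C| * δ * ‖w‖ ^ 2 := by gcongr
        _ = _ := by ring
    obtain ⟨C', hC'⟩ := hF1
    -- the coefficient must be the sign
    have key : c k * (S1 / q ^ k).re < |(S1 / q ^ k).re| → False := by
      intro hlt
      set a := (S1 / q ^ k).re with ha
      -- room: `c k - s` stays in [-1,1] for small `s` with `s a < 0`
      set room : ℝ := min 1 ((|a| - c k * a) / |a|) with hroom
      have hapos : 0 < |a| := abs_pos.mpr hα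
      have hroom0 : 0 < room := lt_min one_pos (div_pos (by linarith) hapos)
      obtain ⟨w, hw1, hw2, hw3, hw4, hw5, hw6⟩ := first_order hδ0 hcont hC' hα
        (η := min η room) (lt_min hη0 hroom0)
      refine no_perturbation h hc0 hq hmin hk hδ hw2 hw4 hw3 (hη w (hw1.trans_le (min_le_left _ _)))
        ?_
      set s := (Fk c q k w).re with hs
      have hs1 : |s| < room :=
        (Complex.abs_re_le_norm _).trans_lt (hw6.trans_le (min_le_right _ _))
      have hs2 : |s| < 1 := hs1.trans_le (min_le_left _ _)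
      have hs3 : |s| * |a| < |a| - c k * a := by
        have := hs1.trans_le (min_le_right 1 ((|a| - c k * a) / |a|))
        rwa [lt_div_iff₀ hapos] at this
      rcases lt_or_gt_of_ne hα with hneg | hpos
      · rw [abs_of_neg hneg] at hs3
        have hspos : 0 < s := pos_of_mul_neg_left hw5 hneg.le
        rw [abs_of_pos hspos] at hs2 hs3
        rw [abs_le]
        constructor
        · have : s < 1 + c k := by
            have : 0 < (-a) := by linarith
            nlinarith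
          linarith
        · linarith [hbk.2]
      · rw [abs_of_pos hpos] at hs3
        have hsneg : s < 0 := neg_of_mul_neg_left hw5 hpos.le
        rw [abs_of_neg hsneg] at hs2 hs3
        rw [abs_le]
        constructor
        · linarith [hbk.1]
        · have : -s < 1 - c k := by nlinarith
          linarith
    have hge : |(S1 / q ^ k).re| ≤ c k * (S1 / q ^ k).re := by
      by_contra hcon
      exact key (lt_of_not_ge hcon)
    have hapos : 0 < |(S1 / q ^ k).re| := abs_pos.mpr hα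
    refine ⟨hapos.trans_le hge, le_antisymm (h.bdd k) ?_⟩
    have h1 : |(S1 / q ^ k).re| ≤ |c k| * |(S1 / q ^ k).re| := by
      rw [← abs_mul]
      exact hge.trans (le_abs_self _)
    nlinarith

end Pool.Agent.Helper62.Mandel
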