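import Mathlib
import Pool.Agent.Helper62.Mandel.Ident2
import Pool.Agent.Helper62.Mandel.Series

set_option autoImplicit false

namespace Pool.Agent.Helper62.Mandel

open Set

/-- Integer evaluation of the first two logarithmic moments of a sign list at `(A + B i)/E`. -/
def ev (A B E : ℤ) : List Bool → ℤ → ℤ → ℤ → ℤ → ℤ → ℤ → ℤ → ℤ →
    (ℤ → ℤ → ℤ → ℤ → ℤ → Bool) → Bool
  | [], _, _, _, s1r, s1i, s2r, s2i, Ep, f => f s1r s1i s2r s2i Ep
  | b :: l, j, pr, pi, s1r, s1i, s2r, s2i, Ep, f =>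
    forceInt (j + 1) fun j' =>
    forceInt (A * pr - B * pi) fun pr' =>
    forceInt (A * pi + B * pr) fun pi' =>
    forceInt (bif b then -j else j) fun t =>
    forceInt (E * (s1r + t * pr)) fun s1r' =>
    forceInt (E * (s1i + t * pi)) fun s1i' =>
    forceInt (E * (s2r + j * (t * pr))) fun s2r' =>
    forceInt (E * (s2i + j * (t * pi))) fun s2i' =>
    forceInt (Ep * E) fun Ep' =>
    ev A B E l j' pr' pi' s1r' s1i' s2r' s2i' Ep' f

lemma ev_spec (A B E : ℤ) (q : ℂ) (hq : (E : ℂ) * q = A + B * Complex.I)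
    (f : ℤ → ℤ → ℤ → ℤ → ℤ → Bool) : ∀ (l : List Bool) (j : ℕ) (pr pi s1r s1i s2r s2i Ep : ℤ)
    (X1 X2 : ℂ), (pr : ℂ) + pi * Complex.I = E ^ j * q ^ j →
    (s1r : ℂ) + s1i * Complex.I = E ^ j * X1 → (s2r : ℂ) + s2i * Complex.I = E ^ j * X2 →
    (Ep : ℂ) = E ^ j → ev A B E l j pr pi s1r s1i s2r s2i Ep f = true →
    ∃ s1r' s1i' s2r' s2i' Ep' : ℤ, f s1r' s1i' s2r' s2i' Ep' = true ∧
      (Ep' : ℂ) = E ^ (j + l.length) ∧
      (s1r' : ℂ) + s1i' * Complex.I = E ^ (j + l.length) *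
        (X1 + ∑ i ∈ Finset.range l.length, ((j + i : ℕ) : ℂ) * coefOf l i * q ^ (j + i)) ∧
      (s2r' : ℂ) + s2i' * Complex.I = E ^ (j + l.length) *
        (X2 + ∑ i ∈ Finset.range l.length, ((j + i : ℕ) : ℂ) ^ 2 * coefOf l i * q ^ (j + i)) := by
  intro l
  induction l with
  | nil =>
    intro j pr pi s1r s1i s2r s2i Ep X1 X2 hp h1 h2 hE h
    exact ⟨s1r, s1i, s2r, s2i, Ep, h, by simpa using hE, by simpa using h1, by simpa using h2⟩
  | cons b l ih =>
    intro j pr pi s1r s1i s2r s2i Ep X1 X2 hp h1 h2 hE h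
    rw [ev] at h
    simp only [forceInt_eq] at h
    have hI : Complex.I ^ 2 = -1 := Complex.I_sq
    have hj : ((j : ℤ) + 1) = ((j + 1 : ℕ) : ℤ) := by push_cast; rfl
    rw [hj] at h
    have hb : ((bif b then -(j : ℤ) else (j : ℤ) : ℤ) : ℂ) = (j : ℂ) * coefOf (b :: l) 0 := by
      cases b <;> simp [coefOf]
    have hp' : ((A * pr - B * pi : ℤ) : ℂ) + ((A * pi + B * pr : ℤ) : ℂ) * Complex.I =
        E ^ (j + 1) * q ^ (j + 1) := by
      push_cast
      have e1 : ((A : ℂ) * pr - B * pi) + (A * pi + B * pr) * Complex.I =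
          (A + B * Complex.I) * (pr + pi * Complex.I) := by
        linear_combination (-(B : ℂ) * pi) * hI
      rw [e1, hp, ← hq]
      ring
    have h1' : ((E * (s1r + (bif b then -(j : ℤ) else (j : ℤ)) * pr) : ℤ) : ℂ) +
        ((E * (s1i + (bif b then -(j : ℤ) else (j : ℤ)) * pi) : ℤ) : ℂ) * Complex.I =
        E ^ (j + 1) * (X1 + (j : ℂ) * coefOf (b :: l) 0 * q ^ j) := by
      rw [Int.cast_mul, Int.cast_mul, Int.cast_add, Int.cast_add, Int.cast_mul, Int.cast_mul, hb]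
      have e1 : (E : ℂ) * (s1r + (j * coefOf (b :: l) 0) * pr) +
          E * (s1i + (j * coefOf (b :: l) 0) * pi) * Complex.I =
          E * ((s1r + s1i * Complex.I) + (j * coefOf (b :: l) 0) * (pr + pi * Complex.I)) := by
        ring
      rw [e1, hp, h1]
      ring
    have h2' : ((E * (s2r + j * ((bif b then -(j : ℤ) else (j : ℤ)) * pr)) : ℤ) : ℂ) +
        ((E * (s2i + j * ((bif b then -(j : ℤ) else (j : ℤ)) * pi)) : ℤ) : ℂ) * Complex.I =
        E ^ (j + 1) * (X2 + (j : ℂ) ^ 2 * coefOf (b :: l) 0 * q ^ j) := by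
      rw [Int.cast_mul, Int.cast_mul, Int.cast_add, Int.cast_add, Int.cast_mul, Int.cast_mul,
        Int.cast_mul, Int.cast_mul, hb, Int.cast_natCast]
      have e1 : (E : ℂ) * (s2r + j * ((j * coefOf (b :: l) 0) * pr)) +
          E * (s2i + j * ((j * coefOf (b :: l) 0) * pi)) * Complex.I =
          E * ((s2r + s2i * Complex.I) +
            j * (j * coefOf (b :: l) 0) * (pr + pi * Complex.I)) := by
        ring
      rw [e1, hp, h2]
      ring
    have hE' : ((Ep * E : ℤ) : ℂ) = E ^ (j + 1) := by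
      push_cast
      rw [hE]
      ring
    obtain ⟨u1, u2, u3, u4, u5, h6, h7, h8, h9⟩ := ih (j + 1) _ _ _ _ _ _ _
      (X1 + (j : ℂ) * coefOf (b :: l) 0 * q ^ j) (X2 + (j : ℂ) ^ 2 * coefOf (b :: l) 0 * q ^ j)
      hp' h1' h2' hE' h
    refine ⟨u1, u2, u3, u4, u5, h6, ?_, ?_, ?_⟩
    · rw [h7, List.length_cons]
      congr 1
      ring
    · rw [h8, List.length_cons, Finset.sum_range_succ', show j + 1 + l.length =
        j + (l.length + 1) by ring]
      congr 1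
      have : ∀ i, ((j + 1 + i : ℕ) : ℂ) * coefOf l i * q ^ (j + 1 + i) =
          ((j + (i + 1) : ℕ) : ℂ) * coefOf (b :: l) (i + 1) * q ^ (j + (i + 1)) := by
        intro i
        rw [show j + 1 + i = j + (i + 1) by ring]
        rfl
      simp only [this, add_zero]
      ring
    · rw [h9, List.length_cons, Finset.sum_range_succ', show j + 1 + l.length =
        j + (l.length + 1) by ring]
      congr 1
      have : ∀ i, ((j + 1 + i : ℕ) : ℂ) ^ 2 * coefOf l i * q ^ (j + 1 + i) =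
          ((j + (i + 1) : ℕ) : ℂ) ^ 2 * coefOf (b :: l) (i + 1) * q ^ (j + (i + 1)) := by
        intro i
        rw [show j + 1 + i = j + (i + 1) by ring]
        rfl
      simp only [this, add_zero]
      ring

/-- The numerical test for the two moments. -/
def momTest (s1r s1i s2r s2i Ep : ℤ) : Bool :=
  decide (0 < Ep) && (decide (-2850 * Ep ≤ 1000 * s1r) && (decide (1000 * s1r ≤ -2848 * Ep) &&
  (decide (827 * Ep ≤ 1000 * s1i) && (decide (1000 * s1i ≤ 829 * Ep) &&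
  (decide (-13118 * Ep ≤ 1000 * s2r) && (decide (1000 * s2r ≤ -13116 * Ep) &&
  (decide (4090 * Ep ≤ 1000 * s2i) && decide (1000 * s2i ≤ 4092 * Ep))))))))

theorem mom_ok : ev 378777074017181 510414940715334 (10 ^ 15) (signs.take 61) 0 1 0 0 0 0 0 1
    momTest = true := by
  decide +kernel

/-- The rational point used in the moment computation. -/
noncomputable def qr : ℂ := ⟨378777074017181 / 10 ^ 15, 510414940715334 / 10 ^ 15⟩

lemma norm_pow_sub_le {a b : ℂ} (ha : ‖a‖ ≤ 1) (hb : ‖b‖ ≤ 1) (n : ℕ) :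
    ‖a ^ n - b ^ n‖ ≤ n * ‖a - b‖ := by
  induction n with
  | zero => simp
  | succ n ih =>
    have e1 : a ^ (n + 1) - b ^ (n + 1) = a * (a ^ n - b ^ n) + (a - b) * b ^ n := by ring
    rw [e1]
    refine (norm_add_le _ _).trans ?_
    rw [norm_mul, norm_mul, norm_pow]
    have h1 : ‖b‖ ^ n ≤ 1 := pow_le_one₀ (norm_nonneg _) hb
    push_cast
    calc ‖a‖ * ‖a ^ n - b ^ n‖ + ‖a - b‖ * ‖b‖ ^ n ≤ 1 * (n * ‖a - b‖) + ‖a - b‖ * 1 := by
          gcongr
      _ = _ := by ring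

lemma moment_approx {c a : ℕ → ℝ} {q q0 : ℂ} {η : ℝ} (p : ℕ) (hp : p ≤ 2)
    (hq : ‖q‖ ≤ 16 / 25) (hq0 : ‖q0‖ ≤ 1) (hc : ∀ k, |c k| ≤ 1) (ha : ∀ k, |a k| ≤ 1)
    (h : ∀ j < 61, ‖q‖ ^ j * |c j - a j| ≤ η) {S : ℂ}
    (hS : HasSum (fun j : ℕ => (j : ℂ) ^ p * c j * q ^ j) S) :
    ‖S - ∑ j ∈ Finset.range 61, (j : ℂ) ^ p * a j * q0 ^ j‖ ≤
      61 ^ 3 * (η + 61 * ‖q - q0‖) + 1 / 10 ^ 6 := by
  have hη : 0 ≤ η := by
    have := h 0 (by norm_num)
    exact le_trans (by positivity) this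
  have hq1 : ‖q‖ ≤ 1 := hq.trans (by norm_num)
  have e1 : S - ∑ j ∈ Finset.range 61, (j : ℂ) ^ p * a j * q0 ^ j =
      (∑ j ∈ Finset.range 61, ((j : ℂ) ^ p * c j * q ^ j - (j : ℂ) ^ p * a j * q0 ^ j)) +
      ∑' i : ℕ, ((i + 61 : ℕ) : ℂ) ^ p * c (i + 61) * q ^ (i + 61) := by
    rw [← hS.tsum_eq, ← hS.summable.sum_add_tsum_nat_add 61, Finset.sum_sub_distrib]
    ring
  rw [e1]
  refine (norm_add_le _ _).trans (add_le_add ?_ ?_)
  · calc ‖∑ j ∈ Finset.range 61, ((j : ℂ) ^ p * c j * q ^ j - (j : ℂ) ^ p * a j * q0 ^ j)‖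
        ≤ ∑ j ∈ Finset.range 61, (61 ^ 2 * (η + 61 * ‖q - q0‖) : ℝ) := by
          refine norm_sum_le_of_le _ fun j hj => ?_
          rw [Finset.mem_range] at hj
          have e2 : (j : ℂ) ^ p * c j * q ^ j - (j : ℂ) ^ p * a j * q0 ^ j =
              (j : ℂ) ^ p * (((c j - a j : ℝ) : ℂ) * q ^ j + (a j : ℂ) * (q ^ j - q0 ^ j)) := by
            push_cast
            ring
          rw [e2, norm_mul, norm_pow, Complex.norm_natCast]
          have h1 : (j : ℝ) ^ p ≤ 61 ^ 2 := by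
            have hj' : (j : ℝ) ≤ 61 := by exact_mod_cast hj.le
            calc (j : ℝ) ^ p ≤ 61 ^ p := pow_le_pow_left₀ (by positivity) hj' p
              _ ≤ 61 ^ 2 := pow_le_pow_right₀ (by norm_num) hp
          have h2 : ‖((c j - a j : ℝ) : ℂ) * q ^ j + (a j : ℂ) * (q ^ j - q0 ^ j)‖ ≤
              η + 61 * ‖q - q0‖ := by
            refine (norm_add_le _ _).trans (add_le_add ?_ ?_)
            · rw [norm_mul, norm_pow, Complex.norm_real, Real.norm_eq_abs, mul_comm]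
              exact h j hj
            · rw [norm_mul, Complex.norm_real, Real.norm_eq_abs]
              have h3 := norm_pow_sub_le hq1 hq0 j
              have h4 : (j : ℝ) ≤ 61 := by exact_mod_cast hj.le
              calc |a j| * ‖q ^ j - q0 ^ j‖ ≤ 1 * (j * ‖q - q0‖) :=
                    mul_le_mul (ha j) h3 (norm_nonneg _) zero_le_one
                _ ≤ 61 * ‖q - q0‖ := by
                    rw [one_mul]
                    exact mul_le_mul_of_nonneg_right h4 (norm_nonneg _)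
          exact mul_le_mul h1 h2 (norm_nonneg _) (by positivity)
      _ = _ := by
          rw [Finset.sum_const, Finset.card_range, nsmul_eq_mul]
          push_cast
          ring
  · have hR := (hasSum_succ_sq (r := (16 / 25 : ℝ)) (by norm_num) (by norm_num)).mul_left
      ((61 : ℝ) ^ 2 * (16 / 25) ^ 61)
    refine (tsum_of_norm_bounded hR fun i => ?_).trans (by norm_num)
    rw [norm_mul, norm_mul, norm_pow, norm_pow, Complex.norm_natCast, Complex.norm_real,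
      Real.norm_eq_abs]
    have h1 : (((i + 61 : ℕ) : ℝ)) ^ p ≤ 61 ^ 2 * ((i : ℝ) + 1) ^ 2 := by
      have h3 : (1 : ℝ) ≤ ((i + 61 : ℕ) : ℝ) := by
        push_cast
        linarith [(Nat.cast_nonneg i : (0 : ℝ) ≤ i)]
      calc (((i + 61 : ℕ) : ℝ)) ^ p ≤ (((i + 61 : ℕ) : ℝ)) ^ 2 := pow_le_pow_right₀ h3 hp
        _ ≤ (61 * ((i : ℝ) + 1)) ^ 2 := by
            apply pow_le_pow_left₀ (by positivity)
            push_cast
            linarith [(Nat.cast_nonneg i : (0 : ℝ) ≤ i)]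
        _ = _ := by ring
    have h2 : ‖q‖ ^ (i + 61) ≤ (16 / 25) ^ i * (16 / 25) ^ 61 := by
      rw [← pow_add]
      exact pow_le_pow_left₀ (norm_nonneg _) hq _
    calc ((i + 61 : ℕ) : ℝ) ^ p * |c (i + 61)| * ‖q‖ ^ (i + 61)
        ≤ (61 ^ 2 * ((i : ℝ) + 1) ^ 2) * 1 * ((16 / 25) ^ i * (16 / 25) ^ 61) := by
          have := hc (i + 61)
          gcongr
      _ = _ := by ring

lemma summable_moment {c : ℕ → ℝ} {q : ℂ} (hq : ‖q‖ < 1) (hc : ∀ k, |c k| ≤ 1) (p : ℕ) :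
    Summable fun j : ℕ => (j : ℂ) ^ p * c j * q ^ j := by
  have h := summable_pow_mul_geometric_of_norm_lt_one p (r := ‖q‖) (by simpa using hq)
  refine Summable.of_norm_bounded h fun j => ?_
  rw [norm_mul, norm_mul, norm_pow, norm_pow, Complex.norm_natCast, Complex.norm_real,
    Real.norm_eq_abs]
  calc (j : ℝ) ^ p * |c j| * ‖q‖ ^ j ≤ (j : ℝ) ^ p * 1 * ‖q‖ ^ j := by
        have := hc j
        gcongr
    _ = _ := by ring

/-- The logarithmic moments of a series. -/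
noncomputable def mom (p : ℕ) (c : ℕ → ℝ) (q : ℂ) : ℂ := ∑' j : ℕ, (j : ℂ) ^ p * c j * q ^ j

lemma moments_mk {c : ℕ → ℝ} {q : ℂ} (hq : ‖q‖ < 1) (hq0 : q ≠ 0) (hc : ∀ k, |c k| ≤ 1)
    (hv : Vanish c q) : Moments c q (mom 1 c q) (mom 2 c q) := by
  refine ⟨hq, hq0, hc, hv, ?_, (summable_moment hq hc 2).hasSum⟩
  have := (summable_moment hq hc 1).hasSum
  refine hasSum_congr' this (fun j => by rw [pow_one]) rfl

end Pool.Agent.Helper62.Mandel
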