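import Mathlib
import Pool.Agent.Helper62.Mandel.Mom

set_option autoImplicit false

namespace Pool.Agent.Helper62.Mandel

open Set

lemma abs_coefOf_le (l : List Bool) (k : ℕ) : |coefOf l k| ≤ 1 := by
  rcases coefOf_cases l k with h | h | h <;> rw [h] <;> simp

lemma box_qr :
    (∑ j ∈ Finset.range 61, (j : ℂ) ^ 1 * coefOf signs j * qr ^ j).re ∈
      Icc (-2850 / 1000 : ℝ) (-2848 / 1000) ∧
    (∑ j ∈ Finset.range 61, (j : ℂ) ^ 1 * coefOf signs j * qr ^ j).im ∈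
      Icc (827 / 1000 : ℝ) (829 / 1000) ∧
    (∑ j ∈ Finset.range 61, (j : ℂ) ^ 2 * coefOf signs j * qr ^ j).re ∈
      Icc (-13118 / 1000 : ℝ) (-13116 / 1000) ∧
    (∑ j ∈ Finset.range 61, (j : ℂ) ^ 2 * coefOf signs j * qr ^ j).im ∈
      Icc (4090 / 1000 : ℝ) (4092 / 1000) := by
  have hlen : (signs.take 61).length = 61 := by decide +kernel
  have hq : (((10 ^ 15 : ℤ)) : ℂ) * qr = ((378777074017181 : ℤ) : ℂ) +
      ((510414940715334 : ℤ) : ℂ) * Complex.I := by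
    apply Complex.ext
    · simp [qr]
      norm_num
    · simp [qr]
      norm_num
  obtain ⟨s1r, s1i, s2r, s2i, Ep, h1, h2, h3, h4⟩ := ev_spec _ _ _ qr hq momTest (signs.take 61)
    0 1 0 0 0 0 0 1 0 0 (by simp) (by simp) (by simp) (by simp) mom_ok
  rw [hlen] at h2 h3 h4
  have e3 : ∑ i ∈ Finset.range 61, ((0 + i : ℕ) : ℂ) * coefOf (signs.take 61) i * qr ^ (0 + i) =
      ∑ j ∈ Finset.range 61, (j : ℂ) ^ 1 * coefOf signs j * qr ^ j := by
    refine Finset.sum_congr rfl fun i hi => ?_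
    rw [Finset.mem_range] at hi
    rw [coefOf_take _ _ _ hi, zero_add, pow_one]
  have e4 : ∑ i ∈ Finset.range 61, ((0 + i : ℕ) : ℂ) ^ 2 * coefOf (signs.take 61) i *
      qr ^ (0 + i) = ∑ j ∈ Finset.range 61, (j : ℂ) ^ 2 * coefOf signs j * qr ^ j := by
    refine Finset.sum_congr rfl fun i hi => ?_
    rw [Finset.mem_range] at hi
    rw [coefOf_take _ _ _ hi, zero_add]
  rw [e3, zero_add, ← h2] at h3
  rw [e4, zero_add, ← h2] at h4
  set S1 := ∑ j ∈ Finset.range 61, (j : ℂ) ^ 1 * coefOf signs j * qr ^ j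
  set S2 := ∑ j ∈ Finset.range 61, (j : ℂ) ^ 2 * coefOf signs j * qr ^ j
  simp only [momTest, Bool.and_eq_true, decide_eq_true_eq] at h1
  obtain ⟨g0, g1, g2, g3, g4, g5, g6, g7, g8⟩ := h1
  have hE : (0 : ℝ) < Ep := by exact_mod_cast g0
  rw [zero_add] at h3 h4
  have r1 : (s1r : ℝ) = Ep * S1.re := by
    have := congrArg Complex.re h3
    simpa using this
  have r2 : (s1i : ℝ) = Ep * S1.im := by
    have := congrArg Complex.im h3
    simpa using this
  have r3 : (s2r : ℝ) = Ep * S2.re := by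
    have := congrArg Complex.re h4
    simpa using this
  have r4 : (s2i : ℝ) = Ep * S2.im := by
    have := congrArg Complex.im h4
    simpa using this
  have g1' : (-2850 : ℝ) * Ep ≤ 1000 * s1r := by exact_mod_cast g1
  have g2' : 1000 * (s1r : ℝ) ≤ -2848 * Ep := by exact_mod_cast g2
  have g3' : (827 : ℝ) * Ep ≤ 1000 * s1i := by exact_mod_cast g3
  have g4' : 1000 * (s1i : ℝ) ≤ 829 * Ep := by exact_mod_cast g4
  have g5' : (-13118 : ℝ) * Ep ≤ 1000 * s2r := by exact_mod_cast g5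
  have g6' : 1000 * (s2r : ℝ) ≤ -13116 * Ep := by exact_mod_cast g6
  have g7' : (4090 : ℝ) * Ep ≤ 1000 * s2i := by exact_mod_cast g7
  have g8' : 1000 * (s2i : ℝ) ≤ 4092 * Ep := by exact_mod_cast g8
  rw [r1] at g1' g2'
  rw [r2] at g3' g4'
  rw [r3] at g5' g6'
  rw [r4] at g7' g8'
  have lo : ∀ m x : ℝ, m * Ep ≤ 1000 * (Ep * x) → m / 1000 ≤ x := by
    intro m x h
    have h' : Ep * m ≤ Ep * (1000 * x) := by linarith
    have := le_of_mul_le_mul_left h' hE
    linarith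
  have hi : ∀ m x : ℝ, 1000 * (Ep * x) ≤ m * Ep → x ≤ m / 1000 := by
    intro m x h
    have h' : Ep * (1000 * x) ≤ Ep * m := by linarith
    have := le_of_mul_le_mul_left h' hE
    linarith
  exact ⟨⟨lo _ _ g1', hi _ _ g2'⟩, ⟨lo _ _ g3', hi _ _ g4'⟩, ⟨lo _ _ g5', hi _ _ g6'⟩,
    ⟨lo _ _ g7', hi _ _ g8'⟩⟩

/-- Numerical information on the moments of an admissible series at a point of small modulus in the
open first quadrant. -/
lemma moment_boxes {q : ℂ} (hre : 0 ≤ q.re) (him : 0 < q.im) (hup : ‖q‖ ≤ rup) {c : ℕ → ℝ}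
    (h0 : c 0 = 1) (hc : ∀ k, |c k| ≤ 1) (hv : Vanish c q) :
    (mom 1 c q).re ∈ Icc (-2851 / 1000 : ℝ) (-2847 / 1000) ∧
    (mom 1 c q).im ∈ Icc (826 / 1000 : ℝ) (830 / 1000) ∧
    (mom 2 c q).re ∈ Icc (-13119 / 1000 : ℝ) (-13115 / 1000) ∧
    (mom 2 c q).im ∈ Icc (4089 / 1000 : ℝ) (4093 / 1000) := by
  have hq : q.im ≠ 0 := him.ne'
  have hR : RealClass q := ⟨c, h0, hc, hv⟩
  obtain ⟨l1, l2⟩ := localization_coords hq hR hup
  rw [abs_of_nonneg hre] at l1
  rw [abs_of_pos him] at l2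
  have hqr : ‖q - qr‖ ≤ 4 / 10 ^ 15 := by
    refine (Complex.norm_le_abs_re_add_abs_im _).trans ?_
    have a1 : |(q - qr).re| ≤ 2 / 10 ^ 15 := by
      have : (q - qr).re = (q.re - x0) + (x0 - 378777074017181 / 10 ^ 15) := by
        simp [qr]
      rw [this]
      refine (abs_add_le _ _).trans ?_
      have : |x0 - 378777074017181 / 10 ^ 15| ≤ 1 / 10 ^ 15 := by
        rw [abs_le]
        constructor <;> norm_num [x0, q0re]
      have h3 : (1 : ℝ) / 10 ^ 28 ≤ 1 / 10 ^ 15 := by norm_num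
      linarith
    have a2 : |(q - qr).im| ≤ 2 / 10 ^ 15 := by
      have : (q - qr).im = (q.im - y0) + (y0 - 510414940715334 / 10 ^ 15) := by
        simp [qr]
      rw [this]
      refine (abs_add_le _ _).trans ?_
      have : |y0 - 510414940715334 / 10 ^ 15| ≤ 1 / 10 ^ 15 := by
        rw [abs_le]
        constructor <;> norm_num [y0, q0im]
      have h3 : (1 : ℝ) / 10 ^ 28 ≤ 1 / 10 ^ 15 := by norm_num
      linarith
    linarith
  have hrup : rup ≤ 16 / 25 := by norm_num [rup, rupN, den]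
  have hqr1 : ‖qr‖ ≤ 1 := by
    refine (Complex.norm_le_abs_re_add_abs_im _).trans ?_
    simp only [qr]
    rw [abs_of_nonneg (by norm_num), abs_of_nonneg (by norm_num)]
    norm_num
  have hclose : ∀ j < 61, ‖q‖ ^ j * |c j - coefOf signs j| ≤ 4 / 10 ^ 27 := by
    intro j hj
    rcases Nat.eq_zero_or_pos j with rfl | h1
    · rw [h0]
      simp only [signs, coefOf, cond_false, sub_self, abs_zero, mul_zero]
      positivity
    · exact ident hq hre hup h0 hc hv j h1 (by omega)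
  have hlt : ‖q‖ < 1 := hup.trans_lt (by norm_num [rup, rupN, den])
  have m1 := moment_approx 1 (by norm_num) (hup.trans hrup) hqr1 hc (abs_coefOf_le signs) hclose
    (summable_moment hlt hc 1).hasSum
  have m2 := moment_approx 2 (by norm_num) (hup.trans hrup) hqr1 hc (abs_coefOf_le signs) hclose
    (summable_moment hlt hc 2).hasSum
  have herr : (61 : ℝ) ^ 3 * (4 / 10 ^ 27 + 61 * ‖q - qr‖) + 1 / 10 ^ 6 ≤ 1 / 1000 := by
    calc (61 : ℝ) ^ 3 * (4 / 10 ^ 27 + 61 * ‖q - qr‖) + 1 / 10 ^ 6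
        ≤ (61 : ℝ) ^ 3 * (4 / 10 ^ 27 + 61 * (4 / 10 ^ 15)) + 1 / 10 ^ 6 := by gcongr
      _ ≤ 1 / 1000 := by norm_num
  replace m1 := m1.trans herr
  replace m2 := m2.trans herr
  change ‖mom 1 c q - _‖ ≤ _ at m1
  change ‖mom 2 c q - _‖ ≤ _ at m2
  obtain ⟨⟨b1, b2⟩, ⟨b3, b4⟩, ⟨b5, b6⟩, ⟨b7, b8⟩⟩ := box_qr
  set S1 := ∑ j ∈ Finset.range 61, (j : ℂ) ^ 1 * coefOf signs j * qr ^ j
  set S2 := ∑ j ∈ Finset.range 61, (j : ℂ) ^ 2 * coefOf signs j * qr ^ j
  have c1 := abs_le.mp ((Complex.abs_re_le_norm _).trans m1)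
  have c2 := abs_le.mp ((Complex.abs_im_le_norm _).trans m1)
  have c3 := abs_le.mp ((Complex.abs_re_le_norm _).trans m2)
  have c4 := abs_le.mp ((Complex.abs_im_le_norm _).trans m2)
  rw [Complex.sub_re] at c1 c3
  rw [Complex.sub_im] at c2 c4
  refine ⟨⟨?_, ?_⟩, ⟨?_, ?_⟩, ⟨?_, ?_⟩, ⟨?_, ?_⟩⟩ <;> linarith [c1.1, c1.2, c2.1, c2.2, c3.1,
    c3.2, c4.1, c4.2]

/-- The sign rule at a minimal point in the open first quadrant. -/
theorem sign_rule_quadrant {q : ℂ} (hre : 0 ≤ q.re) (him : 0 < q.im) (hup : ‖q‖ ≤ rup)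
    (hmin : IsMin q) {c : ℕ → ℝ} (h0 : c 0 = 1) (hc : ∀ k, |c k| ≤ 1) (hv : Vanish c q)
    (k : ℕ) (hk : 1 ≤ k) : 0 < c k * (mom 1 c q / q ^ k).re ∧ |c k| = 1 := by
  have hq : q.im ≠ 0 := him.ne'
  have hR : RealClass q := ⟨c, h0, hc, hv⟩
  have hq0 : q ≠ 0 := by
    rintro rfl
    simp at hq
  have hlt : ‖q‖ < 1 := hup.trans_lt (by norm_num [rup, rupN, den])
  have hm := moments_mk hlt hq0 hc hv
  obtain ⟨⟨b1, b2⟩, ⟨b3, b4⟩, ⟨b5, b6⟩, ⟨b7, b8⟩⟩ := moment_boxes hre him hup h0 hc hv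
  obtain ⟨l1, l2⟩ := localization_coords hq hR hup
  rw [abs_of_nonneg hre] at l1
  rw [abs_of_pos him] at l2
  obtain ⟨l3, l4⟩ := abs_lt.mp l1
  obtain ⟨l5, l6⟩ := abs_lt.mp l2
  have hx1 : 3787 / 10000 ≤ q.re := by
    have : 3787 / 10000 ≤ x0 - 1 / 10 ^ 28 := by norm_num [x0, q0re]
    linarith
  have hx2 : q.re ≤ 3788 / 10000 := by
    have : x0 + 1 / 10 ^ 28 ≤ 3788 / 10000 := by norm_num [x0, q0re]
    linarith
  have hy1 : 5104 / 10000 ≤ q.im := by
    have : 5104 / 10000 ≤ y0 - 1 / 10 ^ 28 := by norm_num [y0, q0im]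
    linarith
  have hy2 : q.im ≤ 5105 / 10000 := by
    have : y0 + 1 / 10 ^ 28 ≤ 5105 / 10000 := by norm_num [y0, q0im]
    linarith
  set S1 := mom 1 c q with hS1
  set S2 := mom 2 c q with hS2
  have hS1ne : S1 ≠ 0 := by
    intro h
    rw [h] at b3
    norm_num at b3
  -- real parts through conjugates
  have hre_div : ∀ z w : ℂ, w ≠ 0 → (z / w).re = (z.re * w.re + z.im * w.im) /
      Complex.normSq w := by
    intro z w _
    rw [Complex.div_re]
    ring
  refine bang hm h0 hq hmin hS1ne hk ?_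
  rcases Nat.lt_or_ge k 3 with h3 | h3
  · left
    have hk12 : k = 1 ∨ k = 2 := by omega
    rcases hk12 with rfl | rfl
    · rw [pow_one, hre_div _ _ hq0]
      apply div_ne_zero _ (Complex.normSq_pos.mpr hq0).ne'
      have e1 : S1.re * q.re ≤ (-2847 / 1000) * (3787 / 10000) := by nlinarith
      have e2 : S1.im * q.im ≤ (830 / 1000) * (5105 / 10000) := by
        apply mul_le_mul b4 hy2 him.le (by norm_num)
      have : S1.re * q.re + S1.im * q.im < 0 := by
        have : (-2847 / 1000 : ℝ) * (3787 / 10000) + (830 / 1000) * (5105 / 10000) < 0 := by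
          norm_num
        linarith
      exact this.ne
    · have hq2 : q ^ 2 ≠ 0 := pow_ne_zero _ hq0
      rw [hre_div _ _ hq2]
      apply div_ne_zero _ (Complex.normSq_pos.mpr hq2).ne'
      have er : (q ^ 2).re = q.re ^ 2 - q.im ^ 2 := by simp [pow_two]
      have ei : (q ^ 2).im = 2 * q.re * q.im := by simp [pow_two]; ring
      rw [er, ei]
      have e1 : q.re ^ 2 - q.im ^ 2 ≤ 0 := by nlinarith
      have e2 : 0 ≤ S1.re * (q.re ^ 2 - q.im ^ 2) := by
        apply mul_nonneg_of_nonpos_of_nonpos _ e1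
        linarith
      have e3 : 0 < S1.im * (2 * q.re * q.im) := by
        have : 0 < S1.im := by linarith
        have : 0 < q.re := by linarith
        positivity
      linarith
  · right
    have hk3 : (6 : ℝ) ≤ 2 * k := by
      have : (3 : ℝ) ≤ k := by exact_mod_cast h3
      linarith
    refine lt_of_lt_of_le ?_ hk3
    rw [hre_div _ _ hS1ne, div_lt_iff₀ (Complex.normSq_pos.mpr hS1ne), Complex.normSq_apply]
    nlinarith

end Pool.Agent.Helper62.Mandel
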