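import Mathlib
import Pool.Agent.Helper62.Mandel.Struct

set_option autoImplicit false

namespace Pool.Agent.Helper62.Mandel

open Set Filter Topology

/-- `q` is a zero of a series with constant term `1` and all coefficients in `K`. -/
def InClass (K : Set ℝ) (q : ℂ) : Prop :=
  ∃ c : ℕ → ℝ, c 0 = 1 ∧ (∀ k, c k ∈ K) ∧ Vanish c q

lemma vanish_iff_tsum {c : ℕ → ℝ} {q : ℂ} (hq : ‖q‖ < 1) (hc : ∀ k, |c k| ≤ 1) :
    Vanish c q ↔ ∑' k : ℕ, (c k : ℂ) * q ^ k = 0 := by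
  have hs : Summable fun k : ℕ => (c k : ℂ) * q ^ k := by
    have := summable_moment hq hc 0
    simpa using this
  constructor
  · intro h
    exact h.tsum_eq
  · intro h
    have := hs.hasSum
    rwa [h] at this

/-- The compact space of pairs (series, zero). -/
def pairs (K : Set ℝ) (R h : ℝ) : Set ((ℕ → ℝ) × ℂ) :=
  (Set.pi univ (fun _ => K) ×ˢ Metric.closedBall 0 R) ∩
    {p | p.1 0 = 1 ∧ h ≤ |p.2.im| ∧ ∑' k : ℕ, (p.1 k : ℂ) * p.2 ^ k = 0}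

lemma isCompact_pairs {K : Set ℝ} (hK : IsCompact K) (hK1 : K ⊆ Icc (-1) 1) {R : ℝ} (hR0 : 0 ≤ R)
    (hR : R < 1) (h : ℝ) : IsCompact (pairs K R h) := by
  have h1 : IsCompact (Set.pi univ (fun _ : ℕ => K) ×ˢ Metric.closedBall (0 : ℂ) R) :=
    (isCompact_univ_pi fun _ => hK).prod (isCompact_closedBall 0 R)
  have hcont : ContinuousOn (fun p : (ℕ → ℝ) × ℂ => ∑' k : ℕ, (p.1 k : ℂ) * p.2 ^ k)
      (Set.pi univ (fun _ : ℕ => K) ×ˢ Metric.closedBall (0 : ℂ) R) := by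
    refine continuousOn_tsum (u := fun k => R ^ k) (fun k => ?_)
      (summable_geometric_of_lt_one hR0 hR) (fun k p hp => ?_)
    · apply Continuous.continuousOn
      fun_prop
    · rw [norm_mul, norm_pow, Complex.norm_real, Real.norm_eq_abs]
      have h2 : |p.1 k| ≤ 1 := abs_le.mpr (hK1 (hp.1 k (mem_univ k)))
      have h3 : ‖p.2‖ ≤ R := by simpa using hp.2
      calc |p.1 k| * ‖p.2‖ ^ k ≤ 1 * R ^ k := by gcongr
        _ = R ^ k := one_mul _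
  have hclosed : IsClosed {p : (ℕ → ℝ) × ℂ | p.1 0 = 1 ∧ h ≤ |p.2.im|} := by
    have h1 : IsClosed {p : (ℕ → ℝ) × ℂ | p.1 0 = 1} := isClosed_eq (by fun_prop) continuous_const
    have h2 : IsClosed {p : (ℕ → ℝ) × ℂ | h ≤ |p.2.im|} :=
      isClosed_le continuous_const ((Complex.continuous_im.comp continuous_snd).abs)
    exact h1.inter h2
  have h4 := hcont.preimage_isClosed_of_isClosed h1.isClosed (isClosed_singleton (x := (0 : ℂ)))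
  have h5 : IsCompact ((Set.pi univ (fun _ : ℕ => K) ×ˢ Metric.closedBall (0 : ℂ) R) ∩
      (fun p : (ℕ → ℝ) × ℂ => ∑' k : ℕ, (p.1 k : ℂ) * p.2 ^ k) ⁻¹' {0}) :=
    h1.of_isClosed_subset h4 inter_subset_left
  have h6 := h5.inter_right hclosed
  convert h6 using 1
  ext p
  constructor
  · rintro ⟨h1, h2, h3, h4⟩
    exact ⟨⟨h1, h4⟩, h2, h3⟩
  · rintro ⟨⟨h1, h4⟩, h2, h3⟩
    exact ⟨h1, h2, h3, h4⟩

/-- The minimum is attained. -/
theorem exists_min {K : Set ℝ} (hK : IsCompact K) (hK1 : K ⊆ Icc (-1) 1)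
    (hne : ∃ q : ℂ, q.im ≠ 0 ∧ ‖q‖ < rup ∧ InClass K q) :
    ∃ q : ℂ, q.im ≠ 0 ∧ ‖q‖ < rup ∧ InClass K q ∧
      ∀ q' : ℂ, q'.im ≠ 0 → InClass K q' → ‖q‖ ≤ ‖q'‖ := by
  have hrup0 : 0 ≤ rup := by norm_num [rup, rupN, den]
  have hrup1 : rup < 1 := by norm_num [rup, rupN, den]
  have hreal : ∀ q, InClass K q → RealClass q := by
    rintro q ⟨c, h0, hc, hv⟩
    exact ⟨c, h0, fun k => abs_le.mpr (hK1 (hc k)), hv⟩
  have him : ∀ q : ℂ, q.im ≠ 0 → ‖q‖ ≤ rup → InClass K q → 1 / 2 ≤ |q.im| := by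
    intro q hq hup hcl
    obtain ⟨-, h2⟩ := localization_coords hq (hreal q hcl) hup
    have h3 := (abs_lt.mp h2).1
    have : 1 / 2 ≤ y0 - 1 / 10 ^ 28 := by norm_num [y0, q0im]
    linarith
  have hmem : ∀ q : ℂ, ∀ c : ℕ → ℝ, q.im ≠ 0 → ‖q‖ ≤ rup → c 0 = 1 → (∀ k, c k ∈ K) →
      Vanish c q → (c, q) ∈ pairs K rup (1 / 2) := by
    intro q c hq hup h0 hc hv
    refine ⟨⟨fun k _ => hc k, by simpa using hup⟩, h0, him q hq hup ⟨c, h0, hc, hv⟩, ?_⟩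
    exact hv.tsum_eq
  obtain ⟨q1, hq1, hlt1, c1, h01, hc1, hv1⟩ := hne
  have hcomp := isCompact_pairs hK hK1 hrup0 hrup1 (1 / 2)
  obtain ⟨⟨c, q⟩, hp, hmin⟩ := hcomp.exists_isMinOn ⟨(c1, q1), hmem q1 c1 hq1 hlt1.le h01 hc1 hv1⟩
    (f := fun p : (ℕ → ℝ) × ℂ => ‖p.2‖) (by fun_prop)
  obtain ⟨⟨hpK, hpR⟩, hp0, hpim, hpv⟩ := hp
  simp only at hpK hpR hp0 hpim hpv
  have hqR : ‖q‖ ≤ rup := by simpa using hpR
  have hcK : ∀ k, c k ∈ K := fun k => hpK k (mem_univ k)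
  have hqim : q.im ≠ 0 := by
    intro h
    rw [h] at hpim
    norm_num at hpim
  have hv : Vanish c q := (vanish_iff_tsum (hqR.trans_lt hrup1)
    (fun k => abs_le.mpr (hK1 (hcK k)))).mpr hpv
  have hle : ∀ q' : ℂ, q'.im ≠ 0 → ‖q'‖ ≤ rup → InClass K q' → ‖q‖ ≤ ‖q'‖ := by
    rintro q' hq' hup' ⟨c', h0', hc', hv'⟩
    exact hmin (hmem q' c' hq' hup' h0' hc' hv')
  have hlt : ‖q‖ < rup := (hle q1 hq1 hlt1.le ⟨c1, h01, hc1, hv1⟩).trans_lt hlt1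
  refine ⟨q, hqim, hlt, ⟨c, hp0, hcK, hv⟩, fun q' hq' hcl => ?_⟩
  rcases le_total ‖q'‖ rup with h | h
  · exact hle q' hq' h hcl
  · exact hlt.le.trans h

end Pool.Agent.Helper62.Mandel
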