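import Mathlib
import Pool.Agent.Helper62.Mandel.Compact

set_option autoImplicit false

namespace Pool.Agent.Helper62.Mandel

open Set Filter Topology
open scoped ComplexConjugate

lemma mom_neg (p : ℕ) (c : ℕ → ℝ) (q : ℂ) : mom p (fun k => (-1) ^ k * c k) (-q) = mom p c q := by
  unfold mom
  congr 1
  ext k
  push_cast
  rw [neg_pow q k]
  have : ((-1 : ℂ) ^ k) * (-1) ^ k = 1 := by rw [← mul_pow]; simp
  linear_combination ((k : ℂ) ^ p * (c k : ℂ) * q ^ k) * this

lemma Vanish.conj {c : ℕ → ℝ} {q : ℂ} (h : Vanish c q) : Vanish c (conj q) := by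
  unfold Vanish at *
  have := (Complex.hasSum_conj' (f := fun k => (c k : ℂ) * q ^ k) (x := 0)).mpr h
  rw [map_zero] at this
  refine hasSum_congr' this (fun k => ?_) rfl
  simp

lemma mom_conj (p : ℕ) (c : ℕ → ℝ) (q : ℂ) : mom p c (conj q) = conj (mom p c q) := by
  unfold mom
  rw [Complex.conj_tsum]
  congr 1
  ext k
  simp

lemma isMin_of_norm_eq {q q' : ℂ} (h : IsMin q) (he : ‖q'‖ = ‖q‖) : IsMin q' := by
  intro p hp hcl
  rw [he]
  exact h p hp hcl

/-- The sign rule at an arbitrary nonreal minimal point. -/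
theorem sign_rule {q : ℂ} (hq : q.im ≠ 0) (hup : ‖q‖ ≤ rup) (hmin : IsMin q) {c : ℕ → ℝ}
    (h0 : c 0 = 1) (hc : ∀ k, |c k| ≤ 1) (hv : Vanish c q) (k : ℕ) (hk : 1 ≤ k) :
    0 < c k * (mom 1 c q / q ^ k).re ∧ |c k| = 1 := by
  -- the right half plane
  have right : ∀ (q : ℂ) (c : ℕ → ℝ), q.im ≠ 0 → 0 ≤ q.re → ‖q‖ ≤ rup → IsMin q → c 0 = 1 →
      (∀ k, |c k| ≤ 1) → Vanish c q → 0 < c k * (mom 1 c q / q ^ k).re ∧ |c k| = 1 := by
    intro q c hq hre hup hmin h0 hc hv
    rcases lt_or_gt_of_ne hq with him | him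
    · have h := sign_rule_quadrant (q := conj q) (by simpa using hre) (by simpa using him)
        (by simpa using hup) (isMin_of_norm_eq hmin (by simp)) h0 hc hv.conj k hk
      rw [mom_conj, ← map_pow, ← map_div₀, Complex.conj_re] at h
      exact h
    · exact sign_rule_quadrant hre him hup hmin h0 hc hv k hk
  rcases le_total 0 q.re with hre | hre
  · exact right q c hq hre hup hmin h0 hc hv
  · have h := right (-q) (fun k => (-1) ^ k * c k) (by simpa using hq) (by simpa using hre)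
      (by simpa using hup) (isMin_of_norm_eq hmin (by simp)) (by simp [h0])
      (fun k => by
        rw [abs_mul, abs_pow, abs_neg, abs_one, one_pow, one_mul]
        exact hc k) hv.neg
    rw [mom_neg] at h
    obtain ⟨h1, h2⟩ := h
    constructor
    · have e : ((-1 : ℝ) ^ k * c k) * (mom 1 c q / (-q) ^ k).re =
          c k * (mom 1 c q / q ^ k).re := by
        rcases neg_one_pow_eq_or ℝ k with h3 | h3
        · have h4 : (-1 : ℂ) ^ k = 1 := by
            have := congrArg (fun x : ℝ => (x : ℂ)) h3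
            simpa using this
          rw [neg_pow q k, h3, h4, one_mul, one_mul]
        · have h4 : (-1 : ℂ) ^ k = -1 := by
            have := congrArg (fun x : ℝ => (x : ℂ)) h3
            simpa using this
          rw [neg_pow q k, h3, h4]
          rw [neg_one_mul, neg_one_mul, div_neg, Complex.neg_re]
          ring
      rw [e] at h1
      exact h1
    · rwa [abs_mul, abs_pow, abs_neg, abs_one, one_pow, one_mul] at h2

/-- Uniqueness of the series at a minimal point. -/
theorem series_unique {q : ℂ} (hq : q.im ≠ 0) (hup : ‖q‖ ≤ rup) (hmin : IsMin q) {c d : ℕ → ℝ}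
    (h0 : c 0 = 1) (hc : ∀ k, |c k| ≤ 1) (hv : Vanish c q)
    (g0 : d 0 = 1) (hd : ∀ k, |d k| ≤ 1) (gv : Vanish d q) : d = c := by
  ext k
  rcases Nat.eq_zero_or_pos k with rfl | hk
  · rw [h0, g0]
  have hmid : Vanish (fun k => (c k + d k) / 2) q := by
    unfold Vanish at *
    refine hasSum_congr' ((hv.add gv).mul_left (1 / 2)) (fun k => ?_) (by simp)
    push_cast
    ring
  have h1 := (sign_rule hq hup hmin (c := fun k => (c k + d k) / 2) (by simp [h0, g0])
    (fun k => by
      have h2 := abs_le.mp (hc k)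
      have h3 := abs_le.mp (hd k)
      rw [abs_le]
      constructor <;> linarith [h2.1, h2.2, h3.1, h3.2]) hmid k hk).2
  have h2 := abs_le.mp (hc k)
  have h3 := abs_le.mp (hd k)
  rcases abs_choice ((c k + d k) / 2) with h | h
  · rw [h] at h1
    linarith [h2.1, h2.2, h3.1, h3.2]
  · rw [h] at h1
    linarith [h2.1, h2.2, h3.1, h3.2]

lemma mandelbrot_iff_inClass {q : ℂ} (hq : ‖q‖ < 1) : q ∈ mandelbrot ↔ InClass {0, 1, -1} q := by
  rw [mem_mandelbrot_iff]
  constructor
  · rintro ⟨-, a, h0, ha, hv⟩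
    exact ⟨a, h0, ha, hv⟩
  · rintro ⟨a, h0, ha, hv⟩
    exact ⟨hq, a, h0, ha, hv⟩

/-- A minimal point of the real class exists; it belongs to `M`. -/
theorem exists_isMin : ∃ q : ℂ, q ∈ mandelbrot ∧ q.im ≠ 0 ∧ ‖q‖ < rup ∧ IsMin q := by
  obtain ⟨p, hp, hpim, hplt⟩ := exists_point
  have hreal := realClass_of_mandelbrot hp
  obtain ⟨q, hq, hlt, ⟨c, h0, hc, hv⟩, hmin⟩ := exists_min (K := Icc (-1) 1) isCompact_Icc
    subset_rfl ⟨p, hpim, hplt, by
      obtain ⟨c, h0, hc, hv⟩ := hreal
      exact ⟨c, h0, fun k => abs_le.mp (hc k), hv⟩⟩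
  have hisMin : IsMin q := by
    rintro q' hq' ⟨c', h0', hc', hv'⟩
    exact hmin q' hq' ⟨c', h0', fun k => abs_le.mp (hc' k), hv'⟩
  have hc' : ∀ k, |c k| ≤ 1 := fun k => abs_le.mpr (hc k)
  have hrup1 : rup < 1 := by norm_num [rup, rupN, den]
  refine ⟨q, ?_, hq, hlt, hisMin⟩
  rw [mem_mandelbrot_iff]
  refine ⟨hlt.trans hrup1, c, h0, fun k => ?_, hv⟩
  rcases Nat.eq_zero_or_pos k with rfl | hk
  · right; left; exact h0
  · have h1 := (sign_rule hq hlt.le hisMin h0 hc' hv k hk).2
    right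
    rcases abs_choice (c k) with h | h
    · left; rw [← h, h1]
    · right; rw [h] at h1; linarith

end Pool.Agent.Helper62.Mandel
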